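import Pool.Agent.Work.MP_8f87b2_h26.C2

/-!
# Removing two or three members from a family (ends of links between families)

`arc_matching`: a cyclic permutation minus an arc is perfectly matched if the rest has even size.
`n` odd, `m ≥ 3`: the pile `m δ_x` has in the hop graph only the two neighbours
`(m-1) δ_x + δ_(x ± 1)`, so in every Hamilton cycle these three classes are consecutive:
`near_py` (two of them are left out, even number of classes), `near_ypy` (all three are left out, odd
number of classes).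
-/

set_option autoImplicit false

namespace Pool.OddHop

open Finset Equiv

/-- A cyclic permutation minus an arc of length `r`. -/
theorem arc_matching {X : Type*} [Finite X] (f : Perm X) (h : ∀ x y, f.SameCycle x y)
    (x0 : X) (r : ℕ) (hr : r ≤ Nat.card X) (hpar : Even (Nat.card X - r)) :
    ∃ ι : X → X, (∀ x, ι (ι x) = x) ∧ (∀ x, ι x = x ∨ ι x = f x ∨ f (ι x) = x) ∧
      ∀ x, ι x = x ↔ ∃ i < r, (f ^ i) x0 = x := by
  classical
  have := Fintype.ofFinite X
  set N := (Finset.univ : Finset X).card with hN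
  have hNc : Nat.card X = N := by rw [Nat.card_eq_fintype_card, hN, Finset.card_univ]
  rw [hNc] at hr hpar
  have hN0 : 0 < N := Finset.card_pos.2 ⟨x0, Finset.mem_univ _⟩
  have hc : f.IsCycleOn ((Finset.univ : Finset X) : Set X) := by
    refine ⟨?_, fun x _ y _ => h x y⟩
    rw [Finset.coe_univ]
    exact Set.bijOn_univ.2 f.bijective
  set x1 := (f ^ r) x0 with hx1
  have hex : ∀ x : X, ∃ j, j < N ∧ (f ^ j) x1 = x := by
    intro x
    obtain ⟨j, hj, he⟩ := hc.exists_pow_eq (Finset.mem_univ x1) (Finset.mem_univ x)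
    exact ⟨j, hj, he⟩
  choose j hj1 hj2 using hex
  have huniq : ∀ a < N, ∀ b < N, (f ^ a) x1 = (f ^ b) x1 → a = b := by
    intro a ha b hb hab
    have h1 := (hc.pow_apply_eq_pow_apply (Finset.mem_univ x1)).1 hab
    exact Nat.ModEq.eq_of_lt_of_lt h1 ha hb
  let fl : ℕ → ℕ := fun a => if a % 2 = 0 then a + 1 else a - 1
  have hfl : ∀ a, fl (fl a) = a := by
    intro a
    simp only [fl]
    by_cases h0 : a % 2 = 0
    · have h1 : ¬ (a + 1) % 2 = 0 := by omega
      simp only [h0, if_true, h1, if_false]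
      omega
    · have h1 : (a - 1) % 2 = 0 := by omega
      simp only [h0, if_false, h1, if_true]
      omega
  have hflne : ∀ a, fl a ≠ a := by
    intro a
    simp only [fl]
    split_ifs <;> omega
  have hfllt : ∀ a, a < N - r → fl a < N - r := by
    intro a ha
    obtain ⟨c, hc⟩ := hpar
    simp only [fl]
    split_ifs <;> omega
  have hjf : ∀ a < N, j ((f ^ a) x1) = a := by
    intro a ha
    exact huniq _ (hj1 _) _ ha (hj2 _)
  have hback : ∀ i < r, (f ^ (N - r + i)) x1 = (f ^ i) x0 := by
    intro i hi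
    rw [hx1, ← Perm.mul_apply, ← pow_add]
    have h2 : N - r + i + r = i + N := by omega
    rw [h2, pow_add, Perm.mul_apply]
    congr 1
    exact (hc.pow_apply_eq (Finset.mem_univ x0)).2 (dvd_refl _)
  refine ⟨fun x => if j x < N - r then (f ^ fl (j x)) x1 else x, ?_, ?_, ?_⟩
  · intro x
    by_cases hx : j x < N - r
    · have h1 : fl (j x) < N - r := hfllt _ hx
      have h2 : j ((f ^ fl (j x)) x1) = fl (j x) := hjf _ (by omega)
      simp only [hx, if_true, h2, h1, hfl, hj2]
    · simp only [hx, if_false]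
  · intro x
    by_cases hx : j x < N - r
    · simp only [hx, if_true]
      by_cases h0 : j x % 2 = 0
      · right; left
        have h1 : fl (j x) = j x + 1 := by simp only [fl, h0, if_true]
        rw [h1, pow_succ', Perm.mul_apply, hj2]
      · right; right
        have h1 : j x = fl (j x) + 1 := by
          simp only [fl, h0, if_false]
          omega
        have h2 := hj2 x
        rw [h1, pow_succ', Perm.mul_apply] at h2
        exact h2
    · left
      simp only [hx, if_false]
  · intro x
    by_cases hx : j x < N - r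
    · simp only [hx, if_true]
      constructor
      · intro he
        exfalso
        have h1 : fl (j x) = j x :=
          huniq _ (by have := hfllt _ hx; omega) _ (hj1 x) (he.trans (hj2 x).symm)
        exact hflne _ h1
      · rintro ⟨i, hi, rfl⟩
        exfalso
        have h1 : j ((f ^ i) x0) = N - r + i := by
          rw [← hback i hi]
          exact hjf _ (by omega)
        omega
    · simp only [hx, if_false, true_iff]
      have h1 : j x < N := hj1 x
      refine ⟨j x - (N - r), by omega, ?_⟩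
      rw [← hback _ (by omega)]
      have h2 : N - r + (j x - (N - r)) = j x := by omega
      rw [h2, hj2]

variable {g n m : ℕ}

theorem HopQ.symm3 [NeZero n] {hg : g ∣ n} {p q : Quotient (msSetoid m hg)} (h : HopQ hg p q) :
    HopQ hg q p := by
  obtain ⟨a, a', e1, e2, e3⟩ := h
  exact ⟨a', a, e2, e1, e3.symm⟩

/-- all beads in the hole `x` -/
def pileMs (m : ℕ) [NeZero n] (x : ZMod n) : Ms n m :=
  ⟨fun z => if z = x then m else 0, by simp⟩

/-- all beads but one in the hole `x`, one bead in the hole `y` -/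
def nearMs [NeZero n] (hm : 1 ≤ m) (x y : ZMod n) : Ms n m :=
  ⟨fun z => (if z = x then m - 1 else 0) + (if z = y then 1 else 0), by
    rw [sum_add_distrib]
    simp
    omega⟩

theorem one_ne_neg_one_of_odd (hn : Odd n) (hn3 : 3 ≤ n) (x : ZMod n) : x + 1 ≠ x - 1 := by
  intro h
  have h1 : ((2 : ℕ) : ZMod n) = 0 := by
    have h2 : (x + 1) - (x - 1) = 0 := sub_eq_zero.2 h
    push_cast
    linear_combination h2
  rw [ZMod.natCast_eq_zero_iff] at h1
  exact absurd (Nat.le_of_dvd (by norm_num) h1) (by omega)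

/-- the neighbours of a pile -/
theorem hop_pile [NeZero n] (hg : g ∣ n) (hn2 : 2 ≤ n) (hm : 1 ≤ m) (x0 : ZMod n)
    {q : Quotient (msSetoid m hg)}
    (h : HopQ hg (Quotient.mk (msSetoid m hg) (pileMs m x0)) q) :
    q = Quotient.mk (msSetoid m hg) (nearMs hm x0 (x0 + 1)) ∨
      q = Quotient.mk (msSetoid m hg) (nearMs hm x0 (x0 - 1)) := by
  haveI : Fact (1 < n) := ⟨by omega⟩
  obtain ⟨a, a', e1, e2, x, y, hxy, hh⟩ := h
  have hr : RelB hg a.1 (pileMs m x0).1 := Quotient.exact e1
  obtain ⟨t, ht, hta⟩ := hr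
  have ha : ∀ z, a.1 z = if z + t = x0 then m else 0 := fun z => (hta z).symm
  have hne : y ≠ x := by
    rintro rfl
    rcases hxy with h1 | h1
    · exact one_ne_zero (left_eq_add.1 h1)
    · exact one_ne_zero (left_eq_add.1 h1)
  have hx : x + t = x0 := by
    by_contra hcon
    have h1 := hh x
    rw [ha, if_neg hcon, if_neg hne, if_pos rfl] at h1
    omega
  have key : ∀ y0, y + t = y0 →
      Quotient.mk (msSetoid m hg) a' = Quotient.mk (msSetoid m hg) (nearMs hm x0 y0) := by
    intro y0 hy0
    apply Quotient.sound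
    refine ⟨t, ht, fun z => ?_⟩
    change (if z + t = x0 then m - 1 else 0) + (if z + t = y0 then 1 else 0) = a'.1 z
    have h1 := hh z
    rw [ha] at h1
    have e3 : (z + t = y0) ↔ (y = z) := by
      rw [← hy0]
      constructor
      · intro h2
        exact (add_right_cancel h2).symm
      · rintro rfl
        rfl
    have e4 : (x = z) ↔ (z + t = x0) := by
      rw [← hx]
      constructor
      · rintro rfl
        rfl
      · intro h2
        exact (add_right_cancel h2).symm
    by_cases h3 : z + t = x0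
    · have h5 : x = z := e4.2 h3
      have h6 : ¬ (y = z) := by
        rw [← h5]
        exact hne
      rw [if_pos h3, if_neg (fun h => h6 (e3.1 h))]
      rw [if_pos h3, if_neg h6, if_pos h5] at h1
      omega
    · have h5 : ¬ (x = z) := fun h => h3 (e4.1 h)
      rw [if_neg h3]
      rw [if_neg h3, if_neg h5] at h1
      by_cases h6 : y = z
      · rw [if_pos (e3.2 h6)]
        rw [if_pos h6] at h1
        omega
      · rw [if_neg (fun h => h6 (e3.1 h))]
        rw [if_neg h6] at h1
        omega
  rw [← e2]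
  rcases hxy with h1 | h1
  · left
    apply key
    rw [h1, ← hx]
    ring
  · right
    apply key
    rw [← hx, h1]
    ring

theorem pile_ne_near [NeZero n] (hg : g ∣ n) (hm : 3 ≤ m) (x0 y : ZMod n) (hy : y ≠ x0) :
    Quotient.mk (msSetoid m hg) (pileMs m x0) ≠
      Quotient.mk (msSetoid m hg) (nearMs (by omega) x0 y) := by
  intro he
  have hr : RelB hg (pileMs m x0).1 (nearMs (m := m) (by omega) x0 y).1 := Quotient.exact he
  obtain ⟨t, _, h1⟩ := hr
  have h2 := h1 x0
  change (if x0 + t = x0 then m - 1 else 0) + (if x0 + t = y then 1 else 0) =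
    (if x0 = x0 then m else 0) at h2
  rw [if_pos rfl] at h2
  by_cases h3 : x0 + t = x0
  · rw [if_pos h3, if_neg (by rw [h3]; exact fun h => hy h.symm)] at h2
    omega
  · rw [if_neg h3] at h2
    split_ifs at h2 <;> omega

theorem near_ne_near [NeZero n] (hg : g ∣ n) (hn : Odd n) (hn3 : 3 ≤ n) (hm : 3 ≤ m)
    (x0 : ZMod n) :
    Quotient.mk (msSetoid m hg) (nearMs (by omega) x0 (x0 + 1)) ≠
      Quotient.mk (msSetoid m hg) (nearMs (by omega) x0 (x0 - 1)) := by
  intro he
  haveI : Fact (1 < n) := ⟨by omega⟩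
  have hr : RelB hg (nearMs (m := m) (by omega) x0 (x0 + 1)).1
    (nearMs (m := m) (by omega) x0 (x0 - 1)).1 := Quotient.exact he
  obtain ⟨t, _, h1⟩ := hr
  have h1' : ∀ z, (if z + t = x0 then m - 1 else 0) + (if z + t = x0 - 1 then 1 else 0) =
    (if z = x0 then m - 1 else 0) + (if z = x0 + 1 then 1 else 0) := h1
  have hne1 : x0 ≠ x0 + 1 := fun h => one_ne_zero (left_eq_add.1 h)
  have h2 := h1' x0
  rw [if_pos rfl, if_neg hne1] at h2
  have ht : x0 + t = x0 := by
    by_contra h3
    rw [if_neg h3] at h2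
    split_ifs at h2 <;> omega
  have ht0 : t = 0 := add_eq_left.1 ht
  have h3 := h1' (x0 + 1)
  rw [ht0, add_zero, if_neg (fun h => hne1 h.symm),
    if_neg (one_ne_neg_one_of_odd hn hn3 x0), if_pos rfl] at h3
  omega

/-- In every Hamilton cycle the pile stands between its two neighbours. -/
theorem pile_between [NeZero n] (hg : g ∣ n) (hn : Odd n) (hn3 : 3 ≤ n) (hm : 3 ≤ m)
    (x0 : ZMod n) (f : Perm (Quotient (msSetoid m hg))) (hf : ∀ q, HopQ hg q (f q))
    (hone : ∀ p q, f.SameCycle p q) :
    let p := Quotient.mk (msSetoid m hg) (pileMs m x0)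
    let y1 := Quotient.mk (msSetoid m hg) (nearMs (by omega) x0 (x0 + 1))
    let y2 := Quotient.mk (msSetoid m hg) (nearMs (by omega) x0 (x0 - 1))
    (f p = y1 ∧ f y2 = p) ∨ (f p = y2 ∧ f y1 = p) := by
  intro p y1 y2
  haveI : Fact (1 < n) := ⟨by omega⟩
  have hp1 : p ≠ y1 := pile_ne_near hg hm x0 (x0 + 1) (fun h => one_ne_zero (add_eq_left.1 h))
  have hp2 : p ≠ y2 := pile_ne_near hg hm x0 (x0 - 1) (fun h => one_ne_zero (sub_eq_self.1 h))
  have h12 : y1 ≠ y2 := near_ne_near hg hn hn3 hm x0
  have hn2 : 2 ≤ n := by omega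
  have h1 : f p = y1 ∨ f p = y2 := hop_pile hg hn2 (by omega) x0 (hf p)
  obtain ⟨z, hz⟩ := f.surjective p
  have h2 : z = y1 ∨ z = y2 := by
    apply hop_pile hg hn2 (by omega) x0
    have h3 := hf z
    rw [hz] at h3
    exact h3.symm3
  -- no cycle of length two
  have hno : ∀ w, f p = w → f w = p → False := by
    intro w h3 h4
    have hcl : ∀ i : ℕ, (f ^ i) p = p ∨ (f ^ i) p = w := by
      intro i
      induction i with
      | zero => left; rfl
      | succ i ih =>
        rw [pow_succ', Perm.mul_apply]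
        rcases ih with ih | ih
        · right; rw [ih, h3]
        · left; rw [ih, h4]
    have hall : ∀ q, q = p ∨ q = w := by
      intro q
      have : Finite (Quotient (msSetoid m hg)) := Quotient.finite _
      obtain ⟨i, _, hi⟩ := (hone p q).exists_pow_eq'
      have h5 := hcl i
      rw [hi] at h5
      exact h5
    have h6 := hall y1
    have h7 := hall y2
    rcases h6 with h6 | h6
    · exact hp1 h6.symm
    · rcases h7 with h7 | h7
      · exact hp2 h7.symm
      · exact h12 (h6.trans h7.symm)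
  rcases h1 with h1 | h1 <;> rcases h2 with h2 | h2
  · exact absurd (h2 ▸ hz) (fun h => hno y1 h1 h)
  · left
    exact ⟨h1, h2 ▸ hz⟩
  · right
    exact ⟨h1, h2 ▸ hz⟩
  · exact absurd (h2 ▸ hz) (fun h => hno y2 h1 h)

theorem card_three_le [NeZero n] (hg : g ∣ n) (hn : Odd n) (hn3 : 3 ≤ n) (hm : 3 ≤ m) :
    3 ≤ Nat.card (Quotient (msSetoid m hg)) := by
  classical
  haveI : Fact (1 < n) := ⟨by omega⟩
  have : Finite (Quotient (msSetoid m hg)) := Quotient.finite _
  have := Fintype.ofFinite (Quotient (msSetoid m hg))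
  rw [Nat.card_eq_fintype_card]
  have hp1 := pile_ne_near (m := m) hg hm 0 (0 + 1) (fun h => one_ne_zero (add_eq_left.1 h))
  have hp2 := pile_ne_near (m := m) hg hm 0 (0 - 1) (fun h => one_ne_zero (sub_eq_self.1 h))
  have h12 := near_ne_near (m := m) hg hn hn3 hm 0
  have h3 : ({Quotient.mk (msSetoid m hg) (pileMs m 0),
      Quotient.mk (msSetoid m hg) (nearMs (by omega) 0 (0 + 1)),
      Quotient.mk (msSetoid m hg) (nearMs (by omega) 0 (0 - 1))} :
        Finset (Quotient (msSetoid m hg))).card = 3 := by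
    rw [card_insert_of_notMem (by
      simp only [mem_insert, mem_singleton, not_or]
      exact ⟨hp1, hp2⟩), card_insert_of_notMem (by
      simp only [mem_singleton]
      exact h12), card_singleton]
  rw [← h3]
  exact card_le_univ _

/-- Even number of classes: leave out the pile and one of its two neighbours. -/
theorem near_py [NeZero n] (hn : Odd n) (hn3 : 3 ≤ n) (hg : g ∣ n) (hm : 3 ≤ m) (x0 y : ZMod n)
    (hy : y = x0 + 1 ∨ y = x0 - 1) (hev : Even (Nat.card (Quotient (msSetoid m hg)))) :
    ∃ ι : Quotient (msSetoid m hg) → Quotient (msSetoid m hg), (∀ q, ι (ι q) = q) ∧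
      (∀ q, ι q = q ∨ HopQ hg q (ι q)) ∧
      ∀ q, ι q = q ↔ q = Quotient.mk (msSetoid m hg) (pileMs m x0) ∨
        q = Quotient.mk (msSetoid m hg) (nearMs (by omega) x0 y) := by
  have hfin : Finite (Quotient (msSetoid m hg)) := Quotient.finite _
  obtain ⟨f, hf, hone⟩ := hasCycle (m := m) hn hg (by omega) (by omega)
  have hbet := pile_between hg hn hn3 hm x0 f hf hone
  have hcard := card_three_le (m := m) hg hn hn3 hm
  have hpar : Even (Nat.card (Quotient (msSetoid m hg)) - 2) := by
    obtain ⟨c, hc⟩ := hev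
    exact ⟨c - 1, by omega⟩
  have hhop : ∀ (ι : Quotient (msSetoid m hg) → Quotient (msSetoid m hg)) q,
      (ι q = q ∨ ι q = f q ∨ f (ι q) = q) → (ι q = q ∨ HopQ hg q (ι q)) := by
    intro ι q h
    rcases h with h | h | h
    · exact Or.inl h
    · right; rw [h]; exact hf q
    · right
      have h1 := hf (ι q)
      rw [h] at h1
      exact h1.symm3
  simp only at hbet
  -- the arc starts at `p` or ends at `p`
  have key : f (Quotient.mk (msSetoid m hg) (pileMs m x0)) =
        Quotient.mk (msSetoid m hg) (nearMs (by omega) x0 y) ∨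
      f (Quotient.mk (msSetoid m hg) (nearMs (by omega) x0 y)) =
        Quotient.mk (msSetoid m hg) (pileMs m x0) := by
    rcases hy with rfl | rfl
    · rcases hbet with ⟨h1, _⟩ | ⟨_, h2⟩
      · exact Or.inl h1
      · exact Or.inr h2
    · rcases hbet with ⟨_, h2⟩ | ⟨h1, _⟩
      · exact Or.inr h2
      · exact Or.inl h1
  rcases key with hk | hk
  · obtain ⟨ι, k1, k2, k3⟩ := arc_matching f hone
      (Quotient.mk (msSetoid m hg) (pileMs m x0)) 2 (by omega) hpar
    refine ⟨ι, k1, fun q => hhop ι q (k2 q), fun q => ?_⟩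
    rw [k3]
    constructor
    · rintro ⟨i, hi, rfl⟩
      have hi' : i = 0 ∨ i = 1 := by omega
      rcases hi' with rfl | rfl
      · left; rfl
      · right; rw [pow_one, hk]
    · rintro (rfl | rfl)
      · exact ⟨0, by norm_num, rfl⟩
      · exact ⟨1, by norm_num, by rw [pow_one, hk]⟩
  · obtain ⟨ι, k1, k2, k3⟩ := arc_matching f hone
      (Quotient.mk (msSetoid m hg) (nearMs (by omega) x0 y)) 2 (by omega) hpar
    refine ⟨ι, k1, fun q => hhop ι q (k2 q), fun q => ?_⟩
    rw [k3]
    constructor
    · rintro ⟨i, hi, rfl⟩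
      have hi' : i = 0 ∨ i = 1 := by omega
      rcases hi' with rfl | rfl
      · right; rfl
      · left; rw [pow_one, hk]
    · rintro (rfl | rfl)
      · exact ⟨1, by norm_num, by rw [pow_one, hk]⟩
      · exact ⟨0, by norm_num, rfl⟩

/-- Odd number of classes: leave out the pile and both its neighbours. -/
theorem near_ypy [NeZero n] (hn : Odd n) (hn3 : 3 ≤ n) (hg : g ∣ n) (hm : 3 ≤ m) (x0 : ZMod n)
    (hodd : Odd (Nat.card (Quotient (msSetoid m hg)))) :
    ∃ ι : Quotient (msSetoid m hg) → Quotient (msSetoid m hg), (∀ q, ι (ι q) = q) ∧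
      (∀ q, ι q = q ∨ HopQ hg q (ι q)) ∧
      ∀ q, ι q = q ↔ q = Quotient.mk (msSetoid m hg) (pileMs m x0) ∨
        q = Quotient.mk (msSetoid m hg) (nearMs (by omega) x0 (x0 + 1)) ∨
        q = Quotient.mk (msSetoid m hg) (nearMs (by omega) x0 (x0 - 1)) := by
  have hfin : Finite (Quotient (msSetoid m hg)) := Quotient.finite _
  obtain ⟨f, hf, hone⟩ := hasCycle (m := m) hn hg (by omega) (by omega)
  have hbet := pile_between hg hn hn3 hm x0 f hf hone
  have hcard := card_three_le (m := m) hg hn hn3 hm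
  have hpar : Even (Nat.card (Quotient (msSetoid m hg)) - 3) := by
    obtain ⟨c, hc⟩ := hodd
    exact ⟨c - 1, by omega⟩
  simp only at hbet
  obtain ⟨u, w, hu, hw, hset⟩ : ∃ u w, f u = Quotient.mk (msSetoid m hg) (pileMs m x0) ∧
      f (Quotient.mk (msSetoid m hg) (pileMs m x0)) = w ∧
      ∀ q, (q = u ∨ q = w) ↔ (q = Quotient.mk (msSetoid m hg) (nearMs (by omega) x0 (x0 + 1)) ∨
        q = Quotient.mk (msSetoid m hg) (nearMs (by omega) x0 (x0 - 1))) := by
    rcases hbet with ⟨h1, h2⟩ | ⟨h1, h2⟩
    · exact ⟨_, _, h2, h1, fun q => or_comm⟩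
    · exact ⟨_, _, h2, h1, fun q => Iff.rfl⟩
  obtain ⟨ι, k1, k2, k3⟩ := arc_matching f hone u 3 (by omega) hpar
  refine ⟨ι, k1, fun q => ?_, fun q => ?_⟩
  · rcases k2 q with h | h | h
    · exact Or.inl h
    · right; rw [h]; exact hf q
    · right
      have h1 := hf (ι q)
      rw [h] at h1
      exact h1.symm3
  · rw [k3, ← hset]
    have e2 : (f ^ 2) u = w := by
      rw [pow_two, Perm.mul_apply, hu, hw]
    constructor
    · rintro ⟨i, hi, rfl⟩
      have hi' : i = 0 ∨ i = 1 ∨ i = 2 := by omega
      rcases hi' with rfl | rfl | rfl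
      · right; left; rfl
      · left; rw [pow_one, hu]
      · right; right; exact e2
    · rintro (rfl | rfl | rfl)
      · exact ⟨1, by norm_num, by rw [pow_one, hu]⟩
      · exact ⟨0, by norm_num, rfl⟩
      · exact ⟨2, by norm_num, e2⟩

/-- Odd number of classes: leave out one neighbour of the pile. -/
theorem near_y [NeZero n] (hn : Odd n) (hg : g ∣ n) (hm : 3 ≤ m) (x0 y : ZMod n)
    (hodd : Odd (Nat.card (Quotient (msSetoid m hg)))) :
    ∃ ι : Quotient (msSetoid m hg) → Quotient (msSetoid m hg), (∀ q, ι (ι q) = q) ∧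
      (∀ q, ι q = q ∨ HopQ hg q (ι q)) ∧
      ∀ q, ι q = q ↔ q = Quotient.mk (msSetoid m hg) (nearMs (by omega) x0 y) := by
  obtain ⟨ι, k1, k2, k3⟩ := near_prescribed (m := m) hn hg (by omega) (by omega)
    (Quotient.mk (msSetoid m hg) (nearMs (by omega) x0 y))
  refine ⟨ι, k1, k2, fun q => ?_⟩
  rw [k3]
  exact ⟨fun h => h.1, fun h => ⟨h, hodd⟩⟩

end Pool.OddHop
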