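import Pool.Agent.Work.MP_8f87b2_h3.Ends

/-!
# Removing an arbitrary class together with a pile or a neighbour of a pile

`flip_matching`: a cyclic permutation and an involution of the positions `0, .., N-1` which moves every
position by at most one. `near_t`: even number of classes, an arbitrary class `t` and a pile or one of
its two neighbours are left out. `near_tp`: odd number of classes, an arbitrary class `t`, a pile and one
of its two neighbours are left out. `near_far`: the same for two classes at odd distance on the cycle.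
-/

set_option autoImplicit false

namespace Pool.OddHop

open Finset Equiv

/-- A cyclic permutation and an involution of the positions. -/
theorem flip_matching {X : Type*} [Finite X] (f : Perm X) (h : ∀ x y, f.SameCycle x y)
    (x0 : X) (fl : ℕ → ℕ) (hlt : ∀ a < Nat.card X, fl a < Nat.card X)
    (hinv : ∀ a < Nat.card X, fl (fl a) = a)
    (hadj : ∀ a < Nat.card X, fl a = a ∨ fl a = a + 1 ∨ a = fl a + 1) :
    ∃ ι : X → X, (∀ x, ι (ι x) = x) ∧ (∀ x, ι x = x ∨ ι x = f x ∨ f (ι x) = x) ∧
      ∀ x, ι x = x ↔ ∃ a < Nat.card X, fl a = a ∧ (f ^ a) x0 = x := by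
  classical
  have := Fintype.ofFinite X
  set N := (Finset.univ : Finset X).card with hN
  have hNc : Nat.card X = N := by rw [Nat.card_eq_fintype_card, hN, Finset.card_univ]
  rw [hNc] at hlt hinv hadj ⊢
  have hc : f.IsCycleOn ((Finset.univ : Finset X) : Set X) := by
    refine ⟨?_, fun x _ y _ => h x y⟩
    rw [Finset.coe_univ]
    exact Set.bijOn_univ.2 f.bijective
  have hex : ∀ x : X, ∃ j, j < N ∧ (f ^ j) x0 = x := by
    intro x
    obtain ⟨j, hj, he⟩ := hc.exists_pow_eq (Finset.mem_univ x0) (Finset.mem_univ x)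
    exact ⟨j, hj, he⟩
  choose j hj1 hj2 using hex
  have huniq : ∀ a < N, ∀ b < N, (f ^ a) x0 = (f ^ b) x0 → a = b := by
    intro a ha b hb hab
    have h1 := (hc.pow_apply_eq_pow_apply (Finset.mem_univ x0)).1 hab
    exact Nat.ModEq.eq_of_lt_of_lt h1 ha hb
  have hjf : ∀ a < N, j ((f ^ a) x0) = a := by
    intro a ha
    exact huniq _ (hj1 _) _ ha (hj2 _)
  refine ⟨fun x => (f ^ fl (j x)) x0, ?_, ?_, ?_⟩
  · intro x
    have h1 : j ((f ^ fl (j x)) x0) = fl (j x) := hjf _ (hlt _ (hj1 x))
    simp only [h1, hinv _ (hj1 x), hj2]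
  · intro x
    rcases hadj (j x) (hj1 x) with h1 | h1 | h1
    · left
      simp only [h1, hj2]
    · right; left
      simp only [h1]
      rw [pow_succ', Perm.mul_apply, hj2]
    · right; right
      have h2 := hj2 x
      rw [h1, pow_succ', Perm.mul_apply] at h2
      exact h2
  · intro x
    constructor
    · intro he
      have h1 : fl (j x) = j x :=
        huniq _ (hlt _ (hj1 x)) _ (hj1 x) (he.trans (hj2 x).symm)
      exact ⟨j x, hj1 x, h1, hj2 x⟩
    · rintro ⟨a, ha, h1, rfl⟩
      simp only [hjf a ha, h1]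

/-- A cyclic permutation with an even number of elements: two elements at odd distance are left out. -/
theorem two_matching {X : Type*} [Finite X] (f : Perm X) (h : ∀ x y, f.SameCycle x y)
    (x0 : X) (hev : Even (Nat.card X)) (d : ℕ) (hd : d < Nat.card X) (hod : d % 2 = 1) :
    ∃ ι : X → X, (∀ x, ι (ι x) = x) ∧ (∀ x, ι x = x ∨ ι x = f x ∨ f (ι x) = x) ∧
      ∀ x, ι x = x ↔ x = x0 ∨ x = (f ^ d) x0 := by
  obtain ⟨c, hc⟩ := hev
  obtain ⟨ι, h1, h2, h3⟩ := flip_matching f h x0
    (fun a => if a = 0 ∨ a = d then a else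
      if a < d then (if a % 2 = 1 then a + 1 else a - 1)
      else (if a % 2 = 0 then a + 1 else a - 1))
    (by intro a ha; split_ifs <;> omega)
    (by
      intro a ha
      by_cases e0 : a = 0 ∨ a = d
      · simp only [e0, if_true]
      · by_cases e1 : a < d
        · by_cases e2 : a % 2 = 1
          · simp only [e0, e1, e2, if_true, if_false]
            rw [if_neg (by omega), if_pos (by omega), if_neg (by omega)]
            omega
          · simp only [e0, e1, e2, if_true, if_false]
            rw [if_neg (by omega), if_pos (by omega), if_pos (by omega)]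
            omega
        · by_cases e2 : a % 2 = 0
          · simp only [e0, e1, e2, if_true, if_false]
            rw [if_neg (by omega), if_neg (by omega), if_neg (by omega)]
            omega
          · simp only [e0, e1, e2, if_false]
            rw [if_neg (by omega), if_neg (by omega), if_pos (by omega)]
            omega)
    (by intro a ha; split_ifs <;> omega)
  refine ⟨ι, h1, h2, fun x => ?_⟩
  rw [h3]
  constructor
  · rintro ⟨a, ha, he, rfl⟩
    by_cases e0 : a = 0 ∨ a = d
    · rcases e0 with rfl | rfl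
      · left; rfl
      · right; rfl
    · exfalso
      simp only [e0, if_false] at he
      split_ifs at he <;> omega
  · rintro (rfl | rfl)
    · exact ⟨0, by omega, by simp, rfl⟩
    · exact ⟨d, hd, by simp, rfl⟩

/-- A cyclic permutation with an odd number of elements: an element and a pair of consecutive
elements are left out; the pair stands at an odd distance. -/
theorem three_matching {X : Type*} [Finite X] (f : Perm X) (h : ∀ x y, f.SameCycle x y)
    (x0 : X) (hod : Odd (Nat.card X)) (d : ℕ) (hd : d + 1 < Nat.card X) (hod' : d % 2 = 1) :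
    ∃ ι : X → X, (∀ x, ι (ι x) = x) ∧ (∀ x, ι x = x ∨ ι x = f x ∨ f (ι x) = x) ∧
      ∀ x, ι x = x ↔ x = x0 ∨ x = (f ^ d) x0 ∨ x = (f ^ (d + 1)) x0 := by
  obtain ⟨c, hc⟩ := hod
  obtain ⟨ι, h1, h2, h3⟩ := flip_matching f h x0
    (fun a => if a = 0 ∨ a = d ∨ a = d + 1 then a else
      if a % 2 = 1 then a + 1 else a - 1)
    (by intro a ha; split_ifs <;> omega)
    (by
      intro a ha
      by_cases e0 : a = 0 ∨ a = d ∨ a = d + 1
      · simp only [e0, if_true]
      · by_cases e2 : a % 2 = 1
        · simp only [e0, e2, if_true, if_false]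
          rw [if_neg (by omega), if_neg (by omega)]
          omega
        · simp only [e0, e2, if_false]
          rw [if_neg (by omega), if_pos (by omega)]
          omega)
    (by intro a ha; split_ifs <;> omega)
  refine ⟨ι, h1, h2, fun x => ?_⟩
  rw [h3]
  constructor
  · rintro ⟨a, ha, he, rfl⟩
    by_cases e0 : a = 0 ∨ a = d ∨ a = d + 1
    · rcases e0 with rfl | rfl | rfl
      · left; rfl
      · right; left; rfl
      · right; right; rfl
    · exfalso
      simp only [e0, if_false] at he
      split_ifs at he <;> omega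
  · rintro (rfl | rfl | rfl)
    · exact ⟨0, by omega, by simp, rfl⟩
    · exact ⟨d, by omega, by simp, rfl⟩
    · exact ⟨d + 1, by omega, by simp, rfl⟩

variable {g n m : ℕ}

theorem hop_of_adj {hg : g ∣ n} [NeZero n] {f : Perm (Quotient (msSetoid m hg))}
    (hf : ∀ q, HopQ hg q (f q)) {q r : Quotient (msSetoid m hg)}
    (h : r = q ∨ r = f q ∨ f r = q) : r = q ∨ HopQ hg q r := by
  rcases h with h | h | h
  · exact Or.inl h
  · right; rw [h]; exact hf q
  · right
    have h1 := hf r
    rw [h] at h1
    exact h1.symm3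

/-- Even number of classes: leave out an arbitrary class `t` and a pile or one of its neighbours. -/
theorem near_t [NeZero n] (hn : Odd n) (hn3 : 3 ≤ n) (hg : g ∣ n) (hm : 3 ≤ m) (x0 : ZMod n)
    (t : Quotient (msSetoid m hg)) (htp : t ≠ Quotient.mk (msSetoid m hg) (pileMs m x0))
    (hev : Even (Nat.card (Quotient (msSetoid m hg)))) :
    ∃ z : Quotient (msSetoid m hg), (z = Quotient.mk (msSetoid m hg) (pileMs m x0) ∨
        z = Quotient.mk (msSetoid m hg) (nearMs (by omega) x0 (x0 + 1)) ∨
        z = Quotient.mk (msSetoid m hg) (nearMs (by omega) x0 (x0 - 1))) ∧ z ≠ t ∧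
      ∃ ι : Quotient (msSetoid m hg) → Quotient (msSetoid m hg), (∀ q, ι (ι q) = q) ∧
        (∀ q, ι q = q ∨ HopQ hg q (ι q)) ∧ ∀ q, ι q = q ↔ q = t ∨ q = z := by
  have hfin : Finite (Quotient (msSetoid m hg)) := Quotient.finite _
  obtain ⟨f, hf, hone⟩ := hasCycle (m := m) hn hg (by omega) (by omega)
  obtain ⟨d, hd0, hd1, hd2⟩ : ∃ d, 0 < d ∧ d < Nat.card (Quotient (msSetoid m hg)) ∧
      (f ^ d) t = Quotient.mk (msSetoid m hg) (pileMs m x0) := by
    classical
    have := Fintype.ofFinite (Quotient (msSetoid m hg))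
    have hc : f.IsCycleOn ((Finset.univ : Finset (Quotient (msSetoid m hg))) : Set _) := by
      refine ⟨?_, fun x _ y _ => hone x y⟩
      rw [Finset.coe_univ]
      exact Set.bijOn_univ.2 f.bijective
    obtain ⟨j, hj, he⟩ := hc.exists_pow_eq (Finset.mem_univ t)
      (Finset.mem_univ (Quotient.mk (msSetoid m hg) (pileMs m x0)))
    refine ⟨j, ?_, by rwa [Nat.card_eq_fintype_card, ← Finset.card_univ], he⟩
    by_contra h0
    have h1 : j = 0 := by omega
    subst h1
    exact htp he
  rcases Nat.even_or_odd d with hp | hp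
  · -- even distance: take `f⁻¹ p`, at distance `d - 1`
    have h2 : d % 2 = 0 := Nat.even_iff.1 hp
    have h3 : f ((f ^ (d - 1)) t) = Quotient.mk (msSetoid m hg) (pileMs m x0) := by
      rw [← hd2, ← Perm.mul_apply, ← pow_succ']
      congr 2
      omega
    have h4 := hf ((f ^ (d - 1)) t)
    rw [h3] at h4
    obtain ⟨ι, k1, k2, k3⟩ := two_matching f hone t hev (d - 1) (by omega) (by omega)
    refine ⟨(f ^ (d - 1)) t, Or.inr (hop_pile hg (by omega) (by omega) x0 h4.symm3), ?_, ι, k1,
      fun q => hop_of_adj hf (k2 q), k3⟩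
    intro he
    -- `t` and `f⁻¹ p` are different since the distance is smaller than the length
    have h5 := (k3 t).2 (Or.inl rfl)
    classical
    have := Fintype.ofFinite (Quotient (msSetoid m hg))
    have hc : f.IsCycleOn ((Finset.univ : Finset (Quotient (msSetoid m hg))) : Set _) := by
      refine ⟨?_, fun x _ y _ => hone x y⟩
      rw [Finset.coe_univ]
      exact Set.bijOn_univ.2 f.bijective
    have h6 : (f ^ (d - 1)) t = (f ^ 0) t := by rw [he]; rfl
    have h7 := (hc.pow_apply_eq_pow_apply (Finset.mem_univ t)).1 h6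
    rw [Nat.card_eq_fintype_card, ← Finset.card_univ] at hd1
    have h8 := Nat.ModEq.eq_of_lt_of_lt h7 (by omega) (by omega)
    omega
  · have h2 : d % 2 = 1 := Nat.odd_iff.1 hp
    obtain ⟨ι, k1, k2, k3⟩ := two_matching f hone t hev d hd1 h2
    refine ⟨(f ^ d) t, Or.inl hd2, by rw [hd2]; exact htp.symm, ι, k1,
      fun q => hop_of_adj hf (k2 q), k3⟩

/-- Odd number of classes: leave out an arbitrary class `t`, a pile and one of its neighbours. -/
theorem near_tp [NeZero n] (hn : Odd n) (hn3 : 3 ≤ n) (hg : g ∣ n) (hm : 3 ≤ m) (x0 : ZMod n)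
    (t : Quotient (msSetoid m hg)) (htp : t ≠ Quotient.mk (msSetoid m hg) (pileMs m x0))
    (hod : Odd (Nat.card (Quotient (msSetoid m hg)))) :
    ∃ z : Quotient (msSetoid m hg),
      (z = Quotient.mk (msSetoid m hg) (nearMs (by omega) x0 (x0 + 1)) ∨
        z = Quotient.mk (msSetoid m hg) (nearMs (by omega) x0 (x0 - 1))) ∧ z ≠ t ∧
      ∃ ι : Quotient (msSetoid m hg) → Quotient (msSetoid m hg), (∀ q, ι (ι q) = q) ∧
        (∀ q, ι q = q ∨ HopQ hg q (ι q)) ∧
        ∀ q, ι q = q ↔ q = t ∨ q = Quotient.mk (msSetoid m hg) (pileMs m x0) ∨ q = z := by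
  have hfin : Finite (Quotient (msSetoid m hg)) := Quotient.finite _
  obtain ⟨f, hf, hone⟩ := hasCycle (m := m) hn hg (by omega) (by omega)
  classical
  have := Fintype.ofFinite (Quotient (msSetoid m hg))
  have hc : f.IsCycleOn ((Finset.univ : Finset (Quotient (msSetoid m hg))) : Set _) := by
    refine ⟨?_, fun x _ y _ => hone x y⟩
    rw [Finset.coe_univ]
    exact Set.bijOn_univ.2 f.bijective
  have hNc : Nat.card (Quotient (msSetoid m hg)) =
      (Finset.univ : Finset (Quotient (msSetoid m hg))).card := by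
    rw [Nat.card_eq_fintype_card, ← Finset.card_univ]
  have hne : ∀ a, 0 < a → a < Nat.card (Quotient (msSetoid m hg)) → (f ^ a) t ≠ t := by
    intro a ha0 ha1 he
    have h6 : (f ^ a) t = (f ^ 0) t := by rw [he]; rfl
    have h7 := (hc.pow_apply_eq_pow_apply (Finset.mem_univ t)).1 h6
    rw [hNc] at ha1
    have h8 := Nat.ModEq.eq_of_lt_of_lt h7 ha1 (by omega)
    omega
  obtain ⟨d, hd0, hd1, hd2⟩ : ∃ d, 0 < d ∧ d < Nat.card (Quotient (msSetoid m hg)) ∧
      (f ^ d) t = Quotient.mk (msSetoid m hg) (pileMs m x0) := by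
    obtain ⟨j, hj, he⟩ := hc.exists_pow_eq (Finset.mem_univ t)
      (Finset.mem_univ (Quotient.mk (msSetoid m hg) (pileMs m x0)))
    refine ⟨j, ?_, by rw [hNc]; exact hj, he⟩
    by_contra h0
    have h1 : j = 0 := by omega
    subst h1
    exact htp he
  obtain ⟨c, hcc⟩ := hod
  rcases Nat.even_or_odd d with hp | hp
  · -- even distance: take `f⁻¹ p` and `p`, at distances `d - 1` and `d`
    have h2 : d % 2 = 0 := Nat.even_iff.1 hp
    have h3 : f ((f ^ (d - 1)) t) = Quotient.mk (msSetoid m hg) (pileMs m x0) := by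
      rw [← hd2, ← Perm.mul_apply, ← pow_succ']
      congr 2
      omega
    have h4 := hf ((f ^ (d - 1)) t)
    rw [h3] at h4
    obtain ⟨ι, k1, k2, k3⟩ := three_matching f hone t ⟨c, hcc⟩ (d - 1) (by omega) (by omega)
    refine ⟨(f ^ (d - 1)) t, hop_pile hg (by omega) (by omega) x0 h4.symm3,
      hne _ (by omega) (by omega), ι, k1, fun q => hop_of_adj hf (k2 q), fun q => ?_⟩
    rw [k3, show d - 1 + 1 = d by omega, hd2]
    tauto
  · have h2 : d % 2 = 1 := Nat.odd_iff.1 hp
    have hdlt : d + 1 < Nat.card (Quotient (msSetoid m hg)) := by omega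
    have h4 := hf ((f ^ d) t)
    rw [hd2] at h4
    have h5 : (f ^ (d + 1)) t = f (Quotient.mk (msSetoid m hg) (pileMs m x0)) := by
      rw [pow_succ', Perm.mul_apply, hd2]
    obtain ⟨ι, k1, k2, k3⟩ := three_matching f hone t ⟨c, hcc⟩ d hdlt h2
    refine ⟨(f ^ (d + 1)) t, ?_, hne _ (by omega) hdlt, ι, k1,
      fun q => hop_of_adj hf (k2 q), fun q => ?_⟩
    · rw [h5]
      exact hop_pile hg (by omega) (by omega) x0 h4
    · rw [k3, hd2]

end Pool.OddHop
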