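import Pool.Agent.Work.MP_8f87b2_h3.L1Rq

/-!
# MP_8f87b2_co: words of L1 against the words of bare windows (right), every `q`

The words of L1 have exactly one part `≥ 3`, but 13, 16, 18, 19 for `B ≠ ε`; these four (and their mirror images) are
excluded by the beads on the ground.
-/

set_option autoImplicit false

namespace Pool.OddHC

open Finset Equiv BinaryTree Pool.Agent.Work.MP_8f87b2_co

variable {k : ℕ} {F F' : Set (Cyc k)} {g g' : DG k}

namespace L1

open H1 J

variable {n q : ℕ} {R Q B S t : BinaryTree Unit}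

/-! ### Beads on the ground -/

/-- number of beads on the ground -/
def nl : BinaryTree Unit → ℕ
  | .nil => 0
  | .node _ A X => (if isNil A = true then 1 else 0) + nl X

theorem nl_node (A X : BinaryTree Unit) : nl (A △ X) = (if isNil A = true then 1 else 0) + nl X := rfl

theorem nl_app (P X : BinaryTree Unit) : nl (app P X) = nl P + nl X := by
  induction P with
  | nil =>
    change nl X = 0 + nl X
    omega
  | node _ A C _ ih =>
    change (if isNil A = true then 1 else 0) + nl (app C X) = ((if isNil A = true then 1 else 0) + nl C) + nl X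
    rw [ih]
    omega

theorem isNil_ne {A : BinaryTree Unit} (h : A ≠ .nil) : isNil A = false := by
  cases A with
  | nil => exact absurd rfl h
  | node _ _ _ => rfl

theorem nl_ne {A : BinaryTree Unit} (h : A ≠ .nil) (X : BinaryTree Unit) : nl (A △ X) = nl X := by
  rw [nl_node, isNil_ne h]
  simp

theorem nl_leaf (X : BinaryTree Unit) : nl (.nil △ X) = 1 + nl X := rfl

theorem nl_hv {t : BinaryTree Unit} (h : hv t) : nl t = 0 := by
  induction t with
  | nil => rfl
  | node _ A X _ ih =>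
    have h1 := nl_ne (gd_ne h.1) X
    change nl (A △ X) = 0
    rw [h1, ih h.2]

/-- the last inside of L13: `B ()` with `B` not ending with a bead -/
def PL (X : BinaryTree Unit) : Prop := ∃ Y, X = app Y (.nil △ .nil) ∧ Y ≠ .nil ∧ lastB Y = false

/-- the first inside of M13 -/
def PF (X : BinaryTree Unit) : Prop := ∃ Y, X = .nil △ Y ∧ Y ≠ .nil ∧ fb Y = false

theorem PL.last {X : BinaryTree Unit} (h : PL X) : lastB X = true := by
  obtain ⟨Y, rfl, _, _⟩ := h
  rw [lastB_app (by simp)]
  rfl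

theorem PL.len {X : BinaryTree Unit} (h : PL X) : 2 ≤ len X := by
  obtain ⟨Y, rfl, h0, _⟩ := h
  rw [len_app]
  have := len_pos h0
  have e : H1.len (.nil △ .nil : BinaryTree Unit) = 1 := rfl
  omega

theorem PF.fb {X : BinaryTree Unit} (h : PF X) : fb X = true := by
  obtain ⟨Y, rfl, _, _⟩ := h
  rfl

theorem PF.len {X : BinaryTree Unit} (h : PF X) : 2 ≤ len X := by
  obtain ⟨Y, rfl, h0, _⟩ := h
  have := len_pos h0
  change 2 ≤ H1.len Y + 1
  omega

theorem PL.not_gd {X : BinaryTree Unit} (h : PL X) : ¬ gd X := by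
  rintro (h1 | ⟨_, h1⟩)
  · have := h.len
    rw [h1] at this
    exact absurd this (by decide)
  · have h2 := h.last
    rw [hv_last h1] at h2
    simp at h2

theorem PF.not_gd {X : BinaryTree Unit} (h : PF X) : ¬ gd X := by
  rintro (h1 | ⟨_, h1⟩)
  · have := h.len
    rw [h1] at this
    exact absurd this (by decide)
  · have h2 := h.fb
    rw [hv_fb h1] at h2
    simp at h2

theorem len_ch (m : ℕ) : len (ch m) ≤ 1 := by
  cases m with
  | zero => decide
  | succ m => exact le_rfl

theorem PL.not_ch {X : BinaryTree Unit} (h : PL X) (m : ℕ) : X ≠ ch m := by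
  rintro rfl
  have h1 := h.len
  have h2 := len_ch m
  omega

theorem PF.not_ch {X : BinaryTree Unit} (h : PF X) (m : ℕ) : X ≠ ch m := by
  rintro rfl
  have h1 := h.len
  have h2 := len_ch m
  omega

theorem gd_lastI {s : BinaryTree Unit} (h : hv s) (h0 : s ≠ .nil) : gd (lastI s) := by
  induction s with
  | nil => exact absurd rfl h0
  | node _ A C _ ih =>
    cases C with
    | nil => exact h.1
    | node u A' C' => exact ih h.2 (by simp)

/-! ### The five criteria -/

/-- none of the shapes of the eight words -/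
structure NoL (w : BinaryTree Unit) : Prop where
  a : nl w = 1 → lastB w = true → len w ≤ 2
  b : nl w = 1 → fb w = true → len w ≤ 2
  c : len w = 1 → 1 ≤ nl (t3hd w)
  d : nl w = 0 → 2 ≤ len w → ¬ PL (lastI w)
  e : nl w = 0 → 2 ≤ len w → ¬ PF (t3hd w)

theorem NoL.of_nl {w : BinaryTree Unit} (h : 2 ≤ nl w) (hl : 2 ≤ len w) : NoL w where
  a := fun h1 => by omega
  b := fun h1 => by omega
  c := fun h1 => by omega
  d := fun h1 => by omega
  e := fun h1 => by omega

/-- exactly one bead, in the middle -/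
theorem NoL.of_mid {w : BinaryTree Unit} (h : nl w = 1) (hl : 2 ≤ len w) (h1 : lastB w = false) (h2 : fb w = false) :
    NoL w where
  a := fun _ h3 => by rw [h1] at h3; simp at h3
  b := fun _ h3 => by rw [h2] at h3; simp at h3
  c := fun h3 => by omega
  d := fun h3 => by omega
  e := fun h3 => by omega

/-- one bead, two components -/
theorem NoL.of_two {w : BinaryTree Unit} (h : nl w = 1) (hl : len w = 2) : NoL w where
  a := fun _ _ => by omega
  b := fun _ _ => by omega
  c := fun h3 => by omega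
  d := fun h3 => by omega
  e := fun h3 => by omega

/-- no bead, at least two components -/
theorem NoL.of_zero {w : BinaryTree Unit} (h : nl w = 0) (hl : 2 ≤ len w) (h1 : ¬ PL (lastI w)) (h2 : ¬ PF (t3hd w)) :
    NoL w where
  a := fun h3 => by omega
  b := fun h3 => by omega
  c := fun h3 => by omega
  d := fun _ _ => h1
  e := fun _ _ => h2

/-- one component -/
theorem NoL.of_one {w : BinaryTree Unit} (h : nl w = 0) (hl : len w = 1) (h1 : 1 ≤ nl (t3hd w)) : NoL w where
  a := fun h3 => by omega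
  b := fun h3 => by omega
  c := fun _ => h1
  d := fun _ h3 => by omega
  e := fun _ h3 => by omega

theorem nl_ch (m : ℕ) : nl (ch (m + 1)) = if m = 0 then 1 else 0 := by
  cases m with
  | zero => rfl
  | succ m =>
    change nl (ch (m + 1) △ .nil) = _
    rw [nl_ne (by simp [ch])]
    rfl

theorem t3hd_app {P : BinaryTree Unit} (h : P ≠ .nil) (X : BinaryTree Unit) : t3hd (app P X) = t3hd P := by
  cases P with
  | nil => exact absurd rfl h
  | node _ _ _ => rfl

theorem gd_hd {P : BinaryTree Unit} (h : hv P) (h0 : P ≠ .nil) : gd (t3hd P) := by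
  cases P with
  | nil => exact absurd rfl h0
  | node _ _ _ => exact h.1

theorem fb_app {P : BinaryTree Unit} (h : P ≠ .nil) (X : BinaryTree Unit) : fb (app P X) = fb P := by
  cases P with
  | nil => exact absurd rfl h
  | node _ _ _ => rfl

theorem not_PL_last {X : BinaryTree Unit} (h : lastB X = false) : ¬ PL X := fun h1 => by
  have := h1.last
  rw [h] at this
  simp at this

theorem not_PF_fb {X : BinaryTree Unit} (h : fb X = false) : ¬ PF X := fun h1 => by
  have := h1.fb
  rw [h] at this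
  simp at this

theorem app_cancel_right {A B C : BinaryTree Unit} (h : app A C = app B C) : A = B := by
  apply wd_ext1
  have h1 := congrArg wd h
  rw [wd_app, wd_app] at h1
  exact List.append_cancel_right h1

theorem not_PL_two (Y : BinaryTree Unit) : ¬ PL (app Y (.nil △ (.nil △ .nil))) := by
  rintro ⟨Z, h1, h2, h3⟩
  have h4 : app (app Y (.nil △ .nil)) (.nil △ .nil) = app Z (.nil △ .nil) := by
    rw [← h1, app_assoc]
    rfl
  have h5 := app_cancel_right h4
  rw [← h5, lastB_app (by simp)] at h3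
  exact absurd h3 (by decide)

theorem not_PF_two (Y : BinaryTree Unit) : ¬ PF (.nil △ (.nil △ Y)) := by
  rintro ⟨Z, h1, h2, h3⟩
  have h4 : (.nil △ Y : BinaryTree Unit) = Z := (node_inj' h1).2
  rw [← h4] at h3
  exact absurd h3 (by simp [fb, isNil])

theorem Qne (q : ℕ) : ch (q + 1) ≠ .nil := by simp [ch]

theorem fbQ (q : ℕ) : fb (ch (q + 2)) = false := rfl

theorem lastBQ (q : ℕ) : lastB (ch (q + 2)) = false := rfl

theorem nlQ (q : ℕ) : nl (ch (q + 2)) = 0 := nl_ch (q + 1)

theorem lenQ (q : ℕ) : len (ch (q + 1)) = 1 := rfl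

/-- **the words of bare windows have none of the shapes** -/
theorem noL_W (hR : hv R) (hB : hv B) (hS : hv S) (hR0 : R ≠ .nil) (hS0 : S ≠ .nil) {i : ℕ} (hi : i < 20) :
    NoL (W R (ch (q + 1)) B S i) := by
  have nR := nl_hv hR
  have nB := nl_hv hB
  have nS := nl_hv hS
  have lR := len_pos hR0
  have lS := len_pos hS0
  have q1 := Qne q
  have q2 := Qne (q + 1)
  have l1' : ∀ X : BinaryTree Unit, len (.nil △ X) = len X + 1 := fun X => rfl
  have ln : ∀ A X : BinaryTree Unit, len (A △ X) = len X + 1 := fun A X => rfl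
  interval_cases i
  · change NoL (app R (ch (q + 2) △ .nil))
    refine NoL.of_zero ?_ ?_ ?_ ?_
    · rw [nl_app, nl_ne q2, nR]; rfl
    · rw [len_app, ln]; omega
    · rw [lastI_app (by simp), lastI_one]
      exact fun h => h.not_ch _ rfl
    · rw [t3hd_app hR0]
      exact fun h => h.not_gd (gd_hd hR hR0)
  · change NoL (app R (.nil △ app (ch (q + 1)) (.nil △ .nil)))
    refine NoL.of_nl ?_ ?_
    · rw [nl_app, nl_leaf, nl_app, nl_leaf]; omega
    · rw [len_app, ln]; omega
  · change NoL (.nil △ app R (.nil △ ch (q + 1)))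
    refine NoL.of_nl ?_ ?_
    · rw [nl_leaf, nl_app, nl_leaf]; omega
    · rw [ln, len_app, ln]; omega
  · change NoL (app R (.nil △ ch (q + 1)) △ .nil)
    refine NoL.of_one ?_ rfl ?_
    · rw [nl_ne (app_ne (by simp))]; rfl
    · change 1 ≤ nl (app R (.nil △ ch (q + 1)))
      rw [nl_app, nl_leaf]; omega
  · change NoL (app (ch (q + 1)) (.nil △ .nil) △ R)
    refine NoL.of_zero ?_ ?_ ?_ ?_
    · rw [nl_ne (app_ne (by simp)), nR]
    · rw [ln]; omega
    · rw [lastI_cons hR0]
      exact fun h => h.not_gd (gd_lastI hR hR0)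
    · cases q with
      | zero => exact not_PF_two _
      | succ q => exact not_PF_fb rfl
  · change NoL (ch (q + 1) △ (.nil △ R))
    refine NoL.of_mid ?_ ?_ ?_ ?_
    · rw [nl_ne q1, nl_leaf, nR]
    · rw [ln, ln]; omega
    · rw [lastB_cons (by simp), lastB_cons hR0, hv_last hR]
    · exact isNil_ne q1
  · change NoL (R △ (ch (q + 1) △ .nil))
    refine NoL.of_zero ?_ ?_ ?_ ?_
    · rw [nl_ne hR0, nl_ne q1]; rfl
    · rw [ln, ln]; omega
    · exact fun h => h.not_ch (q + 1) rfl
    · exact not_PF_fb (hv_fb hR)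
  · cases q with
    | zero => exact NoL.of_two rfl rfl
    | succ q =>
      change NoL (ch (q + 1) △ ((.nil △ R) △ .nil))
      refine NoL.of_zero ?_ ?_ ?_ ?_
      · rw [nl_ne (Qne q), nl_ne (by simp)]; rfl
      · rw [ln, ln]; omega
      · refine not_PL_last ?_
        change lastB (.nil △ R) = false
        rw [lastB_cons hR0, hv_last hR]
      · exact fun h => h.not_ch (q + 1) rfl
  · cases q with
    | zero =>
      change NoL (.nil △ (.nil △ (R △ .nil)))
      refine NoL.of_nl ?_ ?_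
      · rw [nl_leaf, nl_leaf]; omega
      · rw [ln, ln, ln]; omega
    | succ q =>
      change NoL (ch (q + 1) △ (.nil △ (R △ .nil)))
      refine NoL.of_mid ?_ ?_ ?_ ?_
      · rw [nl_ne (Qne q), nl_leaf, nl_ne hR0]; rfl
      · rw [ln, ln, ln]; omega
      · exact isNil_ne hR0
      · exact isNil_ne (Qne q)
  · cases q with
    | zero =>
      refine NoL.of_two ?_ rfl
      change nl ((R △ .nil) △ (.nil △ .nil)) = 1
      rw [nl_ne (by simp)]; rfl
    | succ q =>
      change NoL ((R △ .nil) △ (ch (q + 1) △ .nil))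
      refine NoL.of_zero ?_ ?_ ?_ ?_
      · rw [nl_ne (by simp), nl_ne (Qne q)]; rfl
      · rw [ln, ln]; omega
      · exact fun h => h.not_ch (q + 1) rfl
      · refine not_PF_fb ?_
        exact isNil_ne hR0
  · change NoL (app B (ch (q + 2) △ S))
    refine NoL.of_zero ?_ ?_ ?_ ?_
    · rw [nl_app, nl_ne q2, nB, nS]
    · rw [len_app, ln]; omega
    · rw [lastI_app (by simp), lastI_cons hS0]
      exact fun h => h.not_gd (gd_lastI hS hS0)
    · by_cases h0 : B = .nil
      · subst h0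
        exact fun h => h.not_ch (q + 2) rfl
      · rw [t3hd_app h0]
        exact fun h => h.not_gd (gd_hd hB h0)
  · change NoL (app B (.nil △ app (ch (q + 1)) (.nil △ S)))
    refine NoL.of_nl ?_ ?_
    · rw [nl_app, nl_leaf, nl_app, nl_leaf]; omega
    · rw [len_app, ln, len_app, ln]; omega
  · cases q with
    | zero =>
      change NoL (S △ app B (.nil △ (.nil △ .nil)))
      refine NoL.of_nl ?_ ?_
      · rw [nl_ne hS0, nl_app, nl_leaf, nl_leaf]; omega
      · rw [ln, len_app, ln]; omega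
    | succ q =>
      change NoL (S △ app B (.nil △ ch (q + 2)))
      refine NoL.of_mid ?_ ?_ ?_ ?_
      · rw [nl_ne hS0, nl_app, nl_leaf, nlQ, nB]
      · rw [ln, len_app, ln]; omega
      · rw [lastB_cons (app_ne (by simp)), lastB_app (by simp), lastB_cons (Qne _)]
        rfl
      · exact isNil_ne hS0
  · change NoL (app S (app B (.nil △ ch (q + 1)) △ .nil))
    refine NoL.of_zero ?_ ?_ ?_ ?_
    · rw [nl_app, nl_ne (app_ne (by simp)), nS]; rfl
    · rw [len_app, ln]; omega
    · rw [lastI_app (by simp), lastI_one]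
      cases q with
      | zero => exact not_PL_two _
      | succ q =>
        refine not_PL_last ?_
        rw [lastB_app (by simp), lastB_cons (Qne _)]
        rfl
    · rw [t3hd_app hS0]
      exact fun h => h.not_gd (gd_hd hS hS0)
  · change NoL (app (ch (q + 1)) (.nil △ S) △ B)
    by_cases h0 : B = .nil
    · subst h0
      refine NoL.of_one ?_ rfl ?_
      · rw [nl_ne (app_ne (by simp))]; rfl
      · change 1 ≤ nl (app (ch (q + 1)) (.nil △ S))
        rw [nl_app, nl_leaf]; omega
    · have lB := len_pos h0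
      refine NoL.of_zero ?_ ?_ ?_ ?_
      · rw [nl_ne (app_ne (by simp)), nB]
      · rw [ln]; omega
      · rw [lastI_cons h0]
        exact fun h => h.not_gd (gd_lastI hB h0)
      · cases q with
        | zero => exact not_PF_two _
        | succ q => exact not_PF_fb rfl
  · change NoL (ch (q + 1) △ (S △ B))
    refine NoL.of_zero ?_ ?_ ?_ ?_
    · rw [nl_ne q1, nl_ne hS0, nB]
    · rw [ln, ln]; omega
    · by_cases h0 : B = .nil
      · subst h0
        exact not_PL_last (hv_last hS)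
      · rw [lastI_cons (by simp), lastI_cons h0]
        exact fun h => h.not_gd (gd_lastI hB h0)
    · exact fun h => h.not_ch (q + 1) rfl
  · change NoL (app S (B △ (ch (q + 1) △ .nil)))
    by_cases h0 : B = .nil
    · subst h0
      refine NoL.of_mid ?_ ?_ ?_ ?_
      · rw [nl_app, nl_leaf, nl_ne q1, nS]; rfl
      · rw [len_app, ln]; omega
      · rw [lastB_app (by simp), lastB_cons (by simp)]
        exact isNil_ne q1
      · rw [fb_app hS0, hv_fb hS]
    · refine NoL.of_zero ?_ ?_ ?_ ?_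
      · rw [nl_app, nl_ne h0, nl_ne q1, nS]; rfl
      · rw [len_app, ln]; omega
      · rw [lastI_app (by simp), lastI_cons (by simp), lastI_one]
        exact fun h => h.not_ch _ rfl
      · rw [t3hd_app hS0]
        exact fun h => h.not_gd (gd_hd hS hS0)
  · cases q with
    | zero => exact NoL.of_two rfl rfl
    | succ q =>
      change NoL (ch (q + 1) △ ((S △ B) △ .nil))
      refine NoL.of_zero ?_ ?_ ?_ ?_
      · rw [nl_ne (Qne q), nl_ne (by simp)]; rfl
      · rw [ln, ln]; omega
      · refine not_PL_last ?_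
        change lastB (S △ B) = false
        by_cases h0 : B = .nil
        · subst h0
          exact isNil_ne hS0
        · rw [lastB_cons h0, hv_last hB]
      · exact fun h => h.not_ch (q + 1) rfl
  · cases q with
    | zero =>
      change NoL (.nil △ (.nil △ app S (B △ .nil)))
      refine NoL.of_nl ?_ ?_
      · rw [nl_leaf, nl_leaf]; omega
      · rw [ln, ln]; omega
    | succ q =>
      change NoL (ch (q + 1) △ (.nil △ app S (B △ .nil)))
      by_cases h0 : B = .nil
      · subst h0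
        refine NoL.of_nl ?_ ?_
        · rw [nl_ne (Qne q), nl_leaf, nl_app, nl_leaf]; omega
        · rw [ln, ln]; omega
      · refine NoL.of_mid ?_ ?_ ?_ ?_
        · rw [nl_ne (Qne q), nl_leaf, nl_app, nl_ne h0, nS]; rfl
        · rw [ln, ln]; omega
        · rw [lastB_cons (by simp), lastB_cons (app_ne (by simp)), lastB_app (by simp)]
          exact isNil_ne h0
        · exact isNil_ne (Qne q)
  · cases q with
    | zero =>
      refine NoL.of_two ?_ rfl
      change nl (app S (B △ .nil) △ (.nil △ .nil)) = 1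
      rw [nl_ne (app_ne (by simp))]; rfl
    | succ q =>
      change NoL (app S (B △ .nil) △ (ch (q + 1) △ .nil))
      refine NoL.of_zero ?_ ?_ ?_ ?_
      · rw [nl_ne (app_ne (by simp)), nl_ne (Qne q)]; rfl
      · rw [ln, ln]; omega
      · exact fun h => h.not_ch (q + 1) rfl
      · refine not_PF_fb ?_
        change fb (app S (B △ .nil)) = false
        rw [fb_app hS0, hv_fb hS]

/-! ### The words of L1 -/

theorem nl_lv2 (c : ℕ) (X : BinaryTree Unit) : nl (lv2 c X) = nl X := by
  induction c with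
  | zero => rfl
  | succ c ih =>
    change nl ((.nil △ .nil) △ lv2 c X) = _
    rw [nl_ne (by simp), ih]

theorem isNil_mir (t : BinaryTree Unit) : isNil (Tsq.mir t) = isNil t := by
  cases t with
  | nil => rfl
  | node _ A B =>
    rw [Tsq.mir_node]
    cases hB : Tsq.mir B with
    | nil => rfl
    | node _ C D => rfl

theorem nl_mir (t : BinaryTree Unit) : nl (Tsq.mir t) = nl t := by
  induction t with
  | nil => rfl
  | node _ A B _ ih =>
    rw [Tsq.mir_node, nl_app, ih]
    change nl B + ((if isNil (Tsq.mir A) = true then 1 else 0) + 0) = (if isNil A = true then 1 else 0) + nl B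
    rw [isNil_mir]
    omega

theorem B_ne (c : ℕ) : lv2 c (tb3 △ .nil) ≠ .nil := by cases c <;> simp [lv2]

theorem lastB_B (c : ℕ) : lastB (lv2 c (tb3 △ .nil)) = false := by
  induction c with
  | zero => rfl
  | succ c ih =>
    change lastB ((.nil △ .nil) △ lv2 c (tb3 △ .nil)) = false
    rw [lastB_cons (B_ne c), ih]

/-- the four words, right -/
theorem not_noL {c : ℕ} (hB : B = lv2 c (tb3 △ .nil)) (hS : nl S = 0) (hS0 : S ≠ .nil) {j : ℕ}
    (hj : j = 13 ∨ j = 16 ∨ j = 18 ∨ j = 19) : ¬ NoL (W R .nil B S j) := by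
  intro h
  have hB0 : B ≠ .nil := by rw [hB]; exact B_ne c
  have lS := len_pos hS0
  have ln : ∀ A X : BinaryTree Unit, len (A △ X) = len X + 1 := fun A X => rfl
  rcases hj with rfl | rfl | rfl | rfl
  · refine h.d ?_ ?_ ⟨B, ?_, hB0, by rw [hB]; exact lastB_B c⟩
    · change nl (app S (app B (.nil △ .nil) △ .nil)) = 0
      rw [nl_app, nl_ne (app_ne (by simp)), hS]; rfl
    · change 2 ≤ len (app S (app B (.nil △ .nil) △ .nil))
      rw [len_app, ln]; omega
    · change lastI (app S (app B (.nil △ .nil) △ .nil)) = _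
      rw [lastI_app (by simp)]; rfl
  · have h1 := h.a (by
      change nl (app S (B △ (.nil △ .nil))) = 1
      rw [nl_app, nl_ne hB0, hS]; rfl) (by
      change lastB (app S (B △ (.nil △ .nil))) = true
      rw [lastB_app (by simp)]; rfl)
    change len (app S (B △ (.nil △ .nil))) ≤ 2 at h1
    rw [len_app, ln, ln] at h1
    omega
  · have h1 := h.b (by
      change nl (.nil △ app S (B △ .nil)) = 1
      rw [nl_leaf, nl_app, nl_ne hB0, hS]; rfl) rfl
    change len (.nil △ app S (B △ .nil)) ≤ 2 at h1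
    rw [ln, len_app, ln] at h1
    omega
  · have h1 := h.c rfl
    change 1 ≤ nl (app S (B △ .nil)) at h1
    rw [nl_app, nl_ne hB0, hS] at h1
    exact absurd h1 (by decide)

/-- the four words, mirrored -/
theorem not_noLM {c : ℕ} (hB : B = tb3 △ lv2 c .nil) (hS : nl S = 0) (hS0 : S ≠ .nil) {j : ℕ}
    (hj : j = 13 ∨ j = 16 ∨ j = 18 ∨ j = 19) : ¬ NoL (aw R .nil B S j) := by
  intro h
  have hB0 : B ≠ .nil := by rw [hB]; simp
  have lS := len_pos hS0
  have ln : ∀ A X : BinaryTree Unit, len (A △ X) = len X + 1 := fun A X => rfl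
  rcases hj with rfl | rfl | rfl | rfl
  · refine h.e ?_ ?_ ⟨B, rfl, hB0, by rw [hB]; rfl⟩
    · change nl ((.nil △ B) △ S) = 0
      rw [nl_ne (by simp), hS]
    · change 2 ≤ len ((.nil △ B) △ S)
      rw [ln]; omega
  · have h1 := h.b (by
      change nl (.nil △ (B △ S)) = 1
      rw [nl_leaf, nl_ne hB0, hS]) rfl
    change len (.nil △ (B △ S)) ≤ 2 at h1
    rw [ln, ln] at h1
    omega
  · have h1 := h.a (by
      change nl (B △ app S (.nil △ .nil)) = 1
      rw [nl_ne hB0, nl_app, hS]; rfl) (by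
      change lastB (B △ app S (.nil △ .nil)) = true
      rw [lastB_cons (app_ne (by simp)), lastB_app (by simp)]; rfl)
    change len (B △ app S (.nil △ .nil)) ≤ 2 at h1
    rw [ln, len_app, ln] at h1
    omega
  · have h1 := h.c rfl
    change 1 ≤ nl (B △ S) at h1
    rw [nl_ne hB0, hS] at h1
    omega

theorem ct_nil : ct 3 (.nil : BinaryTree Unit) = 0 := rfl

theorem ct_leaf (X : BinaryTree Unit) : ct 3 (.nil △ X) = ct 3 X := by
  unfold ct
  change cp 3 ({1} + cont X) = _
  rw [cp_add, cp_one, if_neg (by norm_num)]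
  omega

theorem ct_two (X : BinaryTree Unit) : ct 3 ((.nil △ .nil) △ X) = ct 3 X := by
  unfold ct
  rw [cont_l1', cp_add, cp_one, if_neg (by norm_num)]
  omega

theorem ct_big {A : BinaryTree Unit} (h : 3 ≤ OddHC.ht A) (X : BinaryTree Unit) :
    ct 3 (A △ X) = ct 3 A + ct 3 X := by
  unfold ct
  rw [cont_node, cp_add, cp_raise (by rw [← ht_eq]; exact h) (by norm_num)]

/-- **the words of L1 have one part `≥ 3`, but the four words** -/
theorem ct_L {B S : BinaryTree Unit} (hR : 3 ≤ OddHC.ht R) (hS : 3 ≤ OddHC.ht S) (h1 : ct 3 R = 1)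
    (h2 : ct 3 B + ct 3 S = 1) {j : ℕ} (hj : j < 20) :
    ct 3 (W R .nil B S j) = 1 ∨ (B ≠ .nil ∧ (j = 13 ∨ j = 16 ∨ j = 18 ∨ j = 19)) := by
  have c0 := ct_nil
  have c1 := ct_leaf
  have c2 := ct_two
  have ca := ct_app 3
  have h3 : ∀ X, 3 ≤ OddHC.ht (app R X) := fun X => by rw [L1.ht_app]; omega
  have h4 : ∀ X, 3 ≤ OddHC.ht (app S X) := fun X => by rw [L1.ht_app]; omega
  have h5 : ∀ X, 3 ≤ OddHC.ht (.nil △ X : BinaryTree Unit) ↔ 3 ≤ OddHC.ht X := fun X => by
    change 3 ≤ max 1 (OddHC.ht X) ↔ _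
    omega
  have h6 : ∀ A X : BinaryTree Unit, OddHC.ht A ≤ OddHC.ht (A △ X) := fun A X => by
    change _ ≤ max (OddHC.ht A + 1) (OddHC.ht X)
    omega
  interval_cases j
  · left; change ct 3 (app R ((.nil △ .nil) △ .nil)) = 1; rw [ca, c2, c0, h1]
  · left; change ct 3 (app R (.nil △ (.nil △ .nil))) = 1; rw [ca, c1, c1, c0, h1]
  · left; change ct 3 (.nil △ app R (.nil △ .nil)) = 1; rw [c1, ca, c1, c0, h1]
  · left; change ct 3 (app R (.nil △ .nil) △ .nil) = 1; rw [ct_big (h3 _), ca, c1, c0, h1]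
  · left; change ct 3 ((.nil △ .nil) △ R) = 1; rw [c2, h1]
  · left; change ct 3 (.nil △ (.nil △ R)) = 1; rw [c1, c1, h1]
  · left; change ct 3 (R △ (.nil △ .nil)) = 1; rw [ct_big hR, c1, c0, h1]
  · left; change ct 3 ((.nil △ R) △ .nil) = 1; rw [ct_big ((h5 _).2 hR), c1, c0, h1]
  · left; change ct 3 (.nil △ (R △ .nil)) = 1; rw [c1, ct_big hR, c0, h1]
  · left; change ct 3 ((R △ .nil) △ .nil) = 1; rw [ct_big (hR.trans (h6 _ _)), ct_big hR, c0, h1]
  · left; change ct 3 (app B ((.nil △ .nil) △ S)) = 1; rw [ca, c2, h2]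
  · left; change ct 3 (app B (.nil △ (.nil △ S))) = 1; rw [ca, c1, c1, h2]
  · left; change ct 3 (S △ app B (.nil △ .nil)) = 1; rw [ct_big hS, ca, c1, c0]; omega
  · by_cases h0 : B = .nil
    · subst h0; left; change ct 3 (app S ((.nil △ .nil) △ .nil)) = 1; rw [ca, c2, c0]; omega
    · exact Or.inr ⟨h0, Or.inl rfl⟩
  · left; change ct 3 ((.nil △ S) △ B) = 1; rw [ct_big ((h5 _).2 hS), c1]; omega
  · left; change ct 3 (.nil △ (S △ B)) = 1; rw [c1, ct_big hS]; omega
  · by_cases h0 : B = .nil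
    · subst h0; left; change ct 3 (app S (.nil △ (.nil △ .nil))) = 1; rw [ca, c1, c1, c0]; omega
    · exact Or.inr ⟨h0, Or.inr (Or.inl rfl)⟩
  · left; change ct 3 ((S △ B) △ .nil) = 1; rw [ct_big (hS.trans (h6 _ _)), ct_big hS, c0]; omega
  · by_cases h0 : B = .nil
    · subst h0; left; change ct 3 (.nil △ app S (.nil △ .nil)) = 1; rw [c1, ca, c1, c0]; omega
    · exact Or.inr ⟨h0, Or.inr (Or.inr (Or.inl rfl))⟩
  · by_cases h0 : B = .nil
    · subst h0; left; change ct 3 (app S (.nil △ .nil) △ .nil) = 1; rw [ct_big (h4 _), ca, c1, c0]; omega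
    · exact Or.inr ⟨h0, Or.inr (Or.inr (Or.inr rfl))⟩

end L1

open L1

/-- **every word of L1 has exactly one part `≥ 3` or is not `NoL`** -/
theorem TyL1.word_dich (h : TyL1 F g) : ∀ w ∈ g.B, ct 3 w.1 = 1 ∨ ¬ NoL w.1 := by
  intro w hw
  rcases h with ⟨n, Φ, w0, hb, _, rfl, rfl⟩ | ⟨n, Φ, w0, hb, _, rfl, rfl⟩
  · have hn := hb.hn
    have gr := GR_RH hn Φ hb.hk
    have hS3 : OddHC.ht (Tsq.sq (RH n Φ)).1 = n + 2 := by rw [gr.htS, ht_RH hn]
    have hR3 : OddHC.ht (RH n Φ) = n + 2 := ht_RH hn Φ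
    have h1 : ct 3 (RH n Φ) = 1 := by
      unfold ct
      rw [cont_RH hn, cp_add, cp_add, cp_one, cp_one, cp_rep 3 _ 2 (by norm_num), if_pos (by omega),
        if_neg (by norm_num)]
    have h2 : ct 3 (Tsq.sq (RH n Φ)).2 + ct 3 (Tsq.sq (RH n Φ)).1 = 1 := by
      have h3 : ct 3 (Tsq.sq (RH n Φ)).2 + ct 3 (Tsq.sq (RH n Φ)).1 = ct 3 (RH n Φ) := by
        unfold ct
        rw [← cp_add, gr.cont]
      rw [h3, h1]
    obtain ⟨j, hj, _, rfl⟩ := mem_gadJ.1 hw
    rw [xw_val hn hb.hk w0 hj]
    rcases ct_L (R := RH n Φ) (by omega) (by omega) h1 h2 hj with h3 | ⟨h0, h3⟩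
    · exact Or.inl h3
    · right
      rcases B_form hn Φ with ⟨h4, _⟩ | ⟨c, h4, h5⟩
      · exact absurd h4 h0
      · obtain ⟨E, d, h6, h7⟩ := S_form hn Φ h5
        refine not_noL h4 ?_ ?_ h3
        · rw [h6, nl_ne (by rintro rfl; exact absurd h7 (by decide)), nl_lv2]; rfl
        · rw [h6]; simp
  · have hn := hb.hn
    have hkr : n + 5 + 2 * ∑ x, J.rf Φ x = k := by rw [J.rf_sum]; exact hb.hk
    have gr := GR_RH hn (J.rf Φ) (k := k) hkr
    have hS3 : OddHC.ht (Tsq.sq (RH n (J.rf Φ))).1 = n + 2 := by rw [gr.htS, ht_RH hn]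
    have hR3 : OddHC.ht (RH n (J.rf Φ)) = n + 2 := ht_RH hn (J.rf Φ)
    have h1 : ct 3 (RH n (J.rf Φ)) = 1 := by
      unfold ct
      rw [cont_RH hn, cp_add, cp_add, cp_one, cp_one, cp_rep 3 _ 2 (by norm_num), if_pos (by omega),
        if_neg (by norm_num)]
    have h2 : ct 3 (Tsq.sq (RH n (J.rf Φ))).2 + ct 3 (Tsq.sq (RH n (J.rf Φ))).1 = 1 := by
      have h3 : ct 3 (Tsq.sq (RH n (J.rf Φ))).2 + ct 3 (Tsq.sq (RH n (J.rf Φ))).1 = ct 3 (RH n (J.rf Φ)) := by
        unfold ct
        rw [← cp_add, gr.cont]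
      rw [h3, h1]
    obtain ⟨j, hj, _, rfl⟩ := mem_gadJM.1 hw
    rw [xm_val hn hb.hk w0 hj]
    rcases ct_L (R := RH n (J.rf Φ)) (by omega) (by omega) h1 h2 hj with h3 | ⟨h0, h3⟩
    · left
      unfold ct at h3 ⊢
      rw [HM.cont_mir, h3]
    · right
      rcases B_form hn (J.rf Φ) with ⟨h4, _⟩ | ⟨c, h4, h5⟩
      · exact absurd h4 h0
      · obtain ⟨E, d, h6, h7⟩ := S_form hn (J.rf Φ) h5
        rw [HM.mir_W _ _ _ _ hj, HM.w20M_aw _ _ _ _ hj]
        refine not_noLM (c := c) ?_ ?_ ?_ h3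
        · rw [h4, mir_B]
        · rw [nl_mir, h6, nl_ne (by rintro rfl; exact absurd h7 (by decide)), nl_lv2]; rfl
        · intro h8
          have h9 := isNil_mir (Tsq.sq (RH n (J.rf Φ))).1
          rw [h8, h6] at h9
          simp [H1.isNil] at h9

/-- **bare windows against the words of L1**, any `q`, right -/
theorem TyL1.bare {q : ℕ} {R B S : BinaryTree Unit} (h' : TyL1 F' g') (hR : H1.hv R) (hB : H1.hv B) (hS : H1.hv S)
    (hR0 : R ≠ .nil) (hS0 : S ≠ .nil) (h2 : 2 ≤ ct 3 R) (hc : ct 3 B + ct 3 S = ct 3 R) {i : ℕ} (hi : i < 20)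
    {x : X k} (hx : x.1 = H1.W R (H1.ch (q + 1)) B S i) : x ∉ g'.B := by
  intro hw
  rcases h'.word_dich x hw with h3 | h3
  · have h4 := ct_W (Q := H1.ch (q + 1)) (p := 3) (by norm_num) hc hi
    rw [hx] at h3
    omega
  · rw [hx] at h3
    exact h3 (noL_W hR hB hS hR0 hS0 hi)

theorem HM.NodeM.dis_L1 {q : ℕ} {R B S : BinaryTree Unit} (h : HM.NodeM k q R B S) (w0 : X k) {i : ℕ} (hi : i < 20)
    (h' : TyL1 F' g') : H1.wX R B S q w0 i ∉ g'.B := by
  have hpR : ∀ x ∈ cont R, 3 ≤ x := fun x hx => by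
    have := h.part x hx
    omega
  have hcs : cont B + cont S = cont R := h.dat.cont
  have h1 : ct 3 R = Multiset.card (cont R) := by
    unfold ct cp
    rw [Multiset.countP_eq_card]
    exact hpR
  have hS0 : S ≠ .nil := by
    intro h0
    have h3 := h.dat.htS
    rw [h0] at h3
    have h4 := h.top
    have h5 : OddHC.ht (.nil : BinaryTree Unit) = 0 := rfl
    omega
  refine h'.bare (H1.hv_of_cont hpR) (H1.hv_of_cont fun x hx => hpR x ?_) (H1.hv_of_cont fun x hx => hpR x ?_) h.ne
    hS0 ?_ ?_ hi (H1.wX_eq h.dat h.size w0 hi)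
  · rw [← hcs]; exact Multiset.mem_add.2 (Or.inl hx)
  · rw [← hcs]; exact Multiset.mem_add.2 (Or.inr hx)
  · rw [h1]; exact h.two_card
  · unfold ct
    rw [← cp_add, hcs]

/-- **row W-Rq-L1** -/
theorem TyRq.disj_L1 {q : ℕ} (h : TyRq q F g) (h' : TyL1 F' g') : ∀ w ∈ g.B, w ∉ g'.B := by
  intro w hw
  obtain ⟨R, B, S, w0, i, h1, hi, rfl, _⟩ := h.words w hw
  exact h1.dis_L1 w0 hi h'

theorem TySq.disj_L1 {q : ℕ} (h : TySq q F g) (h' : TyL1 F' g') : ∀ w ∈ g.B, w ∉ g'.B := by
  intro w hw
  obtain ⟨R, B, S, w0, i, h1, hi, rfl, _⟩ := h.words' w hw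
  exact h1.dis_L1 w0 hi h'

theorem TyRqE.disj_L1 {q : ℕ} (h : TyRqE q F g) (h' : TyL1 F' g') : ∀ w ∈ g.B, w ∉ g'.B := by
  intro w hw
  obtain ⟨R, B, S, w0, i, h1, hi, rfl, _⟩ := h.words' w hw
  exact h1.dis_L1 w0 hi h'

end Pool.OddHC
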