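import Pool.Agent.Work.MP_8f87b2_h60.TyA0
import Pool.Agent.Work.MP_8f87b2_h62.W3f

/-!
# MP_8f87b2_co: the type T (height 3) against the types A and A0

Heights: a window of type A or A0 has a new T-cycle of height at least `4`, a window of type T of height `3`.
`TyA0.disT`: words of A0 against words of T.
-/

set_option autoImplicit false

namespace Pool.OddHC

open BinaryTree Multiset Equiv Pool.Agent.Work.MP_8f87b2_co HM

variable {k : ℕ} {F F' : Set (Cyc k)} {g g' : DG k}

theorem TyA.ht4 (h : TyA F g) : ∀ c ∈ F, 4 ≤ htc c := by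
  obtain ⟨q, B1, H, s, B, w0, h1, rfl, rfl⟩ := h
  rintro c rfl
  rw [htc_cyc, OddHC.ht_eq, h1.cont0, sup_add', ← OddHC.ht_eq, h1.ht]
  have := h1.hs3
  exact le_max_of_le_left (by omega)

theorem TyA0.ht4 (h : TyA0 F g) : ∀ c ∈ F, 4 ≤ htc c := by
  obtain ⟨q, R, B, S, w0, h1, hne, rfl, rfl⟩ := h
  rintro c rfl
  rw [htc_cyc, OddHC.ht_eq, h1.cont0, sup_add', ← OddHC.ht_eq]
  have := h1.top
  exact le_max_of_le_left (by omega)

theorem TyT.ht3 (h : TyT F g) : ∀ c ∈ F, htc c = 3 := by
  obtain ⟨b, m, a, w0, h1, rfl, rfl⟩ := h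
  rintro c rfl
  rw [htc_cyc, OddHC.ht_eq, h1.cont0, sup_add', ← OddHC.ht_eq, H1.ht_R3]
  rfl

theorem TyA.inner_T (h : TyA F g) (h' : TyT F' g') (hle : ∀ c ∈ F, ∀ d ∈ F', htc c ≤ htc d) :
    ∀ p ∈ g.arcs, ∀ w ∈ innA p, w ∉ g'.B := by
  exfalso
  have h4 := h.ht4
  have h3 := h'.ht3
  obtain ⟨q, B1, H, s, B, w0, h1, rfl, rfl⟩ := h
  obtain ⟨b, m, a, w0', h1', rfl, rfl⟩ := h'
  have e1 := h4 _ rfl
  have e2 := h3 _ rfl
  have e3 := hle _ rfl _ rfl
  omega

theorem TyA0.inner_T (h : TyA0 F g) (h' : TyT F' g') (hle : ∀ c ∈ F, ∀ d ∈ F', htc c ≤ htc d) :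
    ∀ p ∈ g.arcs, ∀ w ∈ innA p, w ∉ g'.B := by
  exfalso
  have h4 := h.ht4
  have h3 := h'.ht3
  obtain ⟨q, R, B, S, w0, h1, hne, rfl, rfl⟩ := h
  obtain ⟨b, m, a, w0', h1', rfl, rfl⟩ := h'
  have e1 := h4 _ rfl
  have e2 := h3 _ rfl
  have e3 := hle _ rfl _ rfl
  omega

namespace H1

/-- the tree `()` -/
def is1 : BinaryTree Unit → Bool
  | .nil => false
  | .node _ A X => isNil A && isNil X

/-- the first component is `(())` -/
def hd12 : BinaryTree Unit → Bool
  | .nil => false
  | .node _ A _ => is1 A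

/-- somewhere `()` is followed by `(())` -/
def p12 : BinaryTree Unit → Bool
  | .nil => false
  | .node _ A X => p12 A || p12 X || (isNil A && hd12 X)

theorem p12_node (A X : BinaryTree Unit) : p12 (A △ X) = (p12 A || p12 X || (isNil A && hd12 X)) := rfl

theorem p12_nil : p12 .nil = false := rfl

theorem hd12_node (A X : BinaryTree Unit) : hd12 (A △ X) = is1 A := rfl

theorem p12_appl {P : BinaryTree Unit} (X : BinaryTree Unit) (h : p12 P = true) : p12 (app P X) = true := by
  induction P with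
  | nil => exact absurd h (by simp [p12])
  | node _ A C _ ih =>
    change p12 (A △ app C X) = true
    rw [p12_node] at h ⊢
    rw [Bool.or_eq_true, Bool.or_eq_true] at h
    rcases h with (h | h) | h
    · rw [h]; rfl
    · rw [ih h]; simp
    · have e : hd12 (app C X) = hd12 C := by
        cases C with
        | nil => rw [Bool.and_eq_true] at h; exact absurd h.2 (by simp [hd12])
        | node _ A' C' => rfl
      rw [e, h]; simp

theorem p12_appr (P : BinaryTree Unit) {X : BinaryTree Unit} (h : p12 X = true) : p12 (app P X) = true := by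
  induction P with
  | nil => exact h
  | node _ A C _ ih =>
    change p12 (A △ app C X) = true
    rw [p12_node, ih]
    simp

theorem p12_hv {P : BinaryTree Unit} (X : BinaryTree Unit) (h : hv P) : p12 (app P X) = p12 X := by
  induction P generalizing X with
  | nil => rfl
  | node _ A C ihA ihC =>
    change p12 (A △ app C X) = p12 X
    rw [p12_node, ihC X h.2]
    have h0 : isNil A = false := isNil_f.2 (gd_ne h.1)
    have h1 : p12 A = false := by
      rcases h.1 with e | ⟨_, e⟩
      · rw [e]; rfl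
      · have := ihA .nil e
        rw [app_nil] at this
        rw [this]; rfl
    rw [h0, h1]
    simp

theorem p12_hv0 {P : BinaryTree Unit} (h : hv P) : p12 P = false := by
  have := p12_hv .nil h
  rw [app_nil] at this
  rw [this]; rfl

theorem is1_gd {A : BinaryTree Unit} (h : gd A) : is1 A = false := by
  rcases h with rfl | ⟨h0, h⟩
  · rfl
  · cases A with
    | nil => exact absurd rfl h0
    | node _ A' X' =>
      change (isNil A' && isNil X') = false
      rw [isNil_f.2 (gd_ne h.1)]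
      rfl

theorem hd12_hv {P : BinaryTree Unit} (X : BinaryTree Unit) (h : hv P) (h0 : P ≠ .nil) :
    hd12 (app P X) = false := by
  cases P with
  | nil => exact absurd rfl h0
  | node _ A C => exact is1_gd h.1

theorem hd12_hv0 {P : BinaryTree Unit} (h : hv P) : hd12 P = false := by
  cases P with
  | nil => rfl
  | node _ A C => exact is1_gd h.1

theorem hv_gd {P : BinaryTree Unit} (h : hv P) (h0 : P ≠ .nil) : gd P := Or.inr ⟨h0, h⟩

variable {b m a : ℕ}

theorem p12_L3 (hm : 1 ≤ m) (ha : 1 ≤ a) : p12 (L3 m a) = true := by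
  obtain ⟨a, rfl⟩ : ∃ a', a = a' + 1 := ⟨a - 1, by omega⟩
  obtain ⟨m, rfl⟩ : ∃ m', m = m' + 1 := ⟨m - 1, by omega⟩
  clear hm ha
  induction m with
  | zero =>
    change p12 (.nil △ ((.nil △ .nil) △ lv2 a .nil)) = true
    rw [p12_node]
    have e : (isNil (.nil : BinaryTree Unit) && hd12 ((.nil △ .nil) △ lv2 a .nil)) = true := rfl
    rw [e]
    simp
  | succ m ih =>
    change p12 (.nil △ L3 (m + 1) (a + 1)) = true
    rw [p12_node, ih]
    simp

theorem p12_w3 (hm : 1 ≤ m) (ha : 1 ≤ a) {i : ℕ} (hi : i < 20) : p12 (w3 b m a i) = true := by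
  have h1 := p12_L3 hm ha
  have h2 : ∀ X, p12 (app (L3 m a) X) = true := fun X => p12_appl X h1
  have h3 : ∀ X, p12 (app (th b .nil) X) = p12 X := fun X => p12_hv X (hv_th b)
  rw [w3_fw b m a i hi]
  interval_cases i <;> simp [fw3, t3G, p12_node, h1, h2, h3]

theorem p12_ch (n : ℕ) : p12 (ch n) = false := by
  induction n with
  | zero => rfl
  | succ n ih =>
    rw [ch_succ, p12_node, ih]
    simp [p12_nil, hd12]

/-- the words of the bead free absorbers with `()(())` -/
theorem p12_aw {q : ℕ} {R B S : BinaryTree Unit} (h : Bare R B S) {j : ℕ} (hj : j < 20)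
    (hp : p12 (aw R (ch (q + 1)) B S j) = true) :
    (q = 0 ∧ j = 5) ∨ (q = 1 ∧ (j = 1 ∨ j = 4 ∨ j = 8 ∨ j = 11 ∨ j = 14 ∨ j = 18)) := by
  have aR := fun X => p12_hv X h.hR
  have aB := fun X => p12_hv X h.hB
  have aS := fun X => p12_hv X h.hS
  have bR := p12_hv0 h.hR
  have bB := p12_hv0 h.hB
  have bS := p12_hv0 h.hS
  have cR := fun X => hd12_hv X h.hR h.R0
  have cS := fun X => hd12_hv X h.hS h.S0
  have dR := hd12_hv0 h.hR
  have dB := hd12_hv0 h.hB
  have dS := hd12_hv0 h.hS
  have eR := isNil_f.2 h.R0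
  have eS := isNil_f.2 h.S0
  have iR := is1_gd (hv_gd h.hR h.R0)
  have iS := is1_gd (hv_gd h.hS h.S0)
  have iRn : ∀ Y, Y ≠ .nil → is1 (app R Y) = false := by
    intro Y hY
    cases hR : R with
    | nil => exact absurd hR h.R0
    | node _ A C =>
      change (isNil A && isNil (app C Y)) = false
      rw [isNil_f.2 (app_ne hY)]
      simp
  have lRn : ∀ Y, isNil (app R Y) = false := fun Y => isNil_f.2 (app_ne' h.R0)
  have lSn : ∀ Y, isNil (app S Y) = false := fun Y => isNil_f.2 (app_ne' h.S0)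
  have lBn : ∀ X, isNil (app B (S △ X)) = false := fun X => isNil_f.2 (app_ne (by simp))
  have fB : ∀ X, hd12 (app B (S △ X)) = false := by
    intro X
    cases hB : B with
    | nil => exact iS
    | node _ B1 B2 =>
      rw [hB] at dB
      exact dB
  have jB : ∀ X, isNil X = false → is1 (B △ X) = false := by
    intro X hX
    change (isNil B && isNil X) = false
    rw [hX]; simp
  have jn : ∀ X, isNil (X △ BinaryTree.nil) = false := fun X => rfl
  have kn : ∀ A X : BinaryTree Unit, isNil (A △ X) = false := fun A X => rfl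
  have k1 : ∀ A X : BinaryTree Unit, is1 (A △ X) = (isNil A && isNil X) := fun A X => rfl
  have k0 : isNil (BinaryTree.nil : BinaryTree Unit) = true := rfl
  have k2 : is1 (BinaryTree.nil : BinaryTree Unit) = false := rfl
  have k3 : hd12 (BinaryTree.nil : BinaryTree Unit) = false := rfl
  have k4 : p12 (BinaryTree.nil : BinaryTree Unit) = false := rfl
  obtain hq | hq | ⟨q', hq⟩ : q = 0 ∨ q = 1 ∨ ∃ q', q = q' + 2 := by
    rcases q with _ | _ | q
    · left; rfl
    · right; left; rfl
    · right; right; exact ⟨q, rfl⟩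
  · subst hq
    interval_cases j <;>
      simp [aw, ch, app, p12_node, hd12_node, aR, aB, aS, bR, bB, bS, cR, cS, dR, dB, dS, eR, eS, iR, iS,
        lRn, lSn, lBn, fB, kn, k1, k0, k2, k3, k4] at hp ⊢
  · subst hq
    interval_cases j <;>
      simp [aw, ch, app, p12_node, hd12_node, aR, aB, aS, bR, bB, bS, cR, cS, dR, dB, dS, eR, eS, iR, iS,
        lRn, lSn, lBn, fB, kn, k1, k0, k2, k3, k4] at hp ⊢
  · subst hq
    have c1 := p12_ch q'
    exfalso
    interval_cases j <;>
      simp [aw, ch, app, p12_node, hd12_node, aR, aB, aS, bR, bB, bS, cR, cS, dR, dB, dS, eR, eS, iR, iS,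
        lRn, lSn, lBn, fB, kn, k1, k0, k2, k3, k4, c1] at hp

end H1

namespace H1

variable {b m a : ℕ}

/-- a heavy first component of a word is `[3]` -/
theorem t3_hd3 (hm : 1 ≤ m) {i : ℕ} (hi : i < 20) (hS : gd (t3hd (w3 b m a i))) :
    t3hd (w3 b m a i) = (.nil △ .nil) △ .nil := by
  have h := t3_hd hm hi hS
  rw [w3_fw b m a i hi]
  rcases h with rfl | ⟨rfl, hb⟩ | rfl | rfl
  · cases b <;> rfl
  · obtain ⟨b, rfl⟩ : ∃ b', b = b' + 1 := ⟨b - 1, by omega⟩
    rfl
  · rfl
  · rfl

theorem lo_three : lo 1 ((.nil △ .nil) △ .nil) ≠ 0 := by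
  have h := lo_pc (d := 1) (e := 2) (by norm_num)
  have e : pc 2 = (.nil △ .nil) △ .nil := rfl
  rw [e] at h
  rw [h]; norm_num

theorem not_hd_app {P X : BinaryTree Unit} (hm : 1 ≤ m) (h : hv P) (h1 : Hv 1 P) (h0 : P ≠ .nil)
    {i : ℕ} (hi : i < 20) (e : w3 b m a i = app P X) : False := by
  have h2 := h1.fs h0
  cases hP : P with
  | nil => exact h0 hP
  | node _ A C =>
    rw [hP] at h h2
    have h3 : t3hd (w3 b m a i) = A := by rw [e, hP]; rfl
    have h4 : gd (t3hd (w3 b m a i)) := by rw [h3]; exact h.1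
    have h5 := t3_hd3 hm hi h4
    rw [h3] at h5
    rw [h5] at h2
    exact lo_three h2

theorem not_hd_node {P X : BinaryTree Unit} (hm : 1 ≤ m) (h : hv P) (h1 : Hv 1 P) (h0 : P ≠ .nil)
    {i : ℕ} (hi : i < 20) (e : w3 b m a i = P △ X) : False := by
  have h3 : t3hd (w3 b m a i) = P := by rw [e]; rfl
  have h4 : gd (t3hd (w3 b m a i)) := by rw [h3]; exact hv_gd h h0
  have h5 := t3_hd3 hm hi h4
  rw [h3] at h5
  have h6 : (2 : ℕ) ∈ cont P := by
    rw [h5]
    have e6 : cont ((.nil △ .nil) △ .nil) = {2} := by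
      rw [cont_node, cont_node, cont_nil]; rfl
    rw [e6]; exact Multiset.mem_singleton_self _
  have := h1 2 h6
  omega

theorem nl_cons {A X : BinaryTree Unit} (h : t3nl (A △ X) = true) : light A = false ∧ t3nl X = true := by
  change ((!light A) && t3nl X) = true at h
  rw [Bool.and_eq_true] at h
  refine ⟨?_, h.2⟩
  cases hA : light A
  · rfl
  · rw [hA] at h; exact absurd h.1 (by simp)

/-- `R()(())` with a high `R` -/
theorem t3_R12 {R : BinaryTree Unit} (hm : 1 ≤ m) (ha : 1 ≤ a) (h : hv R) (ht : 3 < OddHC.ht R) {i : ℕ} (hi : i < 20)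
    (e : w3 b m a i = app R (.nil △ ((.nil △ .nil) △ .nil))) : False := by
  have hn := nl_rv h
  have hR := t3rv_rv R
  obtain ⟨Z, hZ⟩ : ∃ Z, Z = t3rv R := ⟨_, rfl⟩
  have e1 := congrArg t3rv e
  rw [rv_w3 b m a i hi, t3rv_app] at e1
  have e2 : t3rv (.nil △ ((.nil △ .nil) △ .nil)) = (.nil △ .nil) △ (.nil △ .nil) := rfl
  rw [e2] at e1
  change _ = (.nil △ .nil) △ (.nil △ t3rv R) at e1
  rw [← hZ] at e1 hn hR
  obtain ⟨m, rfl⟩ : ∃ m', m = m' + 1 := ⟨m - 1, by omega⟩
  obtain ⟨a, rfl⟩ : ∃ a', a = a' + 1 := ⟨a - 1, by omega⟩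
  have hS : ∀ Y, app (t3rv (S3 (m + 1) (a + 1))) Y = (.nil △ .nil) △ (.nil △ Z) →
      Z = ((.nil △ .nil) △ .nil) △ Y := by
    intro Y hY
    rw [rv_S3, app_assoc, app_assoc] at hY
    have f1 := (node_inj hY).2
    cases a with
    | succ a => exact absurd (node_inj f1).1 (by simp)
    | zero =>
      have f2 := (node_inj f1).2
      cases m with
      | zero => exact f2.symm
      | succ m =>
        rw [← f2] at hn
        exact absurd (nl_cons hn).1 (by decide)
  interval_cases i
  · exact absurd (node_inj e1).1 (by simp)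
  · exact absurd (node_inj e1).1 (by simp)
  · exact absurd (node_inj e1).1 (by simp)
  · exact absurd (node_inj e1).2 (by simp)
  · change app (t3rv (R3 b (m + 1) (a + 1))) _ = _ at e1
    rw [rv_R3] at e1
    cases b with
    | zero => exact absurd (node_inj (node_inj e1).1).1 (by simp)
    | succ b => exact absurd (node_inj (node_inj e1).1).1 (by simp)
  · change app (t3rv (R3 b (m + 1) (a + 1))) _ = _ at e1
    rw [rv_R3] at e1
    cases b with
    | zero => exact absurd (node_inj (node_inj e1).1).1 (by simp)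
    | succ b => exact absurd (node_inj (node_inj e1).1).1 (by simp)
  · exact absurd (node_inj (node_inj e1).2).1 (by simp [R3])
  · exact absurd (node_inj (node_inj e1).1).2 (by simp [R3])
  · exact absurd (node_inj (node_inj e1).1).1 (by simp)
  · exact absurd (node_inj e1).1 (by simp)
  · have h1 := hS _ e1
    have h2 := congrArg t3rv h1
    rw [hR] at h2
    have h3 : OddHC.ht R ≤ 3 := by
      rw [h2, t3rv_node, t3rv_node, t3rv_th]
      rw [OddHC.ht_app, OddHC.ht_app, OddHC.ht_app]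
      have g1 := ht_th b
      have g2 : OddHC.ht (t3rv .nil) = 0 := by rw [rv_nil, OddHC.ht]
      have g3 : OddHC.ht (((.nil △ .nil) △ .nil) △ .nil) = 3 := by
        rw [OddHC.ht_node, OddHC.ht_node, OddHC.ht_node, OddHC.ht]
        rfl
      rw [g2, g3]
      omega
    omega
  · have h1 := hS _ e1
    rw [h1] at hn
    exact absurd (nl_cons (nl_cons hn).2).1 (by decide)
  · exact absurd (node_inj e1).1 (by simp)
  · cases b with
    | zero => exact absurd (node_inj (node_inj e1).1).2 (by simp)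
    | succ b => exact absurd (node_inj (node_inj e1).1).1 (by simp)
  · cases b with
    | zero => exact absurd (node_inj (node_inj e1).1).2 (by simp)
    | succ b => exact absurd (node_inj (node_inj e1).1).1 (by simp)
  · cases b with
    | zero => exact absurd (node_inj (node_inj e1).1).1 (by simp [S3])
    | succ b => exact absurd (node_inj (node_inj e1).1).1 (by simp)
  · have h1 := (node_inj (node_inj e1).2).2
    change t3rv (S3 (m + 1) (a + 1)) = Z at h1
    rw [rv_S3] at h1
    rw [← h1] at hn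
    exact absurd (nl_cons hn).1 (by decide)
  · exact absurd (node_inj (node_inj e1).1).1 (by simp [S3])
  · cases b with
    | zero => exact absurd (node_inj e1).1 (by simp [th])
    | succ b => exact absurd (node_inj (node_inj e1).1).1 (by simp)
  · exact absurd (node_inj e1).1 (by simp)

/-- `(S()[2])` -/
theorem t3_S12 {S : BinaryTree Unit} (hm : 1 ≤ m) (h : hv S) (h0 : S ≠ .nil) {i : ℕ} (hi : i < 20)
    (e : w3 b m a i = (app S (.nil △ ((.nil △ .nil) △ .nil))) △ .nil) : False := by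
  obtain ⟨m, rfl⟩ : ∃ m', m = m' + 1 := ⟨m - 1, by omega⟩
  cases S with
  | nil => exact h0 rfl
  | node _ A C =>
    have hA : gd A := h.1
    rw [w3_fw b _ a i hi] at e
    change _ = (A △ app C _) △ .nil at e
    interval_cases i <;> rcases b with _ | _ | b <;>
      simp [fw3, th, app, L3_m, t3G, app_eq_nil] at e <;>
      (exfalso; obtain ⟨rfl, -⟩ := e; simp [gd, hv] at hA; done)

/-- `()S()[2]` -/
theorem t3_bS12 {S : BinaryTree Unit} (hm : 1 ≤ m) (h : hv S) (h0 : S ≠ .nil) {i : ℕ} (hi : i < 20)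
    (e : w3 b m a i = .nil △ (app S (.nil △ ((.nil △ .nil) △ .nil)))) : False := by
  obtain ⟨m, rfl⟩ : ∃ m', m = m' + 1 := ⟨m - 1, by omega⟩
  cases S with
  | nil => exact h0 rfl
  | node _ A C =>
    have hA : gd A := h.1
    rw [w3_fw b _ a i hi] at e
    change _ = .nil △ (A △ app C _) at e
    interval_cases i <;> rcases b with _ | _ | b <;>
      simp [fw3, th, app, L3_m, t3G, app_eq_nil] at e <;>
      (exfalso; obtain ⟨rfl, -⟩ := e; simp [gd, hv] at hA; done)

/-- **no common word** -/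
theorem w3_ne_aw {q : ℕ} {R B S : BinaryTree Unit} (hm : 1 ≤ m) (ha : 1 ≤ a) (h : Bare R B S) (hR : Hv q R)
    (hB : Hv q B) (hS : Hv q S) (ht : q + 3 < OddHC.ht R) {i j : ℕ} (hi : i < 20) (hj : j < 20) :
    w3 b m a i ≠ aw R (ch (q + 1)) B S j := by
  intro e
  have hp := p12_w3 (b := b) hm ha hi
  rw [e] at hp
  rcases p12_aw h hj hp with ⟨rfl, rfl⟩ | ⟨rfl, hj⟩
  · exact t3_R12 hm ha h.hR ht hi e
  · rcases hj with rfl | rfl | rfl | rfl | rfl | rfl
    · exact t3_btY hm hi e
    · exact not_hd_app hm h.hR hR h.R0 hi e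
    · exact not_hd_node hm h.hR hR h.R0 hi e
    · exact not_hd_app hm h.hS hS h.S0 hi e
    · by_cases hB0 : B = .nil
      · subst hB0
        exact t3_S12 hm h.hS h.S0 hi e
      · exact not_hd_app hm h.hB hB hB0 hi e
    · by_cases hB0 : B = .nil
      · subst hB0
        exact t3_bS12 hm h.hS h.S0 hi e
      · exact not_hd_node hm h.hB hB hB0 hi e

end H1

/-- **T - A0: no common word** -/
theorem TyA0.disT (h : TyA0 F g) (h' : TyT F' g') : ∀ w ∈ g.B, w ∉ g'.B := by
  obtain ⟨q, R, B, S, w0, h1, hne, rfl, rfl⟩ := h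
  obtain ⟨b, m, a, w0', h1', rfl, rfl⟩ := h'
  intro w hw hw'
  obtain ⟨i, hi, rfl⟩ := mem_gad20M.1 hw
  obtain ⟨j, hj, e⟩ := mem_gad20.1 hw'
  have e1 := congrArg Subtype.val e
  rw [h1'.word w0' hj, h1.word' w0 hi, ← H1.ch_eq] at e1
  have ht : q + 3 < OddHC.ht (Tsq.mir R) := h1.a0d.top
  exact H1.w3_ne_aw h1'.mpos h1'.pos h1.bareM h1.a0d.hv h1.a0d.hvB h1.a0d.hvS ht hj hi e1

theorem dj_A0T : Dj (k := k) TyA0 TyT := fun _ _ _ _ h h' _ => h.disT h'

theorem dj_TA0 : Dj (k := k) TyT TyA0 := fun _ _ _ _ h h' _ w hw hw' => h'.disT h w hw' hw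

end Pool.OddHC
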