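import Pool.Agent.Work.MP_8f87b2_h3.InJ3

/-!
# MP_8f87b2_co: the inner words of the one soliton gadgets against A

`InJ.not_A`: no condition for `k ≥ 10`.
-/

set_option autoImplicit false

namespace Pool.OddHC

open Finset Equiv BinaryTree Pool.Agent.Work.MP_8f87b2_co

variable {k n : ℕ} {F F' : Set (Cyc k)} {g g' : DG k}

namespace J

open H1 (FM)

theorem h3c_node (A X : BinaryTree Unit) : h3c (A △ X) = (raise (OddHC.cont A)).countP (3 ≤ ·) + h3c X := by
  unfold h3c
  rw [OddHC.cont_node, Multiset.countP_add]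

theorem h3c_nil : h3c (.nil : BinaryTree Unit) = 0 := by
  unfold h3c
  rw [OddHC.cont_nil]
  rfl

theorem h3c_hv {t : BinaryTree Unit} : H1.hv t → t ≠ .nil → 1 ≤ h3c t := by
  intro h h0
  have h1 := H1.hv_ht h h0
  cases t with
  | nil => exact absurd rfl h0
  | node _ A X =>
    have h2 : 2 ≤ OddHC.ht A := by
      rcases h.1 with h3 | ⟨h3, h4⟩
      · rw [h3]; decide
      · have := H1.hv_ht h4 h3
        rw [H1.ht_eq] at this
        omega
    have : 1 + h3c X ≤ h3c (A △ X) := h3c_node_pos h2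
    change 1 ≤ h3c (A △ X)
    omega

/-- a heavy tree with one part -/
theorem hv_one {t : BinaryTree Unit} : H1.hv t → h3c t ≤ 1 → t ≠ .nil → ∃ m, t = H1.ch (m + 3) := by
  induction t with
  | nil => intro _ _ h; exact absurd rfl h
  | node _ A X ihA _ =>
    intro h h1 _
    change h3c (A △ X) ≤ 1 at h1
    change ∃ m, A △ X = _
    have h2 : 2 ≤ OddHC.ht A := by
      rcases h.1 with h3 | ⟨h3, h4⟩
      · rw [h3]; decide
      · have := H1.hv_ht h4 h3
        rw [H1.ht_eq] at this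
        omega
    have h3 : 1 + h3c X ≤ h3c (A △ X) := h3c_node_pos h2
    have hX : X = .nil := by
      by_contra h0
      have := h3c_hv h.2 h0
      omega
    subst hX
    rcases h.1 with h4 | ⟨h4, h5⟩
    · exact ⟨0, by rw [h4]; rfl⟩
    · have h6 : h3c A ≤ 1 := by
        have := h3c_node A .nil
        have h7 := countP_raise (OddHC.cont A)
        unfold h3c at h1 this ⊢
        omega
      obtain ⟨m, hm⟩ := ihA h5 h6 h4
      exact ⟨m + 1, by rw [hm]; rfl⟩

/-- one soliton nodes of type A -/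
theorem NodeG_one {q : ℕ} {B1 H s B : BinaryTree Unit} (h : H1.NodeG k q B1 H s B)
    (h1 : h3c (H1.gR B1 H s B) ≤ 1) : B1 = .nil ∧ B = .nil ∧ ∃ m, s = H1.ch (m + 3) := by
  have h2 := h3c_hv h.hs h.s0
  have h3 : h3c B1 + ((0 + h3c s) + h3c B) ≤ h3c (H1.gR B1 H s B) :=
    h3c_app_le le_rfl (h3c_node_le (h3c_app_le (Nat.zero_le _) le_rfl) le_rfl)
  have hB : B = .nil := by
    by_contra h0
    have := h3c_hv h.hB h0
    omega
  have hB1 : B1 = .nil := by
    by_contra h0
    have := h3c_hv h.h1 h0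
    omega
  exact ⟨hB1, hB, hv_one h.hs (by omega) h.s0⟩

theorem sq_ch (m : ℕ) : Tsq.sq (H1.ch (m + 1)) = (H1.ch (m + 1), .nil) := by
  induction m with
  | zero => rfl
  | succ m ih =>
    change Tsq.sq (H1.ch (m + 1) △ .nil) = _
    have h0 : H1.ch (m + 1) ≠ .nil := by
      change H1.ch m △ .nil ≠ _
      simp
    rw [Tsq.sq_ge h0 (by rw [Tsq.ht]; omega), ih]
    rfl

theorem ht_chn (m : ℕ) : Tsq.ht (H1.ch m) = m := by
  rw [H1.ht_eq, H1.ch_ht]

theorem sq_one {H : BinaryTree Unit} (hH : H1.bl H = true) (m : ℕ) :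
    Tsq.sq (app H (H1.ch (m + 3)) △ .nil) = ((app H (H1.ch (m + 2)) △ .nil) △ .nil, .nil) := by
  have h2 := H1.bl_ht hH
  have h3 : app H (H1.ch (m + 3)) ≠ .nil := by
    intro e
    have := congrArg Tsq.ht e
    rw [Tsq.ht_app, ht_chn, Tsq.ht] at this
    omega
  rw [Tsq.sq_ge h3 (by rw [Tsq.ht]; omega), Tsq.sq_pre _ _ (by rw [ht_chn]; omega), sq_ch]
  rfl

theorem mir_ch (m : ℕ) : Tsq.mir (H1.ch m) = H1.ch m := by
  induction m with
  | zero => rfl
  | succ m ih =>
    change app .nil (Tsq.mir (H1.ch m) △ .nil) = H1.ch m △ .nil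
    rw [ih]
    rfl

theorem mir_one (A : BinaryTree Unit) : Tsq.mir (A △ .nil) = Tsq.mir A △ .nil := rfl

theorem PK_ch (m : ℕ) : PK (H1.ch (m + 3)) := by
  refine PK_hg (H1.hg_hv (H1.hv_ch m)) ?_
  change H1.ch (m + 2) △ .nil ≠ _
  simp

/-- the four words: 6, 9 -/
theorem InJ.no_69 {w Z : BinaryTree Unit} (h : InJ k w) {H : BinaryTree Unit} (hH : H1.bl H = true) {m : ℕ}
    (hZ : Tsq.ht Z ≤ m + 4)
    (e : w = (app H (H1.ch (m + 3)) △ .nil) △ Z ∨ w = ((app H (H1.ch (m + 3)) △ .nil) △ .nil) △ Z) : False := by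
  have hn : Tsq.ht (.nil : BinaryTree Unit) = 0 := rfl
  have h2 := H1.bl_ht hH
  have hc := ht_chn (m + 3)
  have hA : Tsq.ht (app H (H1.ch (m + 3))) = m + 3 := by rw [Tsq.ht_app, hc]; omega
  have k1 : PK (app H (H1.ch (m + 3)) △ .nil) :=
    ((PK_ch m).app_left (by rw [hc]; omega)).node (by rw [hn]; omega)
  have e2 : Tsq.mir (app H (H1.ch (m + 3))) = app (H1.ch (m + 3)) (Tsq.mir H) := by
    rw [Tsq.mir_app, mir_ch]
  have k2 : PK (Tsq.mir (app H (H1.ch (m + 3)) △ .nil)) := by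
    rw [mir_one, e2]
    exact ((PK_ch m).app_right (by rw [hc, ht_mir']; omega)).node (by rw [hn]; omega)
  have hB : Tsq.ht (app H (H1.ch (m + 3)) △ .nil) = m + 4 := by rw [Tsq.ht_node, hA, hn]; omega
  obtain ⟨n, h | h⟩ := h
  · rcases e with e | e <;> rw [e] at h
    · exact h.not_PK (k1.node (by rw [hB]; omega))
    · exact h.not_PK ((k1.node (by rw [hn]; omega)).node (by rw [Tsq.ht_node, hB]; omega))
  · rcases e with e | e <;> rw [e, Tsq.mir_node] at h
    · refine h.not_PK ((k2.node (by rw [hn]; omega)).app_left ?_)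
      rw [ht_mir', Tsq.ht_node, ht_mir', hB]
      omega
    · rw [mir_one (app H (H1.ch (m + 3)) △ .nil)] at h
      refine h.not_PK (((k2.node (by rw [hn]; omega)).node (by rw [hn]; omega)).app_left ?_)
      rw [ht_mir', Tsq.ht_node, Tsq.ht_node, ht_mir', hB]
      omega

/-- the four words: 15, 17 -/
theorem InJ.no_1517 {w S : BinaryTree Unit} (h : InJ k w) {H : BinaryTree Unit} (hH : H1.bl H = true) {m q : ℕ}
    (hS : S = (app H (H1.ch (m + 2)) △ .nil) △ .nil) (hq : q ≤ m + 1) (h3 : m = 0 → H.numNodes ≠ 1)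
    (e : w = H1.ch (q + 1) △ (S △ .nil) ∨ w = app (H1.ch (q + 1)) ((S △ .nil) △ .nil)) : False := by
  have hn : Tsq.ht (.nil : BinaryTree Unit) = 0 := rfl
  have h2 := H1.bl_ht hH
  have hc := ht_chn (m + 2)
  have hT : Tsq.ht (app H (H1.ch (m + 2))) = m + 2 := by rw [Tsq.ht_app, hc]; omega
  have hS4 : Tsq.ht S = m + 4 := by rw [hS, Tsq.ht_node, Tsq.ht_node, hT, hn]; omega
  have hQ := ht_chn (q + 1)
  have e2 : Tsq.mir (app H (H1.ch (m + 2))) = app (H1.ch (m + 2)) (Tsq.mir H) := by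
    rw [Tsq.mir_app, mir_ch]
  have hmS : Tsq.mir S = (app (H1.ch (m + 2)) (Tsq.mir H) △ .nil) △ .nil := by
    rw [hS, mir_one, mir_one, e2]
  have eA : w = H1.ch (q + 1) △ (S △ .nil) → w = app (H1.ch (q + 1) △ .nil) (S △ .nil) := fun h => h
  have mA : w = H1.ch (q + 1) △ (S △ .nil) → Tsq.mir w = Tsq.mir S △ (H1.ch (q + 1) △ .nil) := by
    intro e
    rw [e, Tsq.mir_node, mir_one, mir_ch]
    rfl
  have mB : w = app (H1.ch (q + 1)) ((S △ .nil) △ .nil) →
      Tsq.mir w = (Tsq.mir S △ .nil) △ H1.ch (q + 1) := by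
    intro e
    rw [e, Tsq.mir_app, mir_one, mir_one, mir_ch]
    rfl
  rcases Nat.eq_zero_or_pos m with rfl | hm
  · -- light top
    have hnum : (app H (H1.ch 2)).numNodes = H.numNodes + 2 := by
      rw [num_app, Ring1.ch_num]
    have hb : H1.bl (app H (H1.ch 2)) = true := by
      rw [bl_app, hH]
      rfl
    have h4 := h3 rfl
    have fin : ∀ {n : ℕ} {w : BinaryTree Unit}, InnJ k n w → LTp (app H (H1.ch 2)) w → False := by
      intro n w h5 h6
      have := h5.light_top hb hT h6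
      omega
    have fin' : ∀ {n : ℕ} {w : BinaryTree Unit}, InnJ k n w → LTp (app (H1.ch 2) (Tsq.mir H)) w → False := by
      intro n w h5 h6
      have h7 := h5.light_top (T := app (H1.ch 2) (Tsq.mir H)) (by rw [← e2]; exact bl_mir hb)
        (by rw [← e2, ht_mir']; exact hT) h6
      rw [← e2, Tsq.mir_num] at h7
      have h8 : (app H (H1.ch 2)).numNodes = 3 := h7
      omega
    have hT' : Tsq.ht (app (H1.ch 2) (Tsq.mir H)) = 2 := by rw [← e2, ht_mir']; exact hT
    have k1 : LTp (app H (H1.ch 2)) S := by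
      rw [hS]
      exact (LTp.base (by rw [hn]; omega)).node (by rw [hn]; omega)
    have k2 : LTp (app (H1.ch 2) (Tsq.mir H)) (Tsq.mir S) := by
      rw [hmS]
      exact (LTp.base (by rw [hn]; omega)).node (by rw [hn]; omega)
    obtain ⟨n, h | h⟩ := h
    · rcases e with e | e
      · rw [eA e] at h
        refine fin h ((k1.node (by rw [hn]; omega)).app_left ?_)
        rw [Tsq.ht_node, Tsq.ht_node, hQ, hS4, hn]
        omega
      · rw [e] at h
        refine fin h (((k1.node (by rw [hn]; omega)).node (by rw [hn]; omega)).app_left ?_)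
        rw [Tsq.ht_node, Tsq.ht_node, hQ, hS4, hn]
        omega
    · rcases e with e | e
      · rw [mA e] at h
        refine fin' h (k2.node ?_)
        rw [ht_mir', hS4, Tsq.ht_node, hQ, hn]
        omega
      · rw [mB e] at h
        refine fin' h ((k2.node (by rw [hn]; omega)).node ?_)
        rw [Tsq.ht_node, ht_mir', hS4, hQ, hn]
        omega
  · obtain ⟨m, rfl⟩ : ∃ c, m = c + 1 := ⟨m - 1, by omega⟩
    have k1 : PK S := by
      rw [hS]
      exact (((PK_ch m).app_left (by rw [hc]; omega)).node (by rw [hn]; omega)).node (by rw [hn]; omega)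
    have k2 : PK (Tsq.mir S) := by
      rw [hmS]
      exact (((PK_ch m).app_right (by rw [hc, ht_mir']; omega)).node (by rw [hn]; omega)).node
        (by rw [hn]; omega)
    obtain ⟨n, h | h⟩ := h
    · rcases e with e | e
      · rw [eA e] at h
        refine h.not_PK ((k1.node (by rw [hn]; omega)).app_left ?_)
        rw [Tsq.ht_node, Tsq.ht_node, hQ, hS4, hn]
        omega
      · rw [e] at h
        refine h.not_PK (((k1.node (by rw [hn]; omega)).node (by rw [hn]; omega)).app_left ?_)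
        rw [Tsq.ht_node, Tsq.ht_node, hQ, hS4, hn]
        omega
    · rcases e with e | e
      · rw [mA e] at h
        refine h.not_PK (k2.node ?_)
        rw [ht_mir', hS4, Tsq.ht_node, hQ, hn]
        omega
      · rw [mB e] at h
        refine h.not_PK ((k2.node (by rw [hn]; omega)).node ?_)
        rw [Tsq.ht_node, ht_mir', hS4, hQ, hn]
        omega

theorem gR_nil (H s : BinaryTree Unit) : H1.gR .nil H s .nil = app H s △ .nil := rfl

/-- **A** -/
theorem InJ.no_A {w : BinaryTree Unit} (h : InJ k w) {q : ℕ} {B1 H s B : BinaryTree Unit}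
    (h1 : H1.NodeG k q B1 H s B) (hk : 10 ≤ k ∨ Tsq.ht w + 4 ≤ k) {i : ℕ} (hi : i < 20)
    (e : w = H1.W (H1.gR B1 H s B) (H1.ch (q + 1)) B (Tsq.sq (H1.gR B1 H s B)).1 i) : False := by
  have hn : Tsq.ht (.nil : BinaryTree Unit) = 0 := rfl
  have hR0 : H1.gR B1 H s B ≠ .nil := by
    intro e1
    have := h1.ht
    rw [e1, OddHC.ht] at this
    omega
  rcases Nat.lt_or_ge 1 (h3c (H1.gR B1 H s B)) with hc | hc
  · exact h.no_W (h3c_sq h1.dat.sq hR0) hc hi (Or.inl e)
  obtain ⟨rfl, rfl, m, rfl⟩ := NodeG_one h1 hc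
  have hbig : q ≤ m + 1 := by
    have h2 := h1.big
    rw [H1.ch_ht] at h2
    omega
  have hsize := h1.size
  rw [gR_nil] at e hsize
  rw [sq_one h1.light] at e
  have hH := h1.light
  have hH2 := H1.bl_ht hH
  have hA : Tsq.ht (app H (H1.ch (m + 3))) = m + 3 := by rw [Tsq.ht_app, ht_chn]; omega
  have hA1 : app H (H1.ch (m + 3)) ≠ l1 := by
    intro e1
    rw [e1] at hA
    have h5 : Tsq.ht l1 = 1 := by rw [H1.ht_eq]; rfl
    omega
  have hAn : (app H (H1.ch (m + 3))).numNodes = H.numNodes + (m + 3) := by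
    rw [num_app, Ring1.ch_num]
  have hSht : Tsq.ht (app H (H1.ch (m + 2)) △ .nil) = m + 3 := by
    rw [Tsq.ht_node, Tsq.ht_app, ht_chn, hn]
    omega
  have hS1 : app H (H1.ch (m + 2)) △ .nil ≠ l1 := by
    intro e1
    have h6 := congrArg Tsq.ht e1
    have h5 : Tsq.ht l1 = 1 := by rw [H1.ht_eq]; rfl
    rw [h5] at h6
    omega
  have hQ1 : H1.ch (q + 1) △ .nil ≠ l1 := ch_ne_l1 (c := q + 2) (by omega)
  have hQn : (H1.ch (q + 1)).numNodes = q + 1 := Ring1.ch_num _
  generalize hR : app H (H1.ch (m + 3)) = A at *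
  generalize hSS : app H (H1.ch (m + 2)) △ .nil = S1 at *
  have hk8 : (A △ BinaryTree.nil).numNodes = H.numNodes + (m + 3) + 1 := by
    simp only [BinaryTree.numNodes]
    omega
  interval_cases i
  · exact h.two (u := [A]) (v := [H1.ch (q + 1) △ .nil]) (by rw [e]; rfl)
      ⟨_, List.mem_cons_self, hA1⟩ ⟨_, List.mem_cons_self, hQ1⟩
  · refine h.no_N ?_
    rw [e]
    simp [H1.W, OddHC.app]
  · refine h.no_N ?_
    rw [e]
    simp [H1.W]
  · refine h.comp (X := A △ (.nil △ H1.ch (q + 1))) (by rw [e]; exact List.mem_cons_self) (ne_l1_num ?_) ?_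
    · simp only [BinaryTree.numNodes]; omega
    · simp
  · refine h.two (u := [app (H1.ch (q + 1)) (.nil △ .nil)]) (v := [A]) (by rw [e]; rfl)
      ⟨_, List.mem_cons_self, ne_l1_num ?_⟩ ⟨_, List.mem_cons_self, hA1⟩
    rw [num_app, hQn]
    simp only [BinaryTree.numNodes]
    omega
  · refine h.no_N ?_
    rw [e]
    simp [H1.W]
  · rw [← hR] at e
    refine h.no_69 hH (m := m) (Z := H1.ch (q + 1) △ .nil) ?_ (Or.inl e)
    rw [Tsq.ht_node, ht_chn, hn]
    omega
  · refine h.comp (X := .nil △ (A △ .nil)) ?_ (ne_l1_num ?_) ?_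
    · rw [e]
      change _ ∈ cs (app (H1.ch (q + 1)) ((.nil △ (A △ .nil)) △ .nil))
      rw [cs_app]
      exact List.mem_append_right _ List.mem_cons_self
    · simp only [BinaryTree.numNodes]; omega
    · simp
  · refine h.no_N ?_
    rw [e]
    simp [H1.W]
  · rw [← hR] at e
    refine h.no_69 hH (m := m) (Z := H1.ch (q + 1)) ?_ (Or.inr e)
    rw [ht_chn]
    omega
  · exact h.two (u := [H1.ch (q + 1) △ .nil]) (v := [S1]) (by rw [e]; rfl)
      ⟨_, List.mem_cons_self, hQ1⟩ ⟨_, List.mem_cons_self, hS1⟩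
  · refine h.no_N ?_
    rw [e]
    simp [H1.W, OddHC.app]
  · refine h.no_N ?_
    rw [e]
    simp [H1.W, OddHC.app]
  · refine h.comp (X := .nil △ H1.ch (q + 1)) (by rw [e]; simp [H1.W, OddHC.app]) (ne_l1_num ?_) ?_
    · simp only [BinaryTree.numNodes]; omega
    · simp
  · refine h.comp (X := app (H1.ch (q + 1)) (.nil △ (S1 △ .nil))) (by rw [e]; exact List.mem_cons_self)
      (ne_l1_num ?_) ?_
    · rw [num_app]; simp only [BinaryTree.numNodes]; omega
    · simp
  · rcases Nat.eq_zero_or_pos q with rfl | hq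
    · refine h.no_1517 hH (m := m) (q := 0) rfl hbig ?_ (Or.inl (by rw [hSS]; exact e))
      rintro rfl h5
      rcases hk with hk | hk
      · omega
      · have h8 : Tsq.ht w = 5 := by
          rw [e]
          change Tsq.ht (H1.ch (0 + 1) △ ((S1 △ .nil) △ .nil)) = 5
          rw [Tsq.ht_node, Tsq.ht_node, Tsq.ht_node, hSht, ht_chn, hn]
          omega
        omega
    · refine h.two (u := [H1.ch (q + 1)]) (v := [S1 △ .nil]) (by rw [e]; rfl)
        ⟨_, List.mem_cons_self, ch_ne_l1 (by omega)⟩ ⟨_, List.mem_cons_self, ?_⟩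
      intro e1
      have h6 := congrArg Tsq.ht e1
      have h5 : Tsq.ht l1 = 1 := by rw [H1.ht_eq]; rfl
      rw [h5, Tsq.ht_node, hSht] at h6
      omega
  · refine h.no_N ?_
    rw [e]
    simp [H1.W, OddHC.app]
  · rcases Nat.eq_zero_or_pos q with rfl | hq
    · refine h.no_N ?_
      rw [e]
      exact List.mem_cons_self
    · refine h.no_1517 hH (m := m) (q := q) rfl hbig ?_ (Or.inr (by rw [hSS]; exact e))
      rintro rfl h5
      rcases hk with hk | hk
      · omega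
      · have h8 : Tsq.ht w = 6 := by
          rw [e]
          change Tsq.ht (app (H1.ch (q + 1)) ((((S1 △ .nil) △ .nil) △ .nil))) = 6
          rw [Tsq.ht_app, Tsq.ht_node, Tsq.ht_node, Tsq.ht_node, hSht, ht_chn, hn]
          omega
        omega
  · refine h.no_N ?_
    rw [e]
    simp [H1.W]
  · refine h.comp (X := app (S1 △ .nil) (.nil △ .nil)) (by rw [e]; exact List.mem_cons_self)
      (ne_l1_num ?_) ?_
    · rw [num_app]; simp only [BinaryTree.numNodes]; omega
    · simp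

theorem InJ.not_A {w : X k} (h : InJ k w.1) (h' : TyA F' g') (hk : 10 ≤ k ∨ Tsq.ht w.1 + 4 ≤ k) :
    w ∉ g'.B := by
  obtain ⟨q, B1, H, s, B, w0, h1, rfl, rfl⟩ := h'
  intro hw
  obtain ⟨i, hi, e⟩ := mem_gad20.1 hw
  refine h.no_A h1 hk hi ?_
  rw [← e]
  exact h1.word w0 hi

end J

open J

/-- **I-JM-A** -/
theorem TyJM.inner_A (h : TyJM F g) (hs : OneF F) (h' : TyA F' g') (hk : 10 ≤ k) :
    ∀ p ∈ g.arcs, ∀ w ∈ innA p, w ∉ g'.B :=
  fun p hp w hw => (h.innJ hs p hp w hw).not_A h' (Or.inl hk)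

theorem J.ht_pw {R : BinaryTree Unit} (hR : 1 ≤ Tsq.ht R) {i : ℕ} (hi : i ∈ [1, 3, 6, 8]) :
    Tsq.ht (pw R i) ≤ Tsq.ht R + 1 := by
  have hn : Tsq.ht (.nil : BinaryTree Unit) = 0 := rfl
  simp only [List.mem_cons, List.not_mem_nil, or_false] at hi
  rcases hi with rfl | rfl | rfl | rfl
  · change Tsq.ht (app R (.nil △ (.nil △ .nil))) ≤ _
    rw [Tsq.ht_app, Tsq.ht_node, Tsq.ht_node, hn]; omega
  · change Tsq.ht (app R (.nil △ .nil) △ .nil) ≤ _
    rw [Tsq.ht_node, Tsq.ht_app, Tsq.ht_node, hn]; omega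
  · change Tsq.ht (R △ (.nil △ .nil)) ≤ _
    rw [Tsq.ht_node, Tsq.ht_node, hn]; omega
  · change Tsq.ht (app (.nil △ .nil) (R △ .nil)) ≤ _
    rw [Tsq.ht_app, Tsq.ht_node, Tsq.ht_node, hn]; omega

theorem J.Sh.ht_innM {p t u : ℕ} {D D' : BinaryTree Unit} (h : Sh k p D t D' u) (w0 : X k) {i j : ℕ}
    (hij : (i, j) ∈ [(0, 10), (1, 11), (3, 12), (6, 15), (8, 14), (9, 17)]) (hi : i ∈ [1, 3, 6, 8]) :
    Tsq.ht (TT (jM p D t D' u w0 j)).1 ≤ Tsq.ht (RR p D t) + 1 := by
  have hi' : i < 10 := by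
    simp only [List.mem_cons, List.not_mem_nil, or_false] at hi
    omega
  have e1 : TT (jM p D t D' u w0 j) = Tsq.mirX (TT (jX p D t D' u w0 i)) := by
    change TT (Tsq.mirX (jX p D t D' u w0 j)) = _
    rw [← h.link w0 hij]
    exact Tsq.TT_mir _
  have e2 : Tsq.ht (TT (jM p D t D' u w0 j)).1 = Tsq.ht (jX p D t D' u w0 i).1 := by
    rw [e1]
    change Tsq.ht (Tsq.mir (TT (jX p D t D' u w0 i)).1) = _
    rw [ht_mir', ht_TT']
  rw [e2, h.word_lo w0 hi']
  have := h.htR
  exact ht_pw (by omega) hi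

theorem TyJM.inn_ht (h : TyJM F g) : ∀ p ∈ g.arcs, ∀ w ∈ innA p, ∀ c ∈ F, Tsq.ht w.1 ≤ htc c + 1 := by
  obtain ⟨p, D, t, D', u, w0, h1, hp, rfl, rfl⟩ := h
  have h3 := h1.htR
  intro q hq w hw c hc
  have hc' : Tsq.ht (RR p D t) = htc c := by
    have e1 : contc c = OddHC.cont (RR p D t) + {2} := by
      rcases hc with rfl | rfl
      · exact h1.cont0M w0
      · exact h1.cont4M w0
    have e2 : htc c = (contc c).sup := rfl
    rw [e2, e1, Multiset.sup_add, Multiset.sup_singleton, ← OddHC.ht_eq, H1.ht_eq]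
    rw [H1.ht_eq] at h3
    omega
  rw [← hc']
  have hp' : q = (jM p D t D' u w0 11, jM p D t D' u w0 1) ∨
      q = (jM p D t D' u w0 12, jM p D t D' u w0 3) ∨
      q = (jM p D t D' u w0 15, jM p D t D' u w0 6) ∨
      q = (jM p D t D' u w0 14, jM p D t D' u w0 8) := hq
  rcases hp' with rfl | rfl | rfl | rfl
  · obtain rfl : w = TT (jM p D t D' u w0 11) := hw
    exact h1.ht_innM w0 (i := 1) (by simp) (by simp)
  · obtain rfl : w = TT (jM p D t D' u w0 12) := hw
    exact h1.ht_innM w0 (i := 3) (by simp) (by simp)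
  · obtain rfl : w = TT (jM p D t D' u w0 15) := hw
    exact h1.ht_innM w0 (i := 6) (by simp) (by simp)
  · obtain rfl : w = TT (jM p D t D' u w0 14) := hw
    exact h1.ht_innM w0 (i := 8) (by simp) (by simp)

/-- **I-JM-A** for the middle heights -/
theorem TyJM.inner_A' (h : TyJM F g) (hs : OneF F) (h' : TyA F' g') (hk : ∀ c ∈ F, htc c + 5 ≤ k)
    (hF : F.Nonempty) : ∀ p ∈ g.arcs, ∀ w ∈ innA p, w ∉ g'.B := by
  obtain ⟨c, hc⟩ := hF
  intro p hp w hw
  refine (h.innJ hs p hp w hw).not_A h' (Or.inr ?_)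
  have h1 := h.inn_ht p hp w hw c hc
  have h2 := hk c hc
  omega

end Pool.OddHC
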