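import Pool.Agent.Work.MP_8f87b2_h3.RqL1
import Pool.Agent.Work.MP_8f87b2_h35.TyRqE

/-!
# MP_8f87b2_co: rows I-L1-Rq, I-L1-Sq, I-L1-RqE

Every word of a right window has at least two parts `≥ 3`, the inner words of L1 have exactly one.
-/

set_option autoImplicit false

namespace Pool.OddHC

open Finset Equiv BinaryTree Pool.Agent.Work.MP_8f87b2_co

variable {k : ℕ} {F F' : Set (Cyc k)} {g g' : DG k}

namespace L1

open H1 J

variable {n : ℕ} {R Q B S : BinaryTree Unit}

theorem cp_raise_le {p : ℕ} (hp : 1 ≤ p) (M : Multiset ℕ) : cp p M ≤ cp p (raise M) := by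
  rcases le_or_gt p M.sup with h | h
  · rw [cp_raise h hp]
  · have : cp p M = 0 := by
      unfold cp
      rw [Multiset.countP_eq_zero]
      intro x hx
      have : x ≤ M.sup := Multiset.le_sup hx
      omega
    omega

/-- parts `≥ p` of a tree -/
def ct (p : ℕ) (t : BinaryTree Unit) : ℕ := cp p (cont t)

theorem ct_app (p : ℕ) (A B : BinaryTree Unit) : ct p (app A B) = ct p A + ct p B := by
  unfold ct
  rw [cont_app, cp_add]

theorem ct_node {p : ℕ} (hp : 1 ≤ p) (A B : BinaryTree Unit) : ct p A + ct p B ≤ ct p (A △ B) := by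
  unfold ct
  rw [cont_node, cp_add]
  have := cp_raise_le hp (cont A)
  omega

/-- **every word has at least the parts of `R`** -/
theorem ct_W {p : ℕ} (hp : 1 ≤ p) (h : ct p B + ct p S = ct p R) {i : ℕ} (hi : i < 20) :
    ct p R ≤ ct p (W R Q B S i) := by
  have n := fun A B => ct_node (p := p) hp A B
  have a := ct_app p
  interval_cases i
  · change _ ≤ ct p (app R _); rw [a]; omega
  · change _ ≤ ct p (app R _); rw [a]; omega
  · change _ ≤ ct p (.nil △ app R _); have := n .nil (app R (.nil △ Q)); rw [a] at this; omega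
  · change _ ≤ ct p (app R (.nil △ Q) △ .nil); have := n (app R (.nil △ Q)) .nil; rw [a] at this; omega
  · change _ ≤ ct p (app Q (.nil △ .nil) △ R); have := n (app Q (.nil △ .nil)) R; omega
  · change _ ≤ ct p (Q △ (.nil △ R)); have h1 := n Q (.nil △ R); have h2 := n .nil R; omega
  · change _ ≤ ct p (R △ (Q △ .nil)); have := n R (Q △ .nil); omega
  · change _ ≤ ct p (app Q ((.nil △ R) △ .nil)); rw [a]; have h1 := n (.nil △ R) .nil; have h2 := n .nil R; omega
  · change _ ≤ ct p (app Q (.nil △ (R △ .nil))); rw [a]; have h1 := n .nil (R △ .nil); have h2 := n R .nil; omega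
  · change _ ≤ ct p ((R △ .nil) △ Q); have h1 := n (R △ .nil) Q; have h2 := n R .nil; omega
  · change _ ≤ ct p (app B ((Q △ .nil) △ S)); rw [a]; have h1 := n (Q △ .nil) S; omega
  · change _ ≤ ct p (app B (.nil △ app Q (.nil △ S))); rw [a]; have h1 := n .nil (app Q (.nil △ S))
    rw [a] at h1; have h2 := n .nil S; omega
  · change _ ≤ ct p (S △ app B (.nil △ Q)); have h1 := n S (app B (.nil △ Q)); rw [a] at h1; omega
  · change _ ≤ ct p (app S (app B (.nil △ Q) △ .nil)); rw [a]; have h1 := n (app B (.nil △ Q)) .nil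
    rw [a] at h1; omega
  · change _ ≤ ct p (app Q (.nil △ S) △ B); have h1 := n (app Q (.nil △ S)) B; rw [a] at h1
    have h2 := n .nil S; omega
  · change _ ≤ ct p (Q △ (S △ B)); have h1 := n Q (S △ B); have h2 := n S B; omega
  · change _ ≤ ct p (app S (B △ (Q △ .nil))); rw [a]; have h1 := n B (Q △ .nil); omega
  · change _ ≤ ct p (app Q ((S △ B) △ .nil)); rw [a]; have h1 := n (S △ B) .nil; have h2 := n S B; omega
  · change _ ≤ ct p (app Q (.nil △ app S (B △ .nil))); rw [a]; have h1 := n .nil (app S (B △ .nil))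
    rw [a] at h1; have h2 := n B .nil; omega
  · change _ ≤ ct p (app S (B △ .nil) △ Q); have h1 := n (app S (B △ .nil)) Q; rw [a] at h1
    have h2 := n B .nil; omega

theorem contTT (x : X k) : cont (TT x).1 = cont x.1 := cont_same ⟨-1, by simp⟩

/-- the four words with inner words have one part `≥ 3` -/
theorem ct_inn (hn : 1 ≤ n) (Φ : ZMod (2 * n + 1) → ℕ) {B S : BinaryTree Unit} {i : ℕ} (hi : i ∈ [1, 3, 6, 8]) :
    ct 3 (W (RH n Φ) .nil B S i) = 1 := by
  have hs : (cont (RH n Φ)).sup = n + 2 := by rw [← ht_eq, ht_RH hn]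
  have h1 : cp 3 (cont (RH n Φ)) = 1 := by
    rw [cont_RH hn, cp_add, cp_add, cp_one, cp_one, cp_rep 3 _ 2 (by norm_num), if_pos (by omega),
      if_neg (by norm_num)]
  have c0 : cont (.nil : BinaryTree Unit) = 0 := rfl
  have c1 : cont (.nil △ .nil : BinaryTree Unit) = {1} := rfl
  have cn : ∀ X : BinaryTree Unit, cont (.nil △ X) = {1} + cont X := fun X => rfl
  have k1 : cp 3 {1} = 0 := by rw [cp_one, if_neg (by norm_num)]
  simp only [List.mem_cons, List.not_mem_nil, or_false] at hi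
  unfold ct
  rcases hi with rfl | rfl | rfl | rfl
  · change cp 3 (cont (app (RH n Φ) (.nil △ (.nil △ .nil)))) = 1
    rw [cont_app, cn, c1, cp_add, cp_add, h1, k1]
  · change cp 3 (cont (app (RH n Φ) (.nil △ .nil) △ .nil)) = 1
    rw [cont_node, c0, add_zero, cont_app, c1, cp_raise (by rw [sup_add']; omega) (by norm_num), cp_add, h1, k1]
  · change cp 3 (cont (RH n Φ △ (.nil △ .nil))) = 1
    rw [cont_node, c1, cp_add, cp_raise (by omega) (by norm_num), h1, k1]
  · change cp 3 (cont (.nil △ (RH n Φ △ .nil))) = 1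
    rw [cn, cont_node, c0, add_zero, cp_add, cp_raise (by omega) (by norm_num), h1, k1]

end L1

open L1

/-- **the inner words of L1 have exactly one part `≥ 3`** -/
theorem TyL1.inn_ct (h : TyL1 F g) : ∀ p ∈ g.arcs, ∀ w ∈ innA p, ct 3 w.1 = 1 := by
  intro p hp w hw
  have hwi : w = TT p.1 := hw
  subst hwi
  have hlt : ∀ i ∈ [1, 3, 6, 8], i < 20 := by decide
  rcases h with ⟨n, Φ, w0, hb, hr, rfl, rfl⟩ | ⟨n, Φ, w0, hb, hr, rfl, rfl⟩
  · have key : ∀ i ∈ [1, 3, 6, 8], p.1 = xw n Φ w0 i → ct 3 (TT p.1).1 = 1 := by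
      intro i hi e
      unfold ct
      rw [contTT, e, xw_val hb.hn hb.hk w0 (hlt i hi)]
      exact ct_inn hb.hn Φ hi
    rcases hp with e | e | e | e
    · exact key 1 (by simp) (congrArg Prod.fst e)
    · exact key 3 (by simp) (congrArg Prod.fst e)
    · exact key 6 (by simp) (congrArg Prod.fst e)
    · exact key 8 (by simp) (congrArg Prod.fst e)
  · have hkr : n + 5 + 2 * ∑ x, J.rf Φ x = k := by rw [J.rf_sum]; exact hb.hk
    have key : ∀ i j, (i, j) ∈ [(1, 11), (3, 12), (6, 15), (8, 14)] → p.1 = xm n Φ w0 j →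
        ct 3 (TT p.1).1 = 1 := by
      intro i j hij e
      have hi : i ∈ [1, 3, 6, 8] := by
        simp only [List.mem_cons, Prod.mk.injEq, List.not_mem_nil, or_false] at hij ⊢
        omega
      have hij' : (i, j) ∈ [(0, 10), (1, 11), (3, 12), (6, 15), (8, 14), (9, 17)] := by
        simp only [List.mem_cons, Prod.mk.injEq, List.not_mem_nil, or_false] at hij ⊢
        omega
      have h2 : TT (TT (xw n (J.rf Φ) w0 i)) = xw n (J.rf Φ) w0 j := (GR_RH hb.hn (J.rf Φ) hkr).link w0 hij'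
      have e3 : OddHC.cont (TT p.1).1 = OddHC.cont (xw n (J.rf Φ) w0 i).1 := by
        rw [contTT, e]
        change OddHC.cont (Tsq.mir (xw n (J.rf Φ) w0 j).1) = _
        rw [HM.cont_mir, ← h2, contTT, contTT]
      unfold ct
      rw [e3, xw_val hb.hn hkr w0 (hlt i hi)]
      exact ct_inn hb.hn (J.rf Φ) hi
    rcases hp with e | e | e | e
    · exact key 1 11 (by simp) (congrArg Prod.fst e)
    · exact key 3 12 (by simp) (congrArg Prod.fst e)
    · exact key 6 15 (by simp) (congrArg Prod.fst e)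
    · exact key 8 14 (by simp) (congrArg Prod.fst e)

/-- the words of the right windows have at least two parts `≥ 3` -/
theorem HM.NodeM.ct_word {q : ℕ} {R B S : BinaryTree Unit} (h : HM.NodeM k q R B S) (w0 : X k) {i : ℕ} (hi : i < 20) :
    2 ≤ ct 3 (H1.wX R B S q w0 i).1 := by
  rw [H1.wX_eq h.dat h.size w0 hi]
  have h1 : ct 3 R = Multiset.card (cont R) := by
    unfold ct cp
    rw [Multiset.countP_eq_card]
    intro x hx
    have := h.part x hx
    omega
  have h2 := h.two_card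
  refine (h1 ▸ h2 : 2 ≤ ct 3 R).trans (ct_W (by norm_num) ?_ hi)
  unfold ct
  rw [← cp_add, h.dat.cont]

/-- **row I-L1-Rq** -/
theorem TyL1.inner_Rq {q : ℕ} (h : TyL1 F g) (h' : TyRq q F' g') : ∀ p ∈ g.arcs, ∀ w ∈ innA p, w ∉ g'.B := by
  intro p hp w hw hw'
  obtain ⟨R, B, S, w0, i, h1, hi, rfl, _⟩ := h'.words w hw'
  have h2 := h.inn_ct p hp _ hw
  have h3 := h1.ct_word w0 hi
  omega

theorem TyL1.inner_Sq {q : ℕ} (h : TyL1 F g) (h' : TySq q F' g') : ∀ p ∈ g.arcs, ∀ w ∈ innA p, w ∉ g'.B := by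
  intro p hp w hw hw'
  obtain ⟨R, B, S, w0, i, h1, hi, rfl, _⟩ := h'.words' w hw'
  have h2 := h.inn_ct p hp _ hw
  have h3 := h1.ct_word w0 hi
  omega

theorem TyL1.inner_RqE {q : ℕ} (h : TyL1 F g) (h' : TyRqE q F' g') : ∀ p ∈ g.arcs, ∀ w ∈ innA p, w ∉ g'.B := by
  intro p hp w hw hw'
  obtain ⟨R, B, S, w0, i, h1, hi, rfl, _⟩ := h'.words' w hw'
  have h2 := h.inn_ct p hp _ hw
  have h3 := h1.ct_word w0 hi
  omega

end Pool.OddHC
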