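import Pool.Agent.Work.MP_8f87b2_h3.A0T
import Pool.Agent.Work.MP_8f87b2_h40.TyJM
import Pool.Agent.Work.MP_8f87b2_h40.JG
import Pool.Agent.Work.MP_8f87b2_h60.TyB0

/-!
# MP_8f87b2_co: the inner words of the windows of height 3 against A0, B0 and against the one soliton gadgets

`TyT.inner_A0`, `TyT.inner_B0`, `TyT.inner_J` (no word of the form `IsPu`, `IsUs`, `IsMx`), `TyT.inner_JM`.
`TyB0.disT`: words of B0 against words of T.
-/

set_option autoImplicit false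

namespace Pool.OddHC

open BinaryTree Multiset Equiv Pool.Agent.Work.MP_8f87b2_co HM

variable {k : ℕ} {F F' : Set (Cyc k)} {g g' : DG k}

namespace H1

variable {b m a : ℕ}

theorem F3_two (hm : 1 ≤ m) : ∃ X, t3F m = .nil △ (.nil △ X) := by
  obtain ⟨m, rfl⟩ : ∃ m', m = m' + 1 := ⟨m - 1, by omega⟩
  cases m with
  | zero => exact ⟨_, rfl⟩
  | succ m => exact ⟨_, rfl⟩

theorem Y3_hd (i : ℕ) : t3hd (t3Y b m a i) = t3F m := rfl

theorem gd_ne_two {A X : BinaryTree Unit} (h : gd A) : A ≠ .nil △ (.nil △ X) := by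
  rintro rfl
  rcases h with h | ⟨_, h⟩
  · simp at h
  · exact gd_ne h.1 rfl

theorem hv_hd {P : BinaryTree Unit} (h : hv P) (h0 : P ≠ .nil) (X : BinaryTree Unit) : gd (t3hd (app P X)) := by
  cases P with
  | nil => exact absurd rfl h0
  | node _ A C => exact h.1

theorem hv_ne_two {P X : BinaryTree Unit} (h : hv P) : P ≠ .nil △ (.nil △ X) := by
  rintro rfl
  exact gd_ne h.1 rfl

theorem hv_app_ne_two {P Y X : BinaryTree Unit} (h : hv P) (h0 : P ≠ .nil) : app P Y ≠ .nil △ (.nil △ X) := by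
  intro e
  have := hv_hd h h0 Y
  rw [e] at this
  exact gd_ne this rfl

theorem ch_ne_two (n : ℕ) (X : BinaryTree Unit) : ch n ≠ .nil △ (.nil △ X) := by
  cases n with
  | zero => simp [ch]
  | succ n => simp [ch]

theorem M3_gd (i : ℕ) (h : gd (t3M i)) : t3M i = (.nil △ .nil) △ .nil := by
  unfold t3M at h ⊢
  split at h
  · simp [gd, hv] at h
  · simp [gd, hv] at h
  · simp [gd, hv] at h
  · simp [gd, hv] at h
  · simp [gd, hv] at h
  · rfl

theorem ht_Z3 (i : ℕ) (hv3 : hv (t3Z i)) : OddHC.ht (t3Z i) ≤ 3 := by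
  have h1 : OddHC.ht (((.nil △ .nil) △ .nil) △ .nil) = 3 := by
    rw [OddHC.ht_node, OddHC.ht_node, OddHC.ht_node, OddHC.ht]; rfl
  cases i with
  | zero =>
    change OddHC.ht (((.nil △ .nil) △ .nil) △ (((.nil △ .nil) △ .nil) △ .nil)) ≤ 3
    rw [OddHC.ht_node, h1]
    have : OddHC.ht (((.nil : BinaryTree Unit) △ .nil) △ .nil) = 2 := rfl
    omega
  | succ i =>
    change hv (t3M (i + 1) △ .nil) at hv3
    change OddHC.ht (t3M (i + 1) △ .nil) ≤ 3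
    rw [M3_gd (i + 1) hv3.1, h1]

theorem Y3_ne_aw {q : ℕ} {R B S : BinaryTree Unit} (hm : 1 ≤ m) (h : Bare R B S)
    (ht : q + 3 < OddHC.ht S) {i j : ℕ} (hj : j < 20) : t3Y b m a i ≠ aw R (ch (q + 1)) B S j := by
  intro e
  obtain ⟨X, hX⟩ := F3_two hm
  have e1 := congrArg t3hd e
  rw [Y3_hd, hX] at e1
  have hB : ∀ Y Z : BinaryTree Unit, (B ≠ .nil → t3hd (app B Y) ≠ .nil △ (.nil △ Z)) := by
    intro Y Z h0 e2
    have := hv_hd h.hB h0 Y
    exact gd_ne_two this e2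
  have hR : ∀ Y Z : BinaryTree Unit, t3hd (app R Y) ≠ .nil △ (.nil △ Z) := by
    intro Y Z e2
    exact gd_ne_two (hv_hd h.hR h.R0 Y) e2
  have hS : ∀ Y Z : BinaryTree Unit, t3hd (app S Y) ≠ .nil △ (.nil △ Z) := by
    intro Y Z e2
    exact gd_ne_two (hv_hd h.hS h.S0 Y) e2
  have hQ : ∀ Y Z : BinaryTree Unit, t3hd (app (ch (q + 1)) Y) ≠ .nil △ (.nil △ Z) :=
    fun Y Z => ch_ne_two q Z
  have hrest : ∀ A Y : BinaryTree Unit, t3Y b m a i = A △ Y → Y ≠ .nil := by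
    intro A Y e2 h0
    rw [Y3_eq, h0] at e2
    exact app_ne (Z3_ne i) (node_inj e2).2
  interval_cases j
  · exact ch_ne_two (q + 2) X e1.symm
  · exact absurd e1 (by simp [aw, t3hd])
  · exact hQ _ _ e1.symm
  · exact hrest _ _ e rfl
  · exact hR _ _ e1.symm
  · exact hR _ _ e1.symm
  · exact ch_ne_two (q + 1) X e1.symm
  · exact hv_app_ne_two h.hR h.R0 e1.symm
  · exact hv_ne_two h.hR e1.symm
  · exact hQ _ _ e1.symm
  · exact hS _ _ e1.symm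
  · exact hS _ _ e1.symm
  · exact hQ _ _ e1.symm
  · have e2 : t3Y b m a i = (app (ch (q + 1)) (.nil △ B)) △ S := e
    rw [Y3_eq] at e2
    have e3 := (node_inj e2).2
    have h1 := h.hS
    rw [← e3, hv_app, hv_app] at h1
    have h2 := ht_Z3 i h1.2
    have h3 : OddHC.ht S ≤ 3 := by
      rw [← e3, OddHC.ht_app, OddHC.ht_app]
      have g1 := ht_th b
      have g2 : OddHC.ht (lv2 a .nil) ≤ 2 := by
        rw [← H1.ht_eq]
        exact bl_ht (bl_H a 0)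
      omega
    omega
  · by_cases h0 : B = .nil
    · subst h0
      exact hrest _ _ e rfl
    · exact hB _ _ h0 e1.symm
  · by_cases h0 : B = .nil
    · subst h0
      exact hv_ne_two h.hS e1.symm
    · exact hB _ _ h0 e1.symm
  · exact ch_ne_two (q + 1) X e1.symm
  · have e2 : .nil △ (.nil △ X) = app B (S △ .nil) := e1
    by_cases h0 : B = .nil
    · subst h0
      exact h.S0 (node_inj e2).1.symm
    · exact hv_app_ne_two h.hB h0 e2.symm
  · exact hv_ne_two h.hB e1.symm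
  · exact hQ _ _ e1.symm

end H1

theorem TyT.inner_A0 (h : TyT F g) (h' : TyA0 F' g') : ∀ p ∈ g.arcs, ∀ w ∈ innA p, w ∉ g'.B := by
  intro p hp w hw hw'
  obtain ⟨b, m, a, i, hm, e⟩ := h.innerm p hp w hw
  obtain ⟨q, R, B, S, w0, h1, hne, rfl, rfl⟩ := h'
  obtain ⟨j, hj, rfl⟩ := mem_gad20M.1 hw'
  rw [h1.word' w0 hj, ← H1.ch_eq] at e
  have ht : q + 3 < OddHC.ht (Tsq.mir S) := by
    rw [h1.a0d.hS]
    exact h1.a0d.top
  exact H1.Y3_ne_aw hm h1.bareM ht hj e.symm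

theorem TyT.inner_B0 (h : TyT F g) (h' : TyB0 F' g') : ∀ p ∈ g.arcs, ∀ w ∈ innA p, w ∉ g'.B := by
  intro p hp w hw hw'
  obtain ⟨b, m, a, i, hm, e⟩ := h.innerm p hp w hw
  obtain ⟨q, R, B, S, w0, h1, hne, _, _, rfl, rfl⟩ := h'
  obtain ⟨j, hj, _, rfl⟩ := mem_gadSM.1 hw'
  rw [h1.word' w0 hj, ← H1.ch_eq] at e
  have ht : q + 3 < OddHC.ht (Tsq.mir S) := by
    rw [h1.a0d.hS]
    exact h1.a0d.top
  exact H1.Y3_ne_aw hm h1.bareM ht hj e.symm

/-- **B0 - T: no common word** -/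
theorem TyB0.disT (h : TyB0 F g) (h' : TyT F' g') : ∀ w ∈ g.B, w ∉ g'.B := by
  obtain ⟨q, R, B, S, w0, h1, hne, _, _, rfl, rfl⟩ := h
  obtain ⟨b, m, a, w0', h1', rfl, rfl⟩ := h'
  intro w hw hw'
  obtain ⟨i, hi, _, rfl⟩ := mem_gadSM.1 hw
  obtain ⟨j, hj, e⟩ := mem_gad20.1 hw'
  have e1 := congrArg Subtype.val e
  rw [h1'.word w0' hj, h1.word' w0 hi, ← H1.ch_eq] at e1
  have ht : q + 3 < OddHC.ht (Tsq.mir R) := h1.a0d.top
  exact H1.w3_ne_aw h1'.mpos h1'.pos h1.bareM h1.a0d.hv h1.a0d.hvB h1.a0d.hvS ht hj hi e1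

theorem dj_B0T : Dj (k := k) TyB0 TyT := fun _ _ _ _ h h' _ => h.disT h'

theorem TyB0.ht4 (h : TyB0 F g) : ∀ c ∈ F, 4 ≤ htc c := by
  have hg := h.htg
  obtain ⟨q, R, B, S, w0, h1, hne, _, _, rfl, rfl⟩ := h
  intro c hc
  rw [hg c hc (cyc (mX R B S q w0 0)) (Or.inl rfl), htc_cyc, OddHC.ht_eq, h1.cont0, sup_add',
    ← OddHC.ht_eq]
  have := h1.top
  exact le_max_of_le_left (by omega)

theorem TyB0.inner_T (h : TyB0 F g) (h' : TyT F' g') (hle : ∀ c ∈ F, ∀ d ∈ F', htc c ≤ htc d) :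
    ∀ p ∈ g.arcs, ∀ w ∈ innA p, w ∉ g'.B := by
  exfalso
  have h4 := h.ht4
  have h3 := h'.ht3
  obtain ⟨q, R, B, S, w0, h1, hne, _, _, rfl, rfl⟩ := h
  obtain ⟨b, m, a, w0', h1', rfl, rfl⟩ := h'
  have e1 := h4 _ (Or.inl rfl)
  have e2 := h3 _ rfl
  have e3 := hle _ (Or.inl rfl) _ rfl
  omega

/-! ### Against the one soliton gadgets -/

namespace J

/-- a first component which is `(())` or good -/
def Fg (R : BinaryTree Unit) : Prop := ∃ A X : BinaryTree Unit, R = A △ X ∧ (A = l1 ∨ GD A)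

theorem Fg.app {R : BinaryTree Unit} (h : Fg R) (Y : BinaryTree Unit) : Fg (app R Y) := by
  obtain ⟨A, X, rfl, h⟩ := h
  exact ⟨A, OddHC.app X Y, rfl, h⟩

theorem fg_A {A Y : BinaryTree Unit} (h : A = l1 ∨ GD A) : A ≠ .nil △ (.nil △ Y) := by
  rintro rfl
  rcases h with h | h
  · simp [l1] at h
  · have := h.nn .nil (by simp)
    simp [isN] at this

theorem fg_hd {R Y : BinaryTree Unit} (h : Fg R) : H1.t3hd R ≠ .nil △ (.nil △ Y) := by
  obtain ⟨A, X, rfl, h⟩ := h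
  exact fg_A h

theorem fg_nil {A : BinaryTree Unit} (h : A = l1 ∨ GD A) : A ≠ .nil := by
  rintro rfl
  rcases h with h | h
  · simp [l1] at h
  · have := h.ht
    rw [OddHC.ht] at this
    omega

theorem fg_two {R Y : BinaryTree Unit} (h : Fg R) : R ≠ .nil △ (.nil △ Y) := by
  obtain ⟨A, X, rfl, h⟩ := h
  intro e
  exact fg_nil h (node_inj' e).1

theorem fg_ne {R : BinaryTree Unit} (h : Fg R) : R ≠ .nil := by
  obtain ⟨A, X, rfl, h⟩ := h
  simp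

theorem fg_one {R Y : BinaryTree Unit} (h : Fg R) : R ≠ .nil △ Y := by
  obtain ⟨A, X, rfl, h⟩ := h
  intro e
  exact fg_nil h (node_inj' e).1

theorem fg_RR {p t : ℕ} {D : BinaryTree Unit} (h : GD D) : Fg (RR p D t) := by
  cases p with
  | zero => exact ⟨D, _, rfl, Or.inr h⟩
  | succ p => exact ⟨l1, _, rfl, Or.inl rfl⟩

theorem fg_left {P X : BinaryTree Unit} (h : Fg (OddHC.app P X)) (h0 : P ≠ .nil) : Fg P := by
  cases P with
  | nil => exact absurd rfl h0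
  | node _ A C =>
    obtain ⟨A', X', e, h1⟩ := h
    have e1 : A = A' := (node_inj' e).1
    subst e1
    exact ⟨A, C, rfl, h1⟩

theorem mir_b2a (t : ℕ) : ∃ X, Tsq.mir (b2 (t + 1)) = l1 △ X := by
  induction t with
  | zero => exact ⟨.nil, rfl⟩
  | succ t ih =>
    obtain ⟨X, hX⟩ := ih
    refine ⟨OddHC.app X (l1 △ .nil), ?_⟩
    change OddHC.app (Tsq.mir (b2 (t + 1))) (Tsq.mir l1 △ .nil) = _
    rw [hX]
    rfl

theorem cs_mira (t : BinaryTree Unit) : ∀ X ∈ cs (Tsq.mir t), ∃ Y ∈ cs t, X = Tsq.mir Y := by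
  induction t with
  | nil => intro X hX; simp [Tsq.mir] at hX
  | node _ A B _ ih =>
    intro X hX
    rw [Tsq.mir_node, cs_app, List.mem_append] at hX
    rcases hX with hX | hX
    · obtain ⟨Y, h1, h2⟩ := ih X hX
      exact ⟨Y, by rw [cs_node']; exact List.mem_cons_of_mem _ h1, h2⟩
    · simp at hX
      exact ⟨A, by rw [cs_node']; exact List.mem_cons_self, hX⟩

theorem isN_mira (X : BinaryTree Unit) : isN (Tsq.mir X) = isN X := by
  cases X with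
  | nil => rfl
  | node _ A B =>
    rw [Tsq.mir_node]
    cases hB : Tsq.mir B with
    | nil => rfl
    | node _ C D => rfl

theorem GD.mira {D : BinaryTree Unit} (h : GD D) : GD (Tsq.mir D) where
  ht := by
    have e : OddHC.ht (Tsq.mir D) = OddHC.ht D := by
      rw [OddHC.ht_eq, HM.cont_mir, ← OddHC.ht_eq]
    rw [e]; exact h.ht
  nn := by
    intro X hX
    obtain ⟨Y, h1, rfl⟩ := cs_mira D X hX
    rw [isN_mira]
    exact h.nn Y h1

theorem mir_RRa (p t : ℕ) (D : BinaryTree Unit) :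
    ∃ X, Tsq.mir (RR p D t) = OddHC.app (Tsq.mir (b2 t)) (Tsq.mir D △ X) := by
  induction p with
  | zero => exact ⟨.nil, rfl⟩
  | succ p ih =>
    obtain ⟨X, hX⟩ := ih
    refine ⟨OddHC.app X (Tsq.mir l1 △ .nil), ?_⟩
    change OddHC.app (Tsq.mir (RR p D t)) (Tsq.mir l1 △ .nil) = _
    rw [hX, H1.app_assoc]
    rfl

theorem fg_mir {p t : ℕ} {D : BinaryTree Unit} (h : GD D) : Fg (Tsq.mir (RR p D t)) := by
  obtain ⟨X, hX⟩ := mir_RRa p t D
  rw [hX]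
  cases t with
  | zero => exact ⟨Tsq.mir D, X, rfl, Or.inr h.mira⟩
  | succ t =>
    obtain ⟨Y, hY⟩ := mir_b2a t
    rw [hY]
    exact ⟨l1, _, rfl, Or.inl rfl⟩

variable {b m a : ℕ}

/-- no word `aw R .nil B S j` -/
theorem Y3_ne_awJ {R B S : BinaryTree Unit} (hm : 1 ≤ m) (hR : Fg R) (hB : B = .nil ∨ Fg B) (hS : Fg S)
    {i j : ℕ} (hj : j < 20) : H1.t3Y b m a i ≠ aw R .nil B S j := by
  intro e
  obtain ⟨X, hX⟩ := H1.F3_two hm
  have e1 := congrArg H1.t3hd e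
  rw [H1.Y3_hd, hX] at e1
  have n1 : ∀ Y : BinaryTree Unit, .nil △ (.nil △ X) ≠ H1.t3hd (.nil △ Y) := by
    intro Y; simp [H1.t3hd]
  interval_cases j
  · exact absurd e1 (by simp [aw, H1.t3hd])
  · exact n1 _ e1
  · exact n1 _ e1
  · exact fg_one hR (node_inj' e1).2.symm
  · exact fg_hd (hR.app _) e1.symm
  · exact fg_hd (hR.app _) e1.symm
  · exact n1 _ e1
  · exact fg_two (hR.app _) e1.symm
  · exact fg_two hR e1.symm
  · exact absurd (node_inj' e1).1.symm (fg_ne hR)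
  · exact fg_hd (hS.app _) e1.symm
  · exact fg_hd (hS.app _) e1.symm
  · exact n1 _ e1
  · have e2 : BinaryTree.nil △ (.nil △ X) = .nil △ B := e1
    rcases hB with hB | hB
    · rw [hB] at e2; exact absurd (node_inj' e2).2 (by simp)
    · exact fg_one hB (node_inj' e2).2.symm
  · rcases hB with hB | hB
    · subst hB
      exact fg_two (hS.app _) e1.symm
    · exact fg_hd (hB.app _) e1.symm
  · rcases hB with hB | hB
    · subst hB
      exact fg_two hS e1.symm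
    · exact fg_hd (hB.app _) e1.symm
  · exact n1 _ e1
  · rcases hB with hB | hB
    · subst hB
      exact absurd (node_inj' e1).1.symm (fg_ne hS)
    · exact fg_two (hB.app _) e1.symm
  · rcases hB with hB | hB
    · subst hB
      exact absurd e1 (by simp [aw, H1.t3hd])
    · exact fg_two hB e1.symm
  · rcases hB with hB | hB
    · subst hB
      exact fg_one hS (node_inj' e1).2.symm
    · have e2 : BinaryTree.nil △ (.nil △ X) = B △ S := e1
      exact fg_ne hB (node_inj' e2).1.symm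

/-- no pure word -/
theorem Y3_ne_pw {R : BinaryTree Unit} (hm : 1 ≤ m) (hR : Fg R) {i j : ℕ} (hj : j < 10) :
    H1.t3Y b m a i ≠ pw R j := by
  intro e
  obtain ⟨X, hX⟩ := H1.F3_two hm
  have e1 := congrArg H1.t3hd e
  rw [H1.Y3_hd, hX] at e1
  have n1 : ∀ Y : BinaryTree Unit, .nil △ (.nil △ X) ≠ H1.t3hd (.nil △ Y) := by
    intro Y; simp [H1.t3hd]
  interval_cases j
  · exact fg_hd (hR.app _) e1.symm
  · exact fg_hd (hR.app _) e1.symm
  · exact n1 _ e1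
  · exact fg_two (hR.app _) e1.symm
  · have e2 : BinaryTree.nil △ (.nil △ X) = .nil △ .nil := e1
    exact absurd (node_inj' e2).2 (by simp)
  · exact n1 _ e1
  · exact fg_two hR e1.symm
  · have e2 : BinaryTree.nil △ (.nil △ X) = .nil △ R := e1
    exact fg_one hR (node_inj' e2).2.symm
  · exact n1 _ e1
  · have e2 : BinaryTree.nil △ (.nil △ X) = R △ .nil := e1
    exact fg_ne hR (node_inj' e2).1.symm

theorem fg_RF {n : ℕ} (hn : 1 ≤ n) (G : ZMod (2 * n + 1) → ℕ) : Fg (Ring1.RF n G) := by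
  obtain ⟨D, hD, e⟩ := RF_shape hn G
  rw [e]
  exact fg_RR hD

theorem Y3_ne_Pu (hm : 1 ≤ m) {n i : ℕ} (hn : 1 ≤ n) (Φ : ZMod (2 * n + 1) → ℕ) :
    ¬ IsPu n Φ (H1.t3Y b m a i) := by
  rintro ⟨j, hj, _, _, e⟩
  exact Y3_ne_pw hm (fg_RF hn Φ) hj e

theorem Y3_ne_Us (hm : 1 ≤ m) {n i : ℕ} (hn : 1 ≤ n) (G : ZMod (2 * n + 1) → ℕ) :
    ¬ IsUs n G (H1.t3Y b m a i) := by
  rintro ⟨_, e⟩
  obtain ⟨X, hX⟩ := H1.F3_two hm
  have e1 := congrArg H1.t3hd e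
  rw [H1.Y3_hd, hX] at e1
  exact fg_hd (fg_RF hn G) e1.symm

theorem Y3_ne_Mx (hm : 1 ≤ m) {n i : ℕ} (hn : 1 ≤ n) (Ψ : ZMod (2 * n + 1) → ℕ) :
    ¬ IsMx n Ψ (H1.t3Y b m a i) := by
  rintro ⟨t, D, u, j, ht, hD, e0, h1, h2, e⟩
  obtain ⟨t, rfl⟩ : ∃ t', t = t' + 1 := ⟨t - 1, by omega⟩
  unfold mw at e
  rw [HM.mir_W _ _ _ _ h2, HM.w20M_aw _ _ _ _ h2] at e
  have hB : Fg (Tsq.mir (b2 (t + 1))) := by
    obtain ⟨X, hX⟩ := mir_b2a t
    exact ⟨l1, X, hX, Or.inl rfl⟩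
  have hS : Fg (Tsq.mir (RR 0 D u)) := fg_mir hD
  have e3 : Tsq.mir (BinaryTree.nil : BinaryTree Unit) = .nil := rfl
  rw [e3] at e
  -- the words 11 .. 19 do not use `R`
  have e4 : aw .nil .nil (Tsq.mir (b2 (t + 1))) (Tsq.mir (RR 0 D u)) j =
      aw (Tsq.mir (RR 0 D u)) .nil (Tsq.mir (b2 (t + 1))) (Tsq.mir (RR 0 D u)) j := by
    interval_cases j <;> rfl
  rw [e4] at e
  exact Y3_ne_awJ hm hS (Or.inr hB) hS h2 e

end J

open J

/-- **inner words of T against all one soliton gadgets** -/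
theorem TyT.inner_J (h : TyT F g) {n : ℕ} (hn : 1 ≤ n) : ∀ p ∈ g.arcs, ∀ w ∈ innA p,
    (∀ Φ, ¬ IsPu n Φ w.1) ∧ (∀ G, ¬ IsUs n G w.1) ∧ ∀ Ψ, ¬ IsMx n Ψ w.1 := by
  intro p hp w hw
  obtain ⟨b, m, a, i, hm, e⟩ := h.innerm p hp w hw
  rw [e]
  exact ⟨Y3_ne_Pu hm hn, Y3_ne_Us hm hn, Y3_ne_Mx hm hn⟩

theorem TyT.inner_JG (h : TyT F g) {n : ℕ} (hn : 1 ≤ n) {B : Finset (X k)}
    {P U M : Set (ZMod (2 * n + 1) → ℕ)} (h' : JG n B P U M) :
    ∀ p ∈ g.arcs, ∀ w ∈ innA p, w ∉ B := by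
  intro p hp w hw hB
  have h1 := h.inner_J hn p hp w hw
  rcases h' w hB with ⟨Φ, _, h2⟩ | ⟨G, _, h2⟩ | ⟨Ψ, _, h2⟩
  · exact h1.1 Φ h2
  · exact h1.2.1 G h2
  · exact h1.2.2 Ψ h2

theorem TyT.inner_JM (h : TyT F g) (h' : TyJM F' g') : ∀ p ∈ g.arcs, ∀ w ∈ innA p, w ∉ g'.B := by
  intro p hp w hw hw'
  obtain ⟨b, m, a, i, hm, e⟩ := h.innerm p hp w hw
  obtain ⟨q, D, t, D', u, w0, h1, hne, rfl, rfl⟩ := h'
  obtain ⟨j, hj, _, rfl⟩ := mem_gadJM.1 hw'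
  rw [h1.wordM' w0 hj, HM.w20M_aw _ _ _ _ hj] at e
  refine Y3_ne_awJ hm (fg_mir h1.gD) ?_ (fg_mir h1.gD') hj e.symm
  cases t with
  | zero => exact Or.inl rfl
  | succ t =>
    obtain ⟨X, hX⟩ := mir_b2a t
    exact Or.inr ⟨l1, X, hX, Or.inl rfl⟩

end Pool.OddHC
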