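import Pool.Agent.Work.MP_8f87b2_h26.TyL1
import Pool.Agent.Work.MP_8f87b2_h3.A0T2

/-!
# MP_8f87b2_co: rows I-T-L1 and I-L1-T

Inner words of the windows T (height 3) against the words of the gadgets L1 (`12 ≤ k`), and inner words of L1 (height 3)
against the words of T.
-/

set_option autoImplicit false

namespace Pool.OddHC

open Finset Equiv BinaryTree Pool.Agent.Work.MP_8f87b2_co

variable {k : ℕ} {F F' : Set (Cyc k)} {g g' : DG k}

namespace L1

open H1 J

variable {n b m a : ℕ}

/-- `(()())`, the inside -/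
def tb3 : BinaryTree Unit := .nil △ (.nil △ .nil)

/-- the second part of the tree with the hidden bead -/
theorem B_form (hn : 1 ≤ n) (Φ : ZMod (2 * n + 1) → ℕ) :
    ((Tsq.sq (RH n Φ)).2 = .nil ∧ Φ (-1) = 0) ∨
      ∃ t, (Tsq.sq (RH n Φ)).2 = lv2 t (tb3 △ .nil) ∧ 1 ≤ Φ (-1) := by
  rcases Nat.eq_zero_or_pos (Φ (-1)) with h0 | h0
  · exact Or.inl ⟨caseB2 hn Φ h0, h0⟩
  · right
    obtain ⟨t, ht⟩ : ∃ t, Φ (-1) = t + 1 := ⟨Φ (-1) - 1, by omega⟩
    refine ⟨t, ?_, h0⟩
    have a2 := (Wd.inf (lv t .nil)).app Wd.three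
    rw [app_lv, Ring1.inf_lp] at a2
    have a3 := (caseA hn Φ h0).2
    rw [ht] at a3
    have a4 := a3.det (a2.cast rfl (by
      rw [zero_add, Multiset.map_singleton, lv_num']
      congr 1
      omega) rfl)
    rw [a4, ← Ring1.lv2_app]
    rfl

theorem S_form (hn : 1 ≤ n) (Φ : ZMod (2 * n + 1) → ℕ) (h0 : 1 ≤ Φ (-1)) :
    ∃ (E : BinaryTree Unit) (c : ℕ), (Tsq.sq (RH n Φ)).1 = E △ lv2 c .nil ∧ 2 ≤ OddHC.ht E := by
  obtain ⟨_, _, D1, hD1, s2⟩ := Ring1.sq_RF hn Φ
  refine ⟨inf D1, Φ (-2), ?_, Ring1.ht_two hD1⟩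
  rw [(caseA hn Φ h0).1, s2]

/-! ### The inner words of T -/

theorem ht_lvz (p : ℕ) : OddHC.ht (lv p .nil) ≤ 1 := by
  induction p with
  | zero => decide
  | succ p ih =>
    change max 1 (OddHC.ht (lv p .nil)) ≤ 1
    omega

theorem F3_lv (m : ℕ) : t3F m = lv (m + 1) .nil := app_lv m

theorem len_lastZ (i : ℕ) : len (lastI (t3Z i)) = 1 := by
  cases i with
  | zero => rfl
  | succ i =>
    change len (t3M (i + 1)) = 1
    unfold t3M
    split <;> rfl

theorem ht_lastZ (i : ℕ) : 2 ≤ OddHC.ht (lastI (t3Z i)) := by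
  cases i with
  | zero => decide
  | succ i =>
    change 2 ≤ OddHC.ht (t3M (i + 1))
    unfold t3M
    split <;> decide

theorem lastI_Y3 (i : ℕ) : lastI (t3Y b m a i) = lastI (t3Z i) := by
  rw [t3Y, lastI_app (Z3_ne i)]

theorem num_Z3 (i : ℕ) : (t3Z i).numNodes ≤ 6 := by
  cases i with
  | zero => decide
  | succ i =>
    change (t3M (i + 1) △ .nil).numNodes ≤ 6
    unfold t3M
    split <;> decide

theorem ht_Z3two (i : ℕ) : 3 ≤ OddHC.ht (t3Z i) := by
  cases i with
  | zero => decide
  | succ i =>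
    change 3 ≤ OddHC.ht (t3M (i + 1) △ .nil)
    unfold t3M
    split <;> decide

theorem ht_lastI {X : BinaryTree Unit} (h : X ≠ .nil) : OddHC.ht (lastI X) + 1 ≤ OddHC.ht X := by
  induction X with
  | nil => exact absurd rfl h
  | node _ A C _ ih =>
    cases C with
    | nil =>
      change OddHC.ht A + 1 ≤ max (OddHC.ht A + 1) 0
      omega
    | node u A' C' =>
      have h1 := ih (by simp)
      change OddHC.ht (lastI (.node u A' C')) + 1 ≤ max (OddHC.ht A + 1) (OddHC.ht (.node u A' C'))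
      omega

theorem ht_app (P Q : BinaryTree Unit) : OddHC.ht (app P Q) = max (OddHC.ht P) (OddHC.ht Q) := by
  induction P with
  | nil =>
    change OddHC.ht Q = max 0 (OddHC.ht Q)
    omega
  | node _ A C _ ih =>
    change max (OddHC.ht A + 1) (OddHC.ht (app C Q)) = max (max (OddHC.ht A + 1) (OddHC.ht C)) (OddHC.ht Q)
    rw [ih]
    omega

theorem ht_lv2z (p : ℕ) : OddHC.ht (lv2 p .nil) ≤ 2 := by
  have := Ring1.ht_lv2 p .nil
  change _ ≤ max 2 0 at this
  omega

/-- the tail of an inner word is not `(())S`, `S` a tall component with beads `(())` -/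
theorem tail_ne {E S : BinaryTree Unit} {c i : ℕ} (hS : S = E △ lv2 c .nil) (hE : 2 ≤ OddHC.ht E)
    (h7 : 7 ≤ S.numNodes) : app (app (lv2 a .nil) (th b .nil)) (t3Z i) ≠ (.nil △ .nil) △ S := by
  intro e
  have hZ1 : ∀ X, t3Z i ≠ (.nil △ .nil) △ X := by
    intro X e1
    have h1 := light_Z3 i
    cases i with
    | zero => simp [t3Z] at e1
    | succ i =>
      have e2 : t3M (i + 1) = .nil △ .nil := (node_inj' e1).1
      have h2 := ht_lastZ (i + 1)
      change 2 ≤ OddHC.ht (t3M (i + 1)) at h2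
      rw [e2] at h2
      exact absurd h2 (by decide)
  cases a with
  | zero =>
    cases b with
    | zero => exact hZ1 _ e
    | succ b =>
      have e1 := (node_inj' e).1
      simp at e1
  | succ a =>
    have e1 : app (app (lv2 a .nil) (th b .nil)) (t3Z i) = S := (node_inj' e).2
    rw [hS] at e1
    cases a with
    | succ a =>
      have e2 : (.nil △ .nil : BinaryTree Unit) = E := (node_inj' e1).1
      rw [← e2] at hE
      exact absurd hE (by decide)
    | zero =>
      cases b with
      | succ b =>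
        have e2 : app (th b .nil) (t3Z i) = lv2 c .nil := (node_inj' e1).2
        have h1 := congrArg OddHC.ht e2
        rw [ht_app] at h1
        have h2 := ht_Z3two i
        have h3 := ht_lv2z c
        omega
      | zero =>
        have e2 : t3Z i = S := e1.trans hS.symm
        have h1 := num_Z3 i
        rw [e2] at h1
        omega

/-- **inner words of T against the right words** -/
theorem Y3_ne_W {R B S : BinaryTree Unit} (hm : 1 ≤ m) (hS : 2 ≤ OddHC.ht S)
    (hB : B = .nil ∨ ∃ t, B = lv2 t (tb3 △ .nil) ∧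
      (t = 0 → ∃ (E : BinaryTree Unit) (c : ℕ), S = E △ lv2 c .nil ∧ 2 ≤ OddHC.ht E ∧ 7 ≤ S.numNodes))
    {i j : ℕ} (hj : j < 20) : t3Y b m a i ≠ H1.W R .nil B S j := by
  intro e
  obtain ⟨X, hX⟩ := F3_two hm
  have e1 := congrArg t3hd e
  rw [Y3_hd] at e1
  have f1 : fb (t3Y b m a i) = false := fb_Y3 i
  have f2 : lastB (t3Y b m a i) = false := lastB_Y3 i
  have f3 : light (lastI (t3Y b m a i)) = false := light_Y3 i
  have f4 : 2 ≤ len (t3Y b m a i) := len_Y3 i
  have f5 : len (lastI (t3Y b m a i)) = 1 := by rw [lastI_Y3, len_lastZ]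
  have f6 : OddHC.ht (t3F m) ≤ 1 := by rw [F3_lv]; exact ht_lvz _
  rw [e] at f1 f2 f3 f4 f5
  have g1 : ∀ Y : BinaryTree Unit, fb (.nil △ Y) = true := fun Y => rfl
  have g2 : ∀ Y : BinaryTree Unit, lastB (app Y (.nil △ .nil)) = true := fun Y => by
    rw [lastB_app (by simp)]; rfl
  have g3 : ∀ Y : BinaryTree Unit, light (lastI (app Y ((.nil △ .nil) △ .nil))) = true := fun Y => by
    rw [lastI_app (by simp)]; rfl
  have g4 : ∀ Y : BinaryTree Unit, len (Y △ .nil) = 1 := fun Y => rfl
  have hS0 : S ≠ .nil := by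
    rintro rfl
    exact absurd hS (by decide)
  interval_cases j
  · rw [show H1.W R .nil B S 0 = app R ((.nil △ .nil) △ .nil) from rfl, g3] at f3
    simp at f3
  · rw [show H1.W R .nil B S 1 = app R (.nil △ (.nil △ .nil)) from rfl,
      show app R (.nil △ (.nil △ .nil)) = app (app R (.nil △ .nil)) (.nil △ .nil) by
        rw [app_assoc]; rfl, g2] at f2
    simp at f2
  · rw [show H1.W R .nil B S 2 = .nil △ app R (.nil △ .nil) from rfl, g1] at f1
    simp at f1
  · rw [show H1.W R .nil B S 3 = app R (.nil △ .nil) △ .nil from rfl, g4] at f4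
    omega
  · rw [hX] at e1
    have e2 : (.nil △ (.nil △ X) : BinaryTree Unit) = .nil △ .nil := e1
    simp at e2
  · rw [show H1.W R .nil B S 5 = .nil △ (.nil △ R) from rfl, g1] at f1
    simp at f1
  · rw [show H1.W R .nil B S 6 = app (R △ .nil) (.nil △ .nil) from rfl, g2] at f2
    simp at f2
  · rw [show H1.W R .nil B S 7 = (.nil △ R) △ .nil from rfl, g4] at f4
    omega
  · rw [show H1.W R .nil B S 8 = .nil △ (R △ .nil) from rfl, g1] at f1
    simp at f1
  · rw [show H1.W R .nil B S 9 = (R △ .nil) △ .nil from rfl, g4] at f4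
    omega
  · -- word 10
    rcases hB with hB | ⟨t, hB, hB0⟩
    · subst hB
      rw [hX] at e1
      have e2 : (.nil △ (.nil △ X) : BinaryTree Unit) = .nil △ .nil := e1
      simp at e2
    · subst hB
      cases t with
      | succ t =>
        rw [hX] at e1
        have e2 : (.nil △ (.nil △ X) : BinaryTree Unit) = .nil △ .nil := e1
        simp at e2
      | zero =>
        obtain ⟨E, c, h1, h2, h3⟩ := hB0 rfl
        have e3 : app (app (lv2 a .nil) (th b .nil)) (t3Z i) = (.nil △ .nil) △ S := by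
          have e4 := congrArg OddHC.tl e
          exact e4
        exact tail_ne h1 h2 h3 e3
  · -- word 11
    rcases hB with hB | ⟨t, hB, hB0⟩
    · subst hB
      rw [show H1.W R .nil .nil S 11 = .nil △ (.nil △ S) from rfl, g1] at f1
      simp at f1
    · subst hB
      cases t with
      | succ t =>
        rw [hX] at e1
        have e2 : (.nil △ (.nil △ X) : BinaryTree Unit) = .nil △ .nil := e1
        simp at e2
      | zero =>
        have e4 : app (app (lv2 a .nil) (th b .nil)) (t3Z i) = .nil △ (.nil △ S) := congrArg OddHC.tl e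
        have h1 := fb_Y3 (b := b) (m := m) (a := a) i
        cases a with
        | succ a => simp [lv2, app] at e4
        | zero =>
          cases b with
          | succ b => simp [lv2, th, app] at e4
          | zero =>
            have e5 : t3Z i = .nil △ (.nil △ S) := e4
            cases i with
            | zero => simp [t3Z] at e5
            | succ i =>
              have e6 : t3M (i + 1) = .nil := (node_inj' e5).1
              have h2 := ht_lastZ (i + 1)
              change 2 ≤ OddHC.ht (t3M (i + 1)) at h2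
              rw [e6] at h2
              exact absurd h2 (by decide)
  · rw [show H1.W R .nil B S 12 = app (S △ B) (.nil △ .nil) from rfl, g2] at f2
    simp at f2
  · -- word 13
    rw [show H1.W R .nil B S 13 = app S (app B (.nil △ .nil) △ .nil) from rfl, lastI_app (by simp),
      lastI_one] at f3 f5
    rcases hB with hB | ⟨t, hB, _⟩
    · subst hB
      simp [light, app, isNil] at f3
    · have h1 : 1 ≤ len B := len_pos (by rw [hB]; cases t <;> simp [lv2])
      rw [len_app] at f5
      have h2 : len (.nil △ .nil : BinaryTree Unit) = 1 := rfl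
      omega
  · -- word 14
    have e2 : t3F m = .nil △ S := e1
    have h1 := congrArg OddHC.ht e2
    change _ = max 1 (OddHC.ht S) at h1
    omega
  · rw [show H1.W R .nil B S 15 = .nil △ (S △ B) from rfl, g1] at f1
    simp at f1
  · rw [show H1.W R .nil B S 16 = app S (B △ (.nil △ .nil)) from rfl,
      show app S (B △ (.nil △ .nil)) = app (app S (B △ .nil)) (.nil △ .nil) by
        rw [app_assoc]; rfl, g2] at f2
    simp at f2
  · rw [show H1.W R .nil B S 17 = (S △ B) △ .nil from rfl, g4] at f4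
    omega
  · rw [show H1.W R .nil B S 18 = .nil △ app S (B △ .nil) from rfl, g1] at f1
    simp at f1
  · rw [show H1.W R .nil B S 19 = app S (B △ .nil) △ .nil from rfl, g4] at f4
    omega

theorem app_lv2s (t : ℕ) : app (lv2 t .nil) ((.nil △ .nil) △ .nil) = lv2 (t + 1) .nil := by
  induction t with
  | zero => rfl
  | succ t ih =>
    change (.nil △ .nil) △ app (lv2 t .nil) ((.nil △ .nil) △ .nil) = _
    rw [ih]
    rfl

theorem mir_B (t : ℕ) : Tsq.mir (lv2 t (tb3 △ .nil)) = tb3 △ lv2 t .nil := by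
  induction t with
  | zero => rfl
  | succ t ih =>
    change app (Tsq.mir (lv2 t (tb3 △ .nil))) (Tsq.mir (.nil △ .nil) △ .nil) = _
    rw [ih]
    change tb3 △ app (lv2 t .nil) ((.nil △ .nil) △ .nil) = _
    rw [app_lv2s]

/-- **inner words of T against the mirrored words** -/
theorem Y3_ne_aw1 {R B S : BinaryTree Unit} (hm : 1 ≤ m) (hS : S ≠ .nil)
    (hB : B = .nil ∨ ∃ t, B = tb3 △ lv2 t .nil) {i j : ℕ} (hj : j < 20) : t3Y b m a i ≠ aw R .nil B S j := by
  intro e
  obtain ⟨X, hX⟩ := F3_two hm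
  have e1 := congrArg t3hd e
  rw [Y3_hd] at e1
  have f1 : fb (t3Y b m a i) = false := fb_Y3 i
  have f2 : lastB (t3Y b m a i) = false := lastB_Y3 i
  have f3 : light (lastI (t3Y b m a i)) = false := light_Y3 i
  have f4 : 2 ≤ len (t3Y b m a i) := len_Y3 i
  have f5 : len (lastI (t3Y b m a i)) = 1 := by rw [lastI_Y3, len_lastZ]
  have f7 : 2 ≤ OddHC.ht (lastI (t3Y b m a i)) := by rw [lastI_Y3]; exact ht_lastZ i
  rw [e] at f1 f2 f3 f4 f5 f7
  have g1 : ∀ Y : BinaryTree Unit, fb (.nil △ Y) = true := fun Y => rfl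
  have g2 : ∀ Y : BinaryTree Unit, lastB (app Y (.nil △ .nil)) = true := fun Y => by
    rw [lastB_app (by simp)]; rfl
  have g3 : ∀ Y : BinaryTree Unit, light (lastI (app Y ((.nil △ .nil) △ .nil))) = true := fun Y => by
    rw [lastI_app (by simp)]; rfl
  have g4 : ∀ Y : BinaryTree Unit, len (Y △ .nil) = 1 := fun Y => rfl
  have hB2 : OddHC.ht B ≤ 2 := by
    rcases hB with rfl | ⟨t, rfl⟩
    · decide
    · have := ht_lv2z t
      change max (OddHC.ht tb3 + 1) (OddHC.ht (lv2 t .nil)) ≤ 2
      have h1 : OddHC.ht tb3 = 1 := by decide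
      omega
  interval_cases j
  · rw [hX] at e1
    have e2 : (.nil △ (.nil △ X) : BinaryTree Unit) = .nil △ .nil := e1
    simp at e2
  · rw [show aw R .nil B S 1 = .nil △ (.nil △ R) from rfl, g1] at f1
    simp at f1
  · rw [show aw R .nil B S 2 = .nil △ app R (.nil △ .nil) from rfl, g1] at f1
    simp at f1
  · rw [show aw R .nil B S 3 = (.nil △ R) △ .nil from rfl, g4] at f4
    omega
  · rw [show aw R .nil B S 4 = app R ((.nil △ .nil) △ .nil) from rfl, g3] at f3
    simp at f3
  · rw [show aw R .nil B S 5 = app R (.nil △ (.nil △ .nil)) from rfl,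
      show app R (.nil △ (.nil △ .nil)) = app (app R (.nil △ .nil)) (.nil △ .nil) by
        rw [app_assoc]; rfl, g2] at f2
    simp at f2
  · rw [show aw R .nil B S 6 = .nil △ (R △ .nil) from rfl, g1] at f1
    simp at f1
  · rw [show aw R .nil B S 7 = app R (.nil △ .nil) △ .nil from rfl, g4] at f4
    omega
  · rw [show aw R .nil B S 8 = app (R △ .nil) (.nil △ .nil) from rfl, g2] at f2
    simp at f2
  · rw [show aw R .nil B S 9 = (R △ .nil) △ .nil from rfl, g4] at f4
    omega
  · -- word 10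
    rw [show aw R .nil B S 10 = app S ((.nil △ .nil) △ B) from rfl, lastI_app (by simp)] at f7
    rcases hB with hB | ⟨t, hB⟩
    · subst hB
      exact absurd f7 (by decide)
    · have h0 : B ≠ .nil := by rw [hB]; simp
      rw [lastI_cons h0] at f7
      have := ht_lastI h0
      omega
  · -- word 11
    rw [show aw R .nil B S 11 = app S (.nil △ (.nil △ B)) from rfl, lastI_app (by simp),
      lastI_cons (by simp)] at f7
    rcases hB with hB | ⟨t, hB⟩
    · subst hB
      exact absurd f7 (by decide)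
    · have h0 : B ≠ .nil := by rw [hB]; simp
      rw [lastI_cons h0] at f7
      have := ht_lastI h0
      omega
  · rw [show aw R .nil B S 12 = .nil △ app B (S △ .nil) from rfl, g1] at f1
    simp at f1
  · -- word 13
    rw [hX] at e1
    have e2 : (.nil △ (.nil △ X) : BinaryTree Unit) = .nil △ B := e1
    have e3 : (.nil △ X : BinaryTree Unit) = B := (node_inj' e2).2
    rcases hB with hB | ⟨t, hB⟩
    · rw [hB] at e3
      simp at e3
    · rw [hB] at e3
      have e4 : (.nil : BinaryTree Unit) = tb3 := (node_inj' e3).1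
      simp [tb3] at e4
  · -- word 14
    rw [show aw R .nil B S 14 = app B (app S (.nil △ .nil) △ .nil) from rfl, lastI_app (by simp),
      lastI_one, len_app] at f5
    have h1 := len_pos hS
    have h2 : len (.nil △ .nil : BinaryTree Unit) = 1 := rfl
    omega
  · rw [show aw R .nil B S 15 = app B (S △ (.nil △ .nil)) from rfl,
      show app B (S △ (.nil △ .nil)) = app (app B (S △ .nil)) (.nil △ .nil) by
        rw [app_assoc]; rfl, g2] at f2
    simp at f2
  · rw [show aw R .nil B S 16 = .nil △ (B △ S) from rfl, g1] at f1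
    simp at f1
  · rw [show aw R .nil B S 17 = app B (S △ .nil) △ .nil from rfl, g4] at f4
    omega
  · rw [show aw R .nil B S 18 = app (B △ S) (.nil △ .nil) from rfl, g2] at f2
    simp at f2
  · rw [show aw R .nil B S 19 = (B △ S) △ .nil from rfl, g4] at f4
    omega

end L1

open L1

/-- **row I-T-L1**: inner words of T are no words of a gadget L1 -/
theorem TyT.inner_L1 (h : TyT F g) (h' : TyL1 F' g') (hk : 12 ≤ k) :
    ∀ p ∈ g.arcs, ∀ w ∈ innA p, w ∉ g'.B := by
  intro p hp w hw hw'
  obtain ⟨b, m, a, i, hm, e⟩ := h.innerm p hp w hw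
  rcases h' with ⟨n, Φ, w0, hb, _, rfl, rfl⟩ | ⟨n, Φ, w0, hb, _, rfl, rfl⟩
  · have gr := GR_RH hb.hn Φ hb.hk
    have hht : OddHC.ht (Tsq.sq (RH n Φ)).1 = n + 2 := by rw [gr.htS, ht_RH hb.hn]
    obtain ⟨j, hj, _, rfl⟩ := mem_gadJ.1 hw'
    rw [xw_val hb.hn hb.hk w0 hj] at e
    refine Y3_ne_W hm (by omega) ?_ hj e.symm
    rcases B_form hb.hn Φ with ⟨h1, _⟩ | ⟨t, h1, h2⟩
    · exact Or.inl h1
    · refine Or.inr ⟨t, h1, fun ht => ?_⟩
      obtain ⟨E, c, h3, h4⟩ := S_form hb.hn Φ h2
      refine ⟨E, c, h3, h4, ?_⟩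
      have h5 := gr.num
      have h6 := gr.size
      rw [h1, ht] at h5
      have h7 : (lv2 0 (tb3 △ .nil)).numNodes = 3 := rfl
      omega
  · have gr := GR_RH hb.hn (J.rf Φ) (k := k) (by rw [J.rf_sum]; exact hb.hk)
    obtain ⟨j, hj, _, rfl⟩ := mem_gadJM.1 hw'
    rw [xm_val hb.hn hb.hk w0 hj, HM.mir_W _ _ _ _ hj, HM.w20M_aw _ _ _ _ hj] at e
    refine Y3_ne_aw1 hm ?_ ?_ hj e.symm
    · intro h0
      have h1 := congrArg Tsq.mir h0
      rw [Tsq.mir_mir] at h1
      have hht : OddHC.ht (Tsq.sq (RH n (J.rf Φ))).1 = n + 2 := by rw [gr.htS, ht_RH hb.hn]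
      rw [h1] at hht
      change 0 = _ at hht
      omega
    · rcases B_form hb.hn (J.rf Φ) with ⟨h1, _⟩ | ⟨t, h1, h2⟩
      · rw [h1]
        exact Or.inl rfl
      · rw [h1, mir_B]
        exact Or.inr ⟨t, rfl⟩

end Pool.OddHC
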