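import Pool.Agent.Work.MP_8f87b2_h3.L1T
import Pool.Agent.Work.MP_8f87b2_h27.Flat

/-!
# MP_8f87b2_co: row I-L1-T

Inner words of L1 of height 3 (`n = 1`), explicitly, and the words of T: the words of T have neighbours `X () (())` with
`X` one of `()`, `(())`, `((()))`, the inner words of L1 have not.
-/

set_option autoImplicit false

namespace Pool.OddHC

open Finset Equiv BinaryTree Pool.Agent.Work.MP_8f87b2_co

variable {k : ℕ} {F F' : Set (Cyc k)} {g g' : DG k}

namespace L1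

open H1 J

/-! ### The pattern -/

/-- the inside of `()`, `(())` or `((()))` -/
def li3 : BinaryTree Unit → Bool
  | .nil => true
  | .node _ A X => isNil X && (isNil A || is1 A)

/-- starts with `()(())` -/
def hb12 : BinaryTree Unit → Bool
  | .nil => false
  | .node _ A X => isNil A && hd12 X

/-- neighbours `X () (())` -/
def q12 : BinaryTree Unit → Bool
  | .nil => false
  | .node _ A X => (q12 A || q12 X) || (li3 A && hb12 X)

theorem q12_node (A X : BinaryTree Unit) : q12 (A △ X) = ((q12 A || q12 X) || (li3 A && hb12 X)) := rfl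

theorem q12_in {A : BinaryTree Unit} (X : BinaryTree Unit) (h : q12 A = true) : q12 (A △ X) = true := by
  rw [q12_node, h]; rfl

theorem q12_tl (A : BinaryTree Unit) {X : BinaryTree Unit} (h : q12 X = true) : q12 (A △ X) = true := by
  rw [q12_node, h]; simp

theorem hb12_app {P : BinaryTree Unit} (X : BinaryTree Unit) (h : hb12 P = true) : hb12 (app P X) = true := by
  cases P with
  | nil => exact absurd h (by decide)
  | node _ A C =>
    change (isNil A && hd12 C) = true at h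
    change (isNil A && hd12 (app C X)) = true
    rw [Bool.and_eq_true] at h ⊢
    refine ⟨h.1, ?_⟩
    cases C with
    | nil => exact absurd h.2 (by decide)
    | node _ A' C' => exact h.2

theorem q12_appl {P : BinaryTree Unit} (X : BinaryTree Unit) (h : q12 P = true) : q12 (app P X) = true := by
  induction P with
  | nil => exact absurd h (by decide)
  | node _ A C _ ih =>
    change ((q12 A || q12 C) || (li3 A && hb12 C)) = true at h
    change ((q12 A || q12 (app C X)) || (li3 A && hb12 (app C X))) = true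
    rw [Bool.or_eq_true, Bool.or_eq_true] at h
    rcases h with (h | h) | h
    · rw [h]; rfl
    · rw [ih h]; simp
    · rw [Bool.and_eq_true] at h
      rw [h.1, hb12_app X h.2]; simp

theorem q12_appr (P : BinaryTree Unit) {X : BinaryTree Unit} (h : q12 X = true) : q12 (app P X) = true := by
  induction P with
  | nil => exact h
  | node _ A C _ ih => exact q12_tl A ih

theorem q12_W {R Q B S : BinaryTree Unit} (hR : q12 R = true) (hS : q12 S = true) {i : ℕ} (hi : i < 20) :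
    q12 (W R Q B S i) = true := by
  interval_cases i <;>
    first
      | exact q12_appl _ hR
      | exact q12_tl _ (q12_appl _ hR)
      | exact q12_in _ (q12_appl _ hR)
      | exact q12_tl _ hR
      | exact q12_tl _ (q12_tl _ hR)
      | exact q12_in _ hR
      | exact q12_appr _ (q12_in _ (q12_tl _ hR))
      | exact q12_appr _ (q12_tl _ (q12_in _ hR))
      | exact q12_in _ (q12_in _ hR)
      | exact q12_appr _ (q12_tl _ hS)
      | exact q12_appr _ (q12_tl _ (q12_appr _ (q12_tl _ hS)))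
      | exact q12_in _ hS
      | exact q12_appl _ hS
      | exact q12_in _ (q12_appr _ (q12_tl _ hS))
      | exact q12_tl _ (q12_in _ hS)
      | exact q12_appr _ (q12_in _ (q12_in _ hS))
      | exact q12_appr _ (q12_tl _ (q12_appl _ hS))
      | exact q12_in _ (q12_appl _ hS)

theorem q12_L3 {m a : ℕ} {A : BinaryTree Unit} (hm : 1 ≤ m) (ha : 1 ≤ a) (hA : li3 A = true) :
    q12 (A △ L3 m a) = true := by
  obtain ⟨m, rfl⟩ : ∃ m', m = m' + 1 := ⟨m - 1, by omega⟩
  obtain ⟨a, rfl⟩ : ∃ a', a = a' + 1 := ⟨a - 1, by omega⟩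
  clear hm ha
  induction m generalizing A with
  | zero =>
    rw [q12_node, hA]
    have : hb12 (L3 (0 + 1) (a + 1)) = true := rfl
    rw [this]
    simp
  | succ m ih => exact q12_tl _ (ih (A := .nil) rfl)

theorem q12_w3 {b m a : ℕ} (hm : 1 ≤ m) (ha : 1 ≤ a) {i : ℕ} (hi : i < 20) : q12 (w3 b m a i) = true :=
  q12_W (q12_in _ (q12_L3 hm ha rfl)) (q12_L3 hm ha rfl) hi

/-! ### No pattern -/

theorem hb12_lv2 (c : ℕ) : hb12 (lv2 c .nil) = false := by
  cases c <;> rfl

theorem q12_lv2 {X : BinaryTree Unit} (h : hb12 X = false) (c : ℕ) : q12 (lv2 c X) = q12 X := by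
  induction c with
  | zero => rfl
  | succ c ih =>
    have h1 : hb12 (lv2 c X) = false := by
      cases c with
      | zero => exact h
      | succ c => rfl
    change ((q12 (.nil △ .nil) || q12 (lv2 c X)) || (li3 (.nil △ .nil) && hb12 (lv2 c X))) = _
    rw [ih, h1]
    have h2 : q12 (.nil △ .nil) = false := rfl
    rw [h2]
    simp

theorem mir_lv2' (c : ℕ) (Z : BinaryTree Unit) : Tsq.mir (lv2 c Z) = app (Tsq.mir Z) (lv2 c .nil) := by
  induction c with
  | zero => exact (app_nil _).symm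
  | succ c ih =>
    change app (Tsq.mir (lv2 c Z)) (Tsq.mir (.nil △ .nil) △ .nil) = _
    rw [ih, app_assoc]
    change app (Tsq.mir Z) (app (lv2 c .nil) ((.nil △ .nil) △ .nil)) = _
    rw [app_lv2s]

/-- the four insides -/
def V4 : ℕ → BinaryTree Unit
  | 1 => .nil △ (.nil △ (.nil △ .nil))
  | 3 => .nil △ ((.nil △ .nil) △ .nil)
  | 6 => (.nil △ (.nil △ .nil)) △ .nil
  | _ => (.nil △ .nil) △ (.nil △ .nil)

/-- the inner words, case A -/
def yA (f0 f1 t i : ℕ) : BinaryTree Unit :=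
  lv2 f1 (lv2 t ((.nil △ .nil) △ (.nil △ (V4 i △ .nil))) △ lv2 f0 .nil)

/-- the inner words, case B -/
def yB (c i : ℕ) : BinaryTree Unit := lv2 c (tb3 △ ((V4 i △ .nil) △ .nil))

theorem q12_V4 (i : ℕ) : q12 (V4 i) = false ∧ q12 (Tsq.mir (V4 i)) = false ∧ is1 (V4 i) = false ∧
    li3 (Tsq.mir (V4 i)) = false := by
  unfold V4
  split <;> decide

theorem q12_yA (f0 f1 t i : ℕ) : q12 (yA f0 f1 t i) = false := by
  obtain ⟨h1, h2, h3, h4⟩ := q12_V4 i
  have hX : q12 ((.nil △ .nil) △ (.nil △ (V4 i △ .nil))) = false := by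
    have e1 : hb12 (.nil △ (V4 i △ .nil)) = false := h3
    have e2 : hb12 (V4 i △ .nil) = false := by
      change (isNil (V4 i) && hd12 .nil) = false
      simp [hd12]
    have e0 : q12 (V4 i △ .nil) = false := by
      rw [q12_node, h1]
      simp [q12, hb12]
    have e3 : q12 (.nil △ (V4 i △ .nil)) = false := by
      rw [q12_node, e0, e2]
      simp [q12]
    rw [q12_node, e3, e1]
    simp [q12, hb12]
  have hX2 : hb12 ((.nil △ .nil) △ (.nil △ (V4 i △ .nil))) = false := rfl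
  have h5 : q12 (lv2 t ((.nil △ .nil) △ (.nil △ (V4 i △ .nil))) △ lv2 f0 .nil) = false := by
    rw [q12_node, q12_lv2 hX2, hX, hb12_lv2, q12_lv2 rfl]
    simp [q12]
  have h6 : hb12 (lv2 t ((.nil △ .nil) △ (.nil △ (V4 i △ .nil))) △ lv2 f0 .nil) = false := by
    change (isNil (lv2 t ((.nil △ .nil) △ (.nil △ (V4 i △ .nil)))) && _) = false
    have : isNil (lv2 t ((.nil △ .nil) △ (.nil △ (V4 i △ .nil)))) = false := by cases t <;> rfl
    rw [this]; rfl
  unfold yA
  rw [q12_lv2 h6, h5]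

theorem q12_yB (c i : ℕ) : q12 (yB c i) = false := by
  obtain ⟨h1, h2, h3, h4⟩ := q12_V4 i
  unfold yB
  rw [q12_lv2 rfl, q12_node, q12_node, q12_node, h1]
  simp [q12, hb12, tb3, hd12, isNil]

theorem q12_myA (f1 t i : ℕ) : q12 (Tsq.mir (yA 0 f1 t i)) = false := by
  obtain ⟨h1, h2, h3, h4⟩ := q12_V4 i
  have e1 : Tsq.mir (yA 0 f1 t i) =
      (Tsq.mir (V4 i) △ (.nil △ ((.nil △ .nil) △ lv2 t .nil))) △ lv2 f1 .nil := by
    unfold yA
    rw [mir_lv2']
    change app (app (Tsq.mir .nil) (Tsq.mir (lv2 t _) △ .nil)) _ = _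
    rw [mir_lv2']
    change (app (app (app (app (Tsq.mir .nil) (Tsq.mir (V4 i) △ .nil)) _) _) _) △ _ = _
    rfl
  rw [e1]
  have h5 : hb12 (.nil △ ((.nil △ .nil) △ lv2 t .nil)) = true := rfl
  have h6 : hb12 ((.nil △ .nil) △ lv2 t .nil) = false := rfl
  have h7 : q12 ((.nil △ .nil) △ lv2 t .nil) = false := by
    rw [q12_node, hb12_lv2, q12_lv2 rfl]; rfl
  rw [q12_node, q12_node, q12_node, hb12_lv2, h6, h7, h2, h4, q12_lv2 rfl]
  simp [q12]

theorem q12_myB (c i : ℕ) : q12 (Tsq.mir (yB c i)) = false := by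
  obtain ⟨h1, h2, h3, h4⟩ := q12_V4 i
  have e1 : Tsq.mir (yB c i) = (Tsq.mir (V4 i) △ .nil) △ (tb3 △ lv2 c .nil) := by
    unfold yB
    rw [mir_lv2']
    rfl
  rw [e1]
  have h5 : hb12 (tb3 △ lv2 c .nil) = false := rfl
  rw [q12_node, q12_node, q12_node, h5, h2, hb12_lv2, q12_lv2 rfl]
  simp [q12, tb3, hb12, hd12]

/-! ### The words -/

theorem wd_ext1 {t t' : BinaryTree Unit} (h : wd t = wd t') : t = t' :=
  (wd_inj t t' [] [] (by rw [h])).1

theorem wd_lv2_cons (c : ℕ) (X : BinaryTree Unit) : wd (lv2 c X) = wd (lv2 c .nil) ++ wd X := by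
  rw [Ring1.lv2_app, wd_app]

theorem wd_lv2_not0 (n : ℕ) (l : List Bool) :
    (wd (lv2 n .nil)).map not ++ false :: false :: l = false :: false :: (wd (lv2 n .nil) ++ l) := by
  induction n with
  | zero => rfl
  | succ n ih =>
    change false :: false :: true :: true :: ((wd (lv2 n .nil)).map not ++ false :: false :: l) =
      false :: false :: true :: true :: false :: false :: (wd (lv2 n .nil) ++ l)
    rw [ih]

/-- the ends of the four inner words -/
def s4 : ℕ → List Bool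
  | 1 => [false, true, false, true, false]
  | 3 => [false, true, true, false, false]
  | 6 => [true, false, true, false, false]
  | _ => [true, false, false, true, false]

theorem s4_V4 (i : ℕ) : true :: s4 i = wd (V4 i) := by
  unfold s4 V4
  split <;> rfl

/-- the four words: `T` by the first maximum of `R` -/
theorem wdT4 {R : BinaryTree Unit} {a b : List Bool} (h : FM R a b) (h3 : 2 ≤ Tsq.ht R) {x : X k} {i : ℕ}
    (hi : i ∈ [1, 3, 6, 8]) {B S : BinaryTree Unit} (hx : x.1 = H1.W R .nil B S i) :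
    wd (TT x).1 = b.map not ++ (s4 i ++ a.map not) := by
  simp only [List.mem_cons, List.not_mem_nil, or_false] at hi
  rcases hi with rfl | rfl | rfl | rfl
  · have h1 : FM x.1 a (b ++ wd (.nil △ (.nil △ .nil))) := by
      rw [hx]
      exact h.app_right (by
        change (max 1 (max 1 0)) ≤ _
        omega)
    rw [h1.wdT]
    simp [wd, s4]
  · have h1 : FM (app R (.nil △ .nil)) a (b ++ wd (.nil △ .nil)) := h.app_right (by
      change (max 1 0) ≤ _
      omega)
    have h2 : FM x.1 (true :: a) (b ++ wd (.nil △ .nil) ++ false :: wd .nil) := by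
      rw [hx]
      exact h1.node (by
        change 0 ≤ _
        omega)
    rw [h2.wdT]
    simp [wd, s4]
  · have h2 : FM x.1 (true :: a) (b ++ false :: wd (.nil △ .nil)) := by
      rw [hx]
      exact h.node (by
        change max 1 0 ≤ _
        omega)
    rw [h2.wdT]
    simp [wd, s4]
  · have h1 : FM (R △ .nil) (true :: a) (b ++ false :: wd .nil) := h.node (by
      change 0 ≤ _
      omega)
    have h2 : FM x.1 (wd (.nil △ .nil) ++ (true :: a)) (b ++ false :: wd .nil) := by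
      rw [hx]
      exact h1.app_left (P := .nil △ .nil) (by
        change max 1 0 < max (Tsq.ht R + 1) 0
        omega)
    rw [h2.wdT]
    simp [wd, s4]

theorem FM_one : FM (.nil △ .nil) [] [false] := ⟨rfl, fun m => by simp; decide, by decide⟩

/-- first maximum of the tree, case A -/
theorem FM_A (f0 f1 t : ℕ) : FM (lv2 f0 (lv2 (f1 + 1) .nil △ lv2 t (tb3 △ .nil))) (wd (lv2 f0 .nil) ++ [true, true])
    ([false] ++ false :: wd (lv2 f1 .nil) ++ false :: wd (lv2 t (tb3 △ .nil))) := by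
  have h1 : FM (lv2 (f1 + 1) .nil) [true] ([false] ++ false :: wd (lv2 f1 .nil)) := FM_one.node (by
    have := Ring1.ht_lv2 f1 .nil
    rw [H1.ht_eq]
    change _ ≤ max 2 0 at this
    change _ ≤ 2
    omega)
  have hA : Tsq.ht (lv2 (f1 + 1) .nil) = 2 := by
    have := Ring1.ht_lv2 f1 .nil
    change _ ≤ max 2 0 at this
    rw [H1.ht_eq]
    change max 2 (OddHC.ht (lv2 f1 .nil)) = 2
    omega
  have hY : Tsq.ht (lv2 t (tb3 △ .nil)) ≤ 2 := by
    have := Ring1.ht_lv2 t (tb3 △ .nil)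
    rw [H1.ht_eq]
    have h2 : OddHC.ht (tb3 △ .nil) = 2 := by decide
    omega
  have h2 := h1.node (Z := lv2 t (tb3 △ .nil)) (by omega)
  have h3 := h2.app_left (P := lv2 f0 .nil) (by
    have := Ring1.ht_lv2 f0 .nil
    change _ ≤ max 2 0 at this
    rw [H1.ht_eq, Tsq.ht_node]
    omega)
  rw [← Ring1.lv2_app] at h3
  exact h3

/-- the inner words, case A -/
theorem TT_A {f0 f1 t : ℕ} {x : X k} {i : ℕ} (hi : i ∈ [1, 3, 6, 8]) {B S : BinaryTree Unit}
    (hx : x.1 = H1.W (lv2 f0 (lv2 (f1 + 1) .nil △ lv2 t (tb3 △ .nil))) .nil B S i) : (TT x).1 = yA f0 f1 t i := by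
  apply wd_ext1
  have hR : 2 ≤ Tsq.ht (lv2 f0 (lv2 (f1 + 1) .nil △ lv2 t (tb3 △ .nil))) := by
    rw [Ring1.lv2_app, Tsq.ht_app, Tsq.ht_node]
    have hA : 1 ≤ Tsq.ht (lv2 (f1 + 1) .nil) := by
      change 1 ≤ max (max 1 0 + 1) _
      omega
    omega
  rw [wdT4 (FM_A f0 f1 t) hR hi hx]
  have r1 : wd (yA f0 f1 t i) = wd (lv2 f1 .nil) ++ true :: ((wd (lv2 t .nil) ++
      (true :: true :: false :: false :: true :: false :: true :: (true :: s4 i ++ [false]))) ++
        false :: wd (lv2 f0 .nil)) := by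
    unfold yA
    rw [wd_lv2_cons, wd_node, wd_lv2_cons t, s4_V4]
    rfl
  have r2 : wd (lv2 t (tb3 △ .nil)) = wd (lv2 t .nil) ++ [true, true, false, true, false, false] := wd_lv2_cons _ _
  have e2 := wd_lv2_not f1 (true :: ((wd (lv2 t .nil)).map not ++ ([false, false, true, false, true, true] ++
    (s4 i ++ ((wd (lv2 f0 .nil)).map not ++ [false, false])))))
  have e3 := wd_lv2_not t (false :: false :: true :: false :: true :: true ::
    (s4 i ++ ((wd (lv2 f0 .nil)).map not ++ [false, false])))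
  have e4 := wd_lv2_not0 f0 []
  rw [r1, r2]
  simp only [List.map_append, List.map_cons, List.map_nil, Bool.not_false, Bool.not_true, List.append_assoc,
    List.cons_append, List.nil_append, List.append_nil] at e2 e3 e4 ⊢
  rw [e2, e3, e4]

/-- the inner words, case B -/
theorem TT_B {c : ℕ} {x : X k} {i : ℕ} (hi : i ∈ [1, 3, 6, 8]) {B S : BinaryTree Unit}
    (hx : x.1 = H1.W (lv2 (c + 1) (.nil △ ((.nil △ .nil) △ .nil)) △ .nil) .nil B S i) : (TT x).1 = yB c i := by
  apply wd_ext1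
  have hY : OddHC.ht (lv2 c (.nil △ ((.nil △ .nil) △ .nil))) ≤ 2 := by
    have := Ring1.ht_lv2 c (.nil △ ((.nil △ .nil) △ .nil))
    have h2 : OddHC.ht (.nil △ ((.nil △ .nil) △ .nil)) = 2 := by decide
    omega
  have h1 : FM (lv2 (c + 1) (.nil △ ((.nil △ .nil) △ .nil))) [true]
      ([false] ++ false :: wd (lv2 c (.nil △ ((.nil △ .nil) △ .nil)))) := FM_one.node (by
    rw [H1.ht_eq]
    change _ ≤ 2
    exact hY)
  have h2 := h1.node (Z := .nil) (by
    change 0 ≤ _
    omega)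
  have hR : 2 ≤ Tsq.ht (lv2 (c + 1) (.nil △ ((.nil △ .nil) △ .nil)) △ .nil) := by
    change 2 ≤ max (max (max 1 0 + 1) _ + 1) 0
    omega
  rw [wdT4 h2 hR hi hx]
  have r1 : wd (yB c i) = wd (lv2 c .nil) ++ (true :: true :: false :: true :: false :: false ::
      true :: true :: (true :: s4 i ++ [false, false])) := by
    unfold yB
    rw [wd_lv2_cons, s4_V4]
    change _ = _ ++ (true :: true :: false :: true :: false :: false :: true :: true :: (wd (V4 i) ++ [false, false]))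
    change _ ++ (true :: true :: false :: true :: false :: false ::
      (true :: ((true :: (wd (V4 i) ++ [false])) ++ [false]))) = _
    simp
  have r2 : wd (lv2 c (.nil △ ((.nil △ .nil) △ .nil))) = wd (lv2 c .nil) ++ [true, false, true, true, false, false] :=
    wd_lv2_cons _ _
  have e2 := wd_lv2_not c (false :: true :: false :: false :: true :: true :: true ::
    (s4 i ++ [false, false]))
  rw [r1, r2]
  have r3 : wd (.nil : BinaryTree Unit) = [] := rfl
  rw [r3]
  simp only [List.map_append, List.map_cons, List.map_nil, Bool.not_false, Bool.not_true, List.append_assoc,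
    List.cons_append, List.nil_append, List.append_nil] at e2 ⊢
  rw [e2]

/-! ### The tree for `n = 1` -/

theorem rr_one (Φ : ZMod (2 * 1 + 1) → ℕ) :
    rr 1 Φ = lv (Φ 0) (lv (Φ 1 + 1) .nil △ lv (Φ (-1)) .nil) := rfl

theorem RH_oneA (Φ : ZMod (2 * 1 + 1) → ℕ) {t : ℕ} (h : Φ (-1) = t + 1) :
    RH 1 Φ = lv2 (Φ 0) (lv2 (Φ 1 + 1) .nil △ lv2 t (tb3 △ .nil)) := by
  have a1 := (Wd.inf (lv (Φ 0) (lv (Φ 1 + 1) .nil △ lv t .nil))).app Wd.three
  have er : app (lv (Φ 0) (lv (Φ 1 + 1) .nil △ lv t .nil)) (.nil △ .nil) = rr 1 Φ := by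
    rw [rr_one, h, lv_app (Φ 0) (lv (Φ 1 + 1) .nil △ lv t .nil), app_assoc,
      lv_app (Φ 0) (lv (Φ 1 + 1) .nil △ lv (t + 1) .nil)]
    change app (lv (Φ 0) .nil) (_ △ app (lv t .nil) (.nil △ .nil)) = _
    rw [app_lv]
  have hnum := rr_num le_rfl Φ
  rw [← er, num_app'] at hnum
  have hone : (.nil △ .nil : BinaryTree Unit).numNodes = 1 := rfl
  rw [er, inf_lv, inf_node, Ring1.inf_lp, inf1_eq (by simp [lv]), Ring1.inf_lp] at a1
  have a2 := (Wd_RH le_rfl Φ).det (a1.cast rfl (by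
    rw [zero_add, Multiset.map_singleton]
    congr 1
    unfold gH
    rw [if_pos (by omega)]
    omega) rfl)
  rw [a2, Ring1.lv2_app, app_assoc, Ring1.lv2_app (Φ 0) (_ △ lv2 t (tb3 △ .nil))]
  change app _ (_ △ app (lv2 t .nil) (tb3 △ .nil)) = _
  rw [← Ring1.lv2_app t]

theorem Wd.lead : Wd (.nil △ .nil) {0} (.nil △ ((.nil △ .nil) △ .nil)) := by
  refine ⟨?_, rfl⟩
  intro y hy
  rw [Multiset.mem_singleton] at hy
  subst hy
  omega

theorem RH_oneB (Φ : ZMod (2 * 1 + 1) → ℕ) (h : Φ (-1) = 0) (h0 : Φ 0 = 0) :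
    RH 1 Φ = lv2 (Φ 1) (.nil △ ((.nil △ .nil) △ .nil)) △ .nil := by
  have a1 := ((Wd.inf (lv (Φ 1) .nil)).app Wd.lead).wrap (by
    intro e
    have := (app_eq_nil.1 e).2
    simp at this)
  have er : (app (lv (Φ 1) .nil) (.nil △ .nil)) △ .nil = rr 1 Φ := by
    rw [rr_one, h, h0, app_lv]
    rfl
  have hnum := rr_num le_rfl Φ
  rw [← er] at hnum
  change (app (lv (Φ 1) .nil) (.nil △ .nil)).numNodes + 0 + 1 = _ at hnum
  rw [num_app', lv_num'] at hnum
  have hone : (.nil △ .nil : BinaryTree Unit).numNodes = 1 := rfl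
  rw [er, Ring1.inf_lp] at a1
  have a2 := (Wd_RH le_rfl Φ).det (a1.cast rfl (by
    rw [zero_add, Multiset.map_singleton, Multiset.map_singleton, lv_num']
    congr 1
    unfold gH
    rw [if_neg (by omega)]
    omega) rfl)
  rw [a2, ← Ring1.lv2_app]

/-- the four inner words (right) have no pattern, and their mirror images if `Φ 0 = 0` -/
theorem q12_xw {Φ : ZMod (2 * 1 + 1) → ℕ} (h1 : 1 ≤ ∑ x, Φ x) (hr : 1 ≤ Φ (-1) ∨ (Φ (-1) = 0 ∧ Φ 0 = 0))
    (hk : 1 + 5 + 2 * ∑ x, Φ x = k) (w0 : X k) {i : ℕ} (hi : i ∈ [1, 3, 6, 8]) :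
    q12 (TT (xw 1 Φ w0 i)).1 = false ∧ (Φ 0 = 0 → q12 (Tsq.mir (TT (xw 1 Φ w0 i)).1) = false) := by
  have hlt : ∀ i ∈ [1, 3, 6, 8], i < 20 := by decide
  have hx := xw_val le_rfl hk w0 (hlt i hi)
  rcases hr with hr | ⟨hr, hr0⟩
  · obtain ⟨t, ht⟩ : ∃ t, Φ (-1) = t + 1 := ⟨Φ (-1) - 1, by omega⟩
    rw [RH_oneA Φ ht] at hx
    rw [TT_A hi hx]
    exact ⟨q12_yA _ _ _ _, fun h0 => by rw [h0]; exact q12_myA _ _ _⟩
  · have hs : ∑ x, Φ x = Φ 0 + Φ 1 + Φ (-1) := Fin.sum_univ_three Φ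
    obtain ⟨c, hc⟩ : ∃ c, Φ 1 = c + 1 := ⟨Φ 1 - 1, by omega⟩
    rw [RH_oneB Φ hr hr0, hc] at hx
    rw [TT_B hi hx]
    exact ⟨q12_yB _ _, fun _ => q12_myB _ _⟩

end L1

open L1

/-- the height of L1 -/
theorem L1.ht_xw {n : ℕ} (hn : 1 ≤ n) {Φ : ZMod (2 * n + 1) → ℕ} (hk : n + 5 + 2 * ∑ x, Φ x = k) (w0 : X k) :
    OddHC.ht (xw n Φ w0 0).1 = n + 2 := by
  rw [xw_val hn hk w0 (by norm_num)]
  change OddHC.ht (app (RH n Φ) ((.nil △ .nil) △ .nil)) = _
  rw [L1.ht_app, ht_RH hn]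
  change max (n + 2) 2 = n + 2
  omega

/-- **row I-L1-T**: inner words of L1 are no words of a window T which is not lower -/
theorem TyL1.inner_T (h : TyL1 F g) (h' : TyT F' g') (hle : ∀ c ∈ F, ∀ d ∈ F', htc c ≤ htc d) :
    ∀ p ∈ g.arcs, ∀ w ∈ innA p, w ∉ g'.B := by
  intro p hp w hw hw'
  have h3 := h'.ht3
  -- the words of T have the pattern
  have key : q12 w.1 = true ∧ ∃ d ∈ F', htc d = 3 := by
    obtain ⟨b, m, a, w1, h1', rfl, rfl⟩ := h'
    obtain ⟨j, hj, rfl⟩ := mem_gad20.1 hw'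
    refine ⟨?_, _, rfl, h3 _ rfl⟩
    rw [h1'.word w1 hj]
    exact q12_w3 h1'.mpos h1'.pos hj
  obtain ⟨hq, d, hd, hd3⟩ := key
  have hwi : w = TT p.1 := hw
  subst hwi
  rcases h with ⟨n, Φ, w0, hb, hr, rfl, rfl⟩ | ⟨n, Φ, w0, hb, hr, rfl, rfl⟩
  · have hn : n = 1 := by
      have h4 := hle (cyc (xw n Φ w0 0)) (Or.inl rfl) d hd
      rw [htc_cyc, L1.ht_xw hb.hn hb.hk] at h4
      have := hb.hn
      omega
    subst hn
    have hr' : 1 ≤ Φ (-1) ∨ (Φ (-1) = 0 ∧ Φ 0 = 0) := by
      rcases hr with hr | ⟨h1, h2, _⟩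
      · exact Or.inl hr
      · exact Or.inr ⟨h1, h2⟩
    have key : ∀ i ∈ [1, 3, 6, 8], p.1 = xw 1 Φ w0 i → False := by
      intro i hi e
      rw [e, (q12_xw hb.one hr' hb.hk w0 hi).1] at hq
      simp at hq
    rcases hp with e | e | e | e
    · exact key 1 (by simp) (congrArg Prod.fst e)
    · exact key 3 (by simp) (congrArg Prod.fst e)
    · exact key 6 (by simp) (congrArg Prod.fst e)
    · exact key 8 (by simp) (congrArg Prod.fst e)
  · have hkr : n + 5 + 2 * ∑ x, J.rf Φ x = k := by rw [J.rf_sum]; exact hb.hk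
    have hn : n = 1 := by
      have h4 := hle (cyc (xm n Φ w0 0)) (Or.inl rfl) d hd
      have e : OddHC.ht (xm n Φ w0 0).1 = OddHC.ht (xw n (J.rf Φ) w0 0).1 := by
        change OddHC.ht (Tsq.mir (xw n (J.rf Φ) w0 0).1) = _
        rw [OddHC.ht_eq, HM.cont_mir, ← OddHC.ht_eq]
      rw [htc_cyc, e, L1.ht_xw hb.hn hkr] at h4
      have := hb.hn
      omega
    subst hn
    have m0 : J.rf Φ 0 = Φ (-1) := by unfold J.rf; congr 1
    have m1 : J.rf Φ (-1) = Φ 0 := by unfold J.rf; congr 1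
    obtain ⟨_, r2, _, r4⟩ := hr
    have hr' : 1 ≤ J.rf Φ (-1) ∨ (J.rf Φ (-1) = 0 ∧ J.rf Φ 0 = 0) := by
      rw [m0, m1]
      rcases r4 with r4 | ⟨r4, _⟩
      · exact Or.inl r4
      · exact Or.inr ⟨r4, r2⟩
    have key : ∀ i j, (i, j) ∈ [(1, 11), (3, 12), (6, 15), (8, 14)] → p.1 = xm 1 Φ w0 j → False := by
      intro i j hij e
      have hi : i ∈ [1, 3, 6, 8] := by
        simp only [List.mem_cons, Prod.mk.injEq, List.not_mem_nil, or_false] at hij ⊢
        omega
      have hij' : (i, j) ∈ [(0, 10), (1, 11), (3, 12), (6, 15), (8, 14), (9, 17)] := by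
        simp only [List.mem_cons, Prod.mk.injEq, List.not_mem_nil, or_false] at hij ⊢
        omega
      have h2 : TT (TT (xw 1 (J.rf Φ) w0 i)) = xw 1 (J.rf Φ) w0 j := (GR_RH le_rfl (J.rf Φ) hkr).link w0 hij'
      have h5 : TT p.1 = Tsq.mirX (TT (xw 1 (J.rf Φ) w0 i)) := by
        rw [e]
        change TT (Tsq.mirX (xw 1 (J.rf Φ) w0 j)) = _
        rw [← h2, Tsq.TT_mir]
      rw [h5] at hq
      have h6 := (q12_xw (by rw [J.rf_sum]; exact hb.one) hr' hkr w0 hi).2 (by rw [m0]; exact r2)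
      change q12 (Tsq.mir (TT (xw 1 (J.rf Φ) w0 i)).1) = true at hq
      rw [h6] at hq
      simp at hq
    rcases hp with e | e | e | e
    · exact key 1 11 (by simp) (congrArg Prod.fst e)
    · exact key 3 12 (by simp) (congrArg Prod.fst e)
    · exact key 6 15 (by simp) (congrArg Prod.fst e)
    · exact key 8 14 (by simp) (congrArg Prod.fst e)

end Pool.OddHC
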