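import Pool.Agent.Work.MP_8f87b2_h3.RqL1
import Pool.Agent.Work.MP_8f87b2_h35.TyRqE

/-!
# MP_8f87b2_co: row I-RqE-L1
-/

set_option autoImplicit false

namespace Pool.OddHC

open Finset Equiv BinaryTree Pool.Agent.Work.MP_8f87b2_co

variable {k : ℕ} {F F' : Set (Cyc k)} {g g' : DG k}

/-- **row I-RqE-L1** -/
theorem TyRqE.inner_L1 {q : ℕ} (h : TyRqE q F g) (h' : TyL1 F' g') :
    ∀ p ∈ g.arcs, ∀ w ∈ innA p, w ∉ g'.B := by
  intro p hp w hw
  obtain ⟨R, B, S, w0, i, h1, hi, rfl, _⟩ := h.inn0 p hp w hw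
  refine h1.inn_L1 w0 ?_ h'
  simp only [List.mem_cons, List.not_mem_nil, or_false] at hi ⊢
  omega

end Pool.OddHC
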