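import Pool.Agent.Work.MP_8f87b2_h3.L1T2
import Pool.Agent.Work.MP_8f87b2_h13.RqI

/-!
# MP_8f87b2_co: row I-Rq-L1

Inner words of the right windows (smallest part `q + 3`, at least two parts) against the words of the gadgets L1.
-/

set_option autoImplicit false

namespace Pool.OddHC

open Finset Equiv BinaryTree Pool.Agent.Work.MP_8f87b2_co

variable {k : ℕ} {F F' : Set (Cyc k)} {g g' : DG k}

namespace L1

open H1 J

variable {n q g0 : ℕ} {R B S R' B' S' t : BinaryTree Unit}

/-! ### Counting parts -/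

/-- number of parts at least `p` -/
def cp (p : ℕ) (M : Multiset ℕ) : ℕ := Multiset.countP (p ≤ ·) M

theorem cp_add (p : ℕ) (M N : Multiset ℕ) : cp p (M + N) = cp p M + cp p N := Multiset.countP_add ..

theorem cp_one (p x : ℕ) : cp p {x} = if p ≤ x then 1 else 0 := by
  unfold cp
  rw [← Multiset.cons_zero, Multiset.countP_cons]
  simp

theorem cp_rep (p c x : ℕ) (h : x < p) : cp p (Multiset.replicate c x) = 0 := by
  unfold cp
  rw [Multiset.countP_eq_zero]
  intro y hy
  rw [Multiset.eq_of_mem_replicate hy]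
  omega

theorem ne_zero_sup {M : Multiset ℕ} {p : ℕ} (h : p ≤ M.sup) (h0 : 1 ≤ p) : M ≠ 0 := by
  rintro rfl
  rw [Multiset.sup_zero] at h
  change p ≤ 0 at h
  omega

theorem cp_raise {p : ℕ} {M : Multiset ℕ} (h : p ≤ M.sup) (h0 : 1 ≤ p) : cp p (raise M) = cp p M := by
  have hm : M.sup ∈ M := sup_mem (ne_zero_sup h h0)
  have e : cp p M = cp p (M.erase M.sup) + 1 := by
    conv_lhs => rw [← Multiset.cons_erase hm]
    unfold cp
    rw [Multiset.countP_cons_of_pos _ h]
  rw [e]
  unfold cp raise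
  rw [Multiset.countP_cons_of_pos _ (by omega)]

theorem ct_raise {M : Multiset ℕ} {x : ℕ} (hx : x < M.sup) : (raise M).count x = M.count x := by
  unfold raise
  rw [Multiset.count_cons_of_ne (by omega), Multiset.count_erase_of_ne (by omega)]

theorem sup_raise1 (M : Multiset ℕ) : (raise M).sup = M.sup + 1 := sup_raise M

/-- the contents of the six words with inner words -/
theorem cont_six {Q : BinaryTree Unit} (hQ : cont Q = {q + 1}) (hQ3 : cont ((Q △ .nil) △ .nil) = {q + 3})
    (hQ2 : cont (Q △ .nil) = {q + 2}) (hR : q + 1 ≤ (cont R).sup) (h1 : 1 ≤ (cont R).sup) {i : ℕ}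
    (hi : i ∈ [0, 1, 3, 6, 8, 9]) :
    (i = 0 ∧ cont (W R Q B S i) = cont R + {q + 3}) ∨
    (i = 1 ∧ cont (W R Q B S i) = cont R + ({1} + ({q + 1} + {1}))) ∨
    (i = 3 ∧ cont (W R Q B S i) = raise (cont R + ({1} + {q + 1}))) ∨
    (i = 6 ∧ cont (W R Q B S i) = raise (cont R) + {q + 2}) ∨
    (i = 8 ∧ cont (W R Q B S i) = {q + 1} + ({1} + raise (cont R))) ∨
    (i = 9 ∧ cont (W R Q B S i) = raise (raise (cont R)) + {q + 1}) := by
  have c0 : cont (.nil : BinaryTree Unit) = 0 := rfl
  have c1 : cont (.nil △ .nil : BinaryTree Unit) = {1} := rfl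
  have cn : ∀ X : BinaryTree Unit, cont (.nil △ X) = {1} + cont X := fun X => rfl
  simp only [List.mem_cons, List.not_mem_nil, or_false] at hi
  rcases hi with rfl | rfl | rfl | rfl | rfl | rfl
  · left
    refine ⟨rfl, ?_⟩
    change cont (app R ((Q △ .nil) △ .nil)) = _
    rw [cont_app, hQ3]
  · right; left
    refine ⟨rfl, ?_⟩
    change cont (app R (.nil △ app Q (.nil △ .nil))) = _
    rw [cont_app, cn, cont_app, hQ, c1]
  · right; right; left
    refine ⟨rfl, ?_⟩
    change cont (app R (.nil △ Q) △ .nil) = _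
    rw [cont_node, c0, add_zero, cont_app, cn, hQ]
  · right; right; right; left
    refine ⟨rfl, ?_⟩
    change cont (R △ (Q △ .nil)) = _
    rw [cont_node, hQ2]
  · right; right; right; right; left
    refine ⟨rfl, ?_⟩
    change cont (app Q (.nil △ (R △ .nil))) = _
    rw [cont_app, hQ, cn, cont_node, c0, add_zero]
  · right; right; right; right; right
    refine ⟨rfl, ?_⟩
    change cont ((R △ .nil) △ Q) = _
    rw [cont_node, cont_node, c0, add_zero, hQ]

theorem cont_chn (m : ℕ) : cont (ch (m + 1)) = {m + 1} := by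
  induction m with
  | zero => rfl
  | succ m ih =>
    change cont (ch (m + 1) △ .nil) = _
    rw [cont_node, ih]
    change raise {m + 1} + 0 = _
    rw [add_zero]
    unfold raise
    simp

/-- at least two parts `≥ p`, `p ≤ q + 3` -/
theorem two_parts (hp : ∀ x ∈ cont R, q + 3 ≤ x) (h2 : 2 ≤ Multiset.card (cont R)) {p : ℕ} (hp1 : 1 ≤ p)
    (hpq : p ≤ q + 3) {i : ℕ} (hi : i ∈ [0, 1, 3, 6, 8, 9]) : 2 ≤ cp p (cont (W R (ch (q + 1)) B S i)) := by
  have hc : cp p (cont R) = Multiset.card (cont R) := by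
    unfold cp
    rw [Multiset.countP_eq_card]
    intro x hx
    have := hp x hx
    omega
  have hs : p ≤ (cont R).sup := by
    obtain ⟨x, hx⟩ := Multiset.exists_mem_of_ne_zero (s := cont R) (by
      intro h0
      rw [h0] at h2
      simp at h2)
    exact (hpq.trans (hp x hx)).trans (Multiset.le_sup hx)
  have hs' : q + 1 ≤ (cont R).sup := by
    obtain ⟨x, hx⟩ := Multiset.exists_mem_of_ne_zero (s := cont R) (by
      intro h0
      rw [h0] at h2
      simp at h2)
    have h3 := hp x hx
    have h4 : x ≤ (cont R).sup := Multiset.le_sup hx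
    omega
  rcases cont_six (B := B) (S := S) (cont_chn q) (cont_chn (q + 2)) (cont_chn (q + 1)) hs' (hp1.trans hs) hi with
    ⟨_, e⟩ | ⟨_, e⟩ | ⟨_, e⟩ | ⟨_, e⟩ | ⟨_, e⟩ | ⟨_, e⟩
  · rw [e, cp_add]; omega
  · rw [e, cp_add]; omega
  · rw [e, cp_raise (by rw [sup_add']; exact hs.trans (le_max_left _ _)) hp1, cp_add]; omega
  · rw [e, cp_add, cp_raise hs hp1]; omega
  · rw [e, cp_add, cp_add, cp_raise hs hp1]; omega
  · rw [e, cp_add, cp_raise (by rw [sup_raise1]; omega) hp1, cp_raise hs hp1]; omega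

/-- the words of L1 which start with three ones and end with three zeros -/
theorem InnP.L1w (h : InnP g0 t) (hB : B = .nil ∨ ∃ c, B = lv2 c (tb3 △ .nil)) {j : ℕ} (hj : j < 20)
    (h5 : j ≠ 5) (e : t = W R .nil B S j) : j = 9 ∨ j = 17 ∨ (j = 19 ∧ B ≠ .nil) := by
  have g3 := h.g3
  have nf : ∀ Y, t ≠ .nil △ Y := fun Y => h.not_first
  have nl : ∀ Y, t ≠ app Y (.nil △ .nil) := fun Y => h.not_last
  have s2 : ∀ Y, t ≠ (.nil △ .nil) △ Y := fun Y e1 => by
    have := start_ch h (n := 2) (by norm_num) (Y := Y) e1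
    omega
  have s2' : ∀ X Y, t ≠ (.nil △ X) △ Y := fun X Y e1 => by
    have := h.start (n := 2) (v := wd X ++ false :: wd Y) (by rw [e1, wd_node, wd_node]; simp [wd])
    omega
  have e2 : ∀ Y, t ≠ app Y ((.nil △ .nil) △ .nil) := fun Y e1 => by
    have := stop_ch h (n := 2) (by norm_num) (Y := Y) e1
    omega
  have e2' : ∀ X Y, t ≠ app X (app Y (.nil △ .nil) △ .nil) := fun X Y e1 => by
    have := h.stop (n := 2) (v := wd X ++ true :: wd Y) (by
      rw [e1, wd_app, wd_node, wd_app]; simp [wd])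
    omega
  have hBn : B ≠ .nil → ∀ Y, t ≠ app B Y := by
    intro h0 Y e1
    rcases hB with hB | ⟨c, hB⟩
    · exact h0 hB
    · subst hB
      cases c with
      | zero => exact s2' _ _ e1
      | succ c => exact s2 _ e1
  interval_cases j
  · exact absurd e (e2 _)
  · exfalso
    refine nl (app R (.nil △ .nil)) ?_
    rw [e, app_assoc]
    rfl
  · exact absurd e (nf _)
  · exact absurd e (e2' .nil _)
  · exact absurd e (s2 _)
  · exact absurd rfl h5
  · exact absurd e (nl (R △ .nil))
  · exact absurd e (s2' _ _)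
  · exact absurd e (nf _)
  · exact Or.inl rfl
  · exfalso
    by_cases h0 : B = .nil
    · subst h0; exact s2 _ e
    · exact hBn h0 _ e
  · exfalso
    by_cases h0 : B = .nil
    · subst h0; exact nf _ e
    · exact hBn h0 _ e
  · exact absurd e (nl (S △ B))
  · exact absurd e (e2' _ _)
  · exact absurd e (s2' _ _)
  · exact absurd e (nf _)
  · exfalso
    refine nl (app S (B △ .nil)) ?_
    rw [e, app_assoc]
    rfl
  · exact Or.inr (Or.inl rfl)
  · exact absurd e (nf _)
  · refine Or.inr (Or.inr ⟨rfl, ?_⟩)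
    rintro rfl
    exact e2' .nil S e

/-! ### Contents of the words 9, 17, 19 -/

/-- one part `≥ 3` -/
theorem cp3_9 (hn : 1 ≤ n) (Φ : ZMod (2 * n + 1) → ℕ) {B S : BinaryTree Unit} :
    cp 3 (cont (W (RH n Φ) .nil B S 9)) = 1 := by
  have hs : (cont (RH n Φ)).sup = n + 2 := by rw [← ht_eq, ht_RH hn]
  change cp 3 (cont ((RH n Φ △ .nil) △ .nil)) = 1
  have c0 : cont (.nil : BinaryTree Unit) = 0 := rfl
  rw [cont_node, cont_node, c0, add_zero, add_zero, cp_raise (by rw [sup_raise1]; omega) (by norm_num),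
    cp_raise (by omega) (by norm_num), cont_RH hn, cp_add, cp_add, cp_one, cp_one, cp_rep 3 _ 2 (by norm_num),
    if_pos (by omega), if_neg (by norm_num)]

theorem cp3_17 (hn : 1 ≤ n) (Φ : ZMod (2 * n + 1) → ℕ) (gr : GR k (RH n Φ)) :
    cp 3 (cont (W (RH n Φ) .nil (Tsq.sq (RH n Φ)).2 (Tsq.sq (RH n Φ)).1 17)) = 1 := by
  have hs : (cont (Tsq.sq (RH n Φ)).1).sup = n + 2 := by rw [← ht_eq, gr.htS, ht_RH hn]
  change cp 3 (cont (((Tsq.sq (RH n Φ)).1 △ (Tsq.sq (RH n Φ)).2) △ .nil)) = 1
  have c0 : cont (.nil : BinaryTree Unit) = 0 := rfl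
  have h1 := gr.cont
  have h2 : cp 3 (cont (RH n Φ)) = 1 := by
    rw [cont_RH hn, cp_add, cp_add, cp_one, cp_one, cp_rep 3 _ 2 (by norm_num), if_pos (by omega),
      if_neg (by norm_num)]
  rw [← h1, cp_add] at h2
  rw [cont_node, cont_node, c0, add_zero, cp_raise (by
    rw [sup_add', sup_raise1]
    omega) (by norm_num), cp_add, cp_raise (by omega) (by norm_num)]
  omega

theorem cont_lv2 (c : ℕ) (X : BinaryTree Unit) : cont (lv2 c X) = Multiset.replicate c 2 + cont X := by
  induction c with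
  | zero => simp [lv2]
  | succ c ih =>
    change cont ((.nil △ .nil) △ lv2 c X) = _
    rw [cont_l1', ih, Multiset.replicate_succ, ← Multiset.singleton_add, add_assoc]

theorem cont_tb3 : cont (tb3 △ .nil) = {2, 1} := by decide

/-- the content of the word 19 -/
theorem cont_19 (hn : 1 ≤ n) (Φ : ZMod (2 * n + 1) → ℕ) (gr : GR k (RH n Φ)) {c : ℕ}
    (hB : (Tsq.sq (RH n Φ)).2 = lv2 c (tb3 △ .nil)) :
    ∃ e, c + 1 + e = ∑ x, Φ x ∧ cont (Tsq.sq (RH n Φ)).1 = {n + 2} + Multiset.replicate e 2 ∧
      cont (W (RH n Φ) .nil (Tsq.sq (RH n Φ)).2 (Tsq.sq (RH n Φ)).1 19) =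
        {n + 3} + {3} + {1} + Multiset.replicate (c + e) 2 := by
  have h1 := gr.cont
  rw [hB, cont_lv2, cont_tb3, cont_RH hn] at h1
  have hle : c + 1 ≤ ∑ x, Φ x := by
    have h2 := congrArg (Multiset.count 2) h1
    rw [Multiset.count_add, Multiset.count_add, Multiset.count_replicate_self, Multiset.count_add, Multiset.count_add,
      Multiset.count_replicate_self] at h2
    have h3 : Multiset.count 2 ({2, 1} : Multiset ℕ) = 1 := by decide
    have h4 : Multiset.count 2 ({n + 2} : Multiset ℕ) = 0 := by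
      rw [Multiset.count_singleton, if_neg (by omega)]
    have h5 : Multiset.count 2 ({1} : Multiset ℕ) = 0 := by decide
    omega
  obtain ⟨e, he⟩ : ∃ e, ∑ x, Φ x = c + 1 + e := ⟨_, (Nat.add_sub_cancel' hle).symm⟩
  have hS : cont (Tsq.sq (RH n Φ)).1 = {n + 2} + Multiset.replicate e 2 := by
    have h2 : Multiset.replicate c 2 + {2, 1} + cont (Tsq.sq (RH n Φ)).1 =
        Multiset.replicate c 2 + {2, 1} + ({n + 2} + Multiset.replicate e 2) := by
      rw [h1, he]
      have h3 : Multiset.replicate (c + 1 + e) 2 = Multiset.replicate c 2 + {2} + Multiset.replicate e 2 := by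
        rw [Multiset.replicate_add, Multiset.replicate_add, Multiset.replicate_one]
      have h4 : ({2, 1} : Multiset ℕ) = {2} + {1} := rfl
      rw [h3, h4]
      simp only [← add_assoc]
      abel
    exact add_left_cancel h2
  refine ⟨e, he.symm, hS, ?_⟩
  have c0 : cont (.nil : BinaryTree Unit) = 0 := rfl
  change cont (app (Tsq.sq (RH n Φ)).1 ((Tsq.sq (RH n Φ)).2 △ .nil) △ .nil) = _
  rw [cont_node, c0, add_zero, cont_app, cont_node, c0, add_zero, hS, hB, cont_lv2, cont_tb3]
  have h5 : raise (Multiset.replicate c 2 + {2, 1}) = Multiset.replicate c 2 + ({3} + {1}) := by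
    have h6 : (Multiset.replicate c 2 + {2, 1} : Multiset ℕ).sup = 2 := by
      rw [sup_add']
      have h7 : (Multiset.replicate c 2).sup ≤ 2 := Multiset.sup_le.2 fun b hb =>
        (Multiset.eq_of_mem_replicate hb).le
      have h8 : ({2, 1} : Multiset ℕ).sup = 2 := by decide
      omega
    unfold raise
    rw [h6]
    have h9 : (Multiset.replicate c 2 + {2, 1} : Multiset ℕ) = 2 ::ₘ (Multiset.replicate c 2 + {1}) := by
      rw [← Multiset.singleton_add]
      have h4 : ({2, 1} : Multiset ℕ) = {2} + {1} := rfl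
      rw [h4]
      abel
    rw [h9, Multiset.erase_cons_head, ← Multiset.singleton_add]
    abel
  rw [h5]
  have h6 : ({n + 2} + Multiset.replicate e 2 + (Multiset.replicate c 2 + ({3} + {1})) : Multiset ℕ) =
      (n + 2) ::ₘ ({3} + {1} + Multiset.replicate (c + e) 2) := by
    rw [← Multiset.singleton_add, Multiset.replicate_add]
    abel
  have h7 : ({3} + {1} + Multiset.replicate (c + e) 2 : Multiset ℕ).sup ≤ n + 2 := by
    rw [sup_add', sup_add']
    have h7 : (Multiset.replicate (c + e) 2).sup ≤ 2 := Multiset.sup_le.2 fun b hb =>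
      (Multiset.eq_of_mem_replicate hb).le
    have h8 : ({3} : Multiset ℕ).sup = 3 := by decide
    have h9 : ({1} : Multiset ℕ).sup = 1 := by decide
    omega
  rw [h6]
  unfold raise
  have h8 : ((n + 2) ::ₘ ({3} + {1} + Multiset.replicate (c + e) 2) : Multiset ℕ).sup = n + 2 := by
    rw [Multiset.sup_cons]
    exact max_eq_left h7
  rw [h8, Multiset.erase_cons_head, ← Multiset.singleton_add]
  simp only [← add_assoc]

/-! ### The last case -/

theorem no_desc {Z : List Bool} : ∀ (P : List Bool) (a b : ℕ),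
    P ++ true :: false :: Z ≠ List.replicate a false ++ List.replicate b true := by
  intro P
  induction P with
  | nil =>
    intro a b e
    cases a with
    | succ a => simp [List.replicate_succ] at e
    | zero =>
      cases b with
      | zero => simp at e
      | succ b =>
        cases b with
        | zero => simp at e
        | succ b => simp [List.replicate_succ] at e
  | cons p P ih =>
    intro a b e
    cases a with
    | succ a =>
      rw [List.replicate_succ, List.cons_append, List.cons_append, List.cons.injEq] at e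
      exact ih a b e.2
    | zero =>
      cases b with
      | zero => simp at e
      | succ b =>
        rw [List.replicate_zero, List.nil_append, List.replicate_succ, List.cons_append, List.cons.injEq] at e
        exact ih 0 b (by rw [e.2]; simp)

/-- the word 19 over `S = [n + 2]`, `B = (()())` is no inner word 9 -/
theorem no_19 {x : X k} {a b : List Bool} (h : FM R a b) (h4 : 4 ≤ Tsq.ht R)
    (hx : x.1 = W R (ch 1) B S 9) {m : ℕ} :
    (TT x).1 ≠ app (ch m) ((tb3 △ .nil) △ .nil) △ .nil := by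
  intro e
  have h1 := h.node (Z := .nil) (by change 0 ≤ _; omega)
  have h2 := h1.node (Z := ch 1) (by
    rw [Tsq.ht_node]
    change 1 ≤ _
    omega)
  have hx' : x.1 = (R △ .nil) △ ch 1 := hx
  rw [← hx'] at h2
  have h3 := h2.wdT
  rw [e, wd_node, wd_app, wd_ch] at h3
  have hl : 3 ≤ a.length := by
    have h5 := h.top
    have h6 := List.count_le_length (l := a) (a := true)
    omega
  have h5 := congrArg List.reverse h3
  have h6 : (List.map not a).reverse ++ ([false, false, false, true, false, true, true] ++ (List.map not b).reverse) =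
      [false, false, false, false, true, false, true, true, true] ++
        (List.replicate m false ++ List.replicate (m + 1) true) := by
    have e1 : wd ((tb3 △ .nil) △ .nil) = [true, true, true, false, true, false, false, false] := rfl
    have e2 : wd (ch 1) = [true, false] := rfl
    have e3 : wd (.nil : BinaryTree Unit) = [] := rfl
    rw [e1, e2, e3] at h5
    simp only [List.map_append, List.map_cons, List.map_nil, List.reverse_append, List.reverse_cons, List.reverse_nil,
      List.nil_append, List.cons_append, List.append_assoc, List.append_nil, Bool.not_false, Bool.not_true,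
      List.reverse_replicate] at h5 ⊢
    rw [← h5, List.replicate_succ']
  have hl2 : (List.map not a).reverse.length = a.length := by simp
  generalize (List.map not a).reverse = L at h6 hl2
  generalize (List.map not b).reverse = M at h6
  rcases le_or_gt 9 a.length with h9 | h9
  · have h7 := congrArg (List.drop 9) h6
    rw [List.drop_append_of_le_length (by omega), List.drop_append_of_le_length (by simp)] at h7
    have h8 : List.drop 9 L ++ [false, false, false] ++ true :: false :: (true :: true :: M) =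
        List.replicate m false ++ List.replicate (m + 1) true := by
      rw [← List.nil_append (List.replicate m false)]
      simpa using h7
    exact no_desc _ _ _ h8
  · have key : ∀ i < 2, ([false, false, false, false, true, false, true, true, true] ++
        (List.replicate m false ++ List.replicate (m + 1) true))[a.length + i]? = some false := by
      intro i hi
      rw [← h6, List.getElem?_append_right (by omega), hl2, Nat.add_sub_cancel_left]
      interval_cases i <;> rfl
    have k0 := key 0 (by norm_num)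
    have k1 := key 1 (by norm_num)
    generalize a.length = l at *
    interval_cases l <;> simp at k0 k1

/-- the content of the word 19 has one part `≥ 4`, one part `1` and `c + e` parts `2` -/
theorem ct_19 {m c : ℕ} (hm : 4 ≤ m) : cp 4 ({m} + {3} + {1} + Multiset.replicate c 2) = 1 ∧
    ({m} + {3} + {1} + Multiset.replicate c 2 : Multiset ℕ).count 1 = 1 ∧
    ({m} + {3} + {1} + Multiset.replicate c 2 : Multiset ℕ).count 2 = c := by
  refine ⟨?_, ?_, ?_⟩
  · rw [cp_add, cp_add, cp_add, cp_one, cp_one, cp_one, cp_rep 4 _ 2 (by norm_num), if_pos hm, if_neg (by norm_num),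
      if_neg (by norm_num)]
  · rw [Multiset.count_add, Multiset.count_add, Multiset.count_add, Multiset.count_singleton,
      Multiset.count_singleton, Multiset.count_singleton, Multiset.count_replicate, if_neg (by omega),
      if_neg (by norm_num), if_pos rfl, if_neg (by norm_num)]
  · rw [Multiset.count_add, Multiset.count_add, Multiset.count_add, Multiset.count_singleton,
      Multiset.count_singleton, Multiset.count_singleton, Multiset.count_replicate_self, if_neg (by omega),
      if_neg (by norm_num), if_neg (by norm_num)]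
    omega

/-- the contents of the inner words (`q = 0`) with one part `1` -/
theorem six_q0 {B S : BinaryTree Unit} (hp : ∀ x ∈ cont R, 3 ≤ x) (hs : 4 ≤ (cont R).sup) {i : ℕ}
    (hi : i ∈ [0, 1, 3, 6, 8, 9]) (h1 : (cont (W R (ch 1) B S i)).count 1 = 1) :
    i = 9 ∧ (cont (W R (ch 1) B S i)).count 2 = 0 := by
  have c1 : (cont R).count 1 = 0 := Multiset.count_eq_zero.2 fun h => by
    have := hp 1 h
    omega
  have c2 : (cont R).count 2 = 0 := Multiset.count_eq_zero.2 fun h => by
    have := hp 2 h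
    omega
  have r1 : (raise (cont R)).count 1 = 0 := by rw [ct_raise (by omega), c1]
  have s1 : ∀ x y : ℕ, Multiset.count x ({y} : Multiset ℕ) = if x = y then 1 else 0 := fun x y =>
    Multiset.count_singleton x y
  rcases cont_six (R := R) (B := B) (S := S) (q := 0) (cont_chn 0) (cont_chn 2) (cont_chn 1) (by omega) (by omega) hi with
    ⟨_, e⟩ | ⟨_, e⟩ | ⟨_, e⟩ | ⟨_, e⟩ | ⟨_, e⟩ | ⟨hi9, e⟩
  · exfalso
    change cont (W R (ch 1) B S i) = _ at e
    rw [e, Multiset.count_add, c1] at h1
    simp at h1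
  · exfalso
    change cont (W R (ch 1) B S i) = _ at e
    rw [e, Multiset.count_add, c1] at h1
    simp [Multiset.count_add] at h1
  · exfalso
    change cont (W R (ch 1) B S i) = _ at e
    rw [e, ct_raise (by rw [sup_add']; omega), Multiset.count_add, c1] at h1
    simp [Multiset.count_add] at h1
  · exfalso
    change cont (W R (ch 1) B S i) = _ at e
    rw [e, Multiset.count_add, r1] at h1
    simp at h1
  · exfalso
    change cont (W R (ch 1) B S i) = _ at e
    rw [e, Multiset.count_add, Multiset.count_add, r1] at h1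
    simp at h1
  · refine ⟨hi9, ?_⟩
    change cont (W R (ch 1) B S i) = _ at e
    rw [e, Multiset.count_add, ct_raise (by rw [sup_raise1]; omega), ct_raise (by omega), c2, s1,
      if_neg (by norm_num)]

/-- **the core**: a tree `t` with the runs and the content of an inner word of a right window -/
theorem core {i : ℕ} {B S : BinaryTree Unit} (hp : ∀ x ∈ cont R, q + 3 ≤ x) (h2 : 2 ≤ Multiset.card (cont R))
    (ht : q + 3 < OddHC.ht R) (hi : i ∈ [0, 1, 3, 6, 8, 9]) (hin : InnP (q + 3) t)
    (hct : cont t = cont (W R (ch (q + 1)) B S i)) (hn : 1 ≤ n) (Φ : ZMod (2 * n + 1) → ℕ) (gr : GR k (RH n Φ))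
    {j : ℕ} (hj : j < 20) (h5 : j ≠ 5) (e : t = W (RH n Φ) .nil (Tsq.sq (RH n Φ)).2 (Tsq.sq (RH n Φ)).1 j) :
    q = 0 ∧ i = 9 ∧ j = 19 ∧ ∑ x, Φ x = 1 ∧ (Tsq.sq (RH n Φ)).1 = ch (n + 2) ∧
      (Tsq.sq (RH n Φ)).2 = tb3 △ .nil := by
  have hB : (Tsq.sq (RH n Φ)).2 = .nil ∨ ∃ c, (Tsq.sq (RH n Φ)).2 = lv2 c (tb3 △ .nil) := by
    rcases B_form hn Φ with ⟨h1, _⟩ | ⟨c, h1, _⟩
    · exact Or.inl h1
    · exact Or.inr ⟨c, h1⟩
  have c3 := two_parts (B := B) (S := S) hp h2 (p := 3) (by norm_num) (by omega) hi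
  rw [← hct, e] at c3
  rcases InnP.L1w hin hB hj h5 e with rfl | rfl | ⟨rfl, hne⟩
  · rw [cp3_9 hn] at c3
    omega
  · rw [cp3_17 hn Φ gr] at c3
    omega
  · obtain ⟨c, hc⟩ : ∃ c, (Tsq.sq (RH n Φ)).2 = lv2 c (tb3 △ .nil) := by
      rcases hB with h | h
      · exact absurd h hne
      · exact h
    obtain ⟨d, hd, hS, h19⟩ := cont_19 hn Φ gr hc
    obtain ⟨k1, k2, k3⟩ := ct_19 (m := n + 3) (c := c + d) (by omega)
    rw [← h19, ← e, hct] at k1 k2 k3
    have hq : q = 0 := by
      by_contra hq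
      have c4 := two_parts (B := B) (S := S) hp h2 (p := 4) (by norm_num) (by omega) hi
      omega
    subst hq
    rw [ht_eq] at ht
    obtain ⟨k4, k5⟩ := six_q0 (fun x hx => hp x hx) (by omega) hi k2
    have hcd : c + d = 0 := k3.symm.trans k5
    obtain rfl : c = 0 := by omega
    obtain rfl : d = 0 := by omega
    refine ⟨rfl, k4, rfl, by omega, ?_, hc⟩
    exact cont_one (n + 1) (by simpa using hS)

end L1

open L1

/-- two parts -/
theorem HM.NodeM.two_card {q : ℕ} {R B S : BinaryTree Unit} (h : HM.NodeM k q R B S) :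
    2 ≤ Multiset.card (cont R) := h.cardR

/-- **the inner words of the right windows are no words of L1** -/
theorem HM.NodeM.inn_L1 {q : ℕ} {R B S : BinaryTree Unit} (h : HM.NodeM k q R B S) (w0 : X k) {i : ℕ}
    (hi : i ∈ [0, 1, 3, 6, 8, 9]) (h' : TyL1 F' g') : TT (H1.wX R B S q w0 i) ∉ g'.B := by
  intro hw
  have hi' : i < 20 := by
    simp only [List.mem_cons, List.not_mem_nil, or_false] at hi
    omega
  have hx := H1.wX_eq h.dat h.size w0 hi'
  have hct : cont (TT (H1.wX R B S q w0 i)).1 = cont (H1.W R (H1.ch (q + 1)) B S i) := by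
    rw [h.cont_inn w0 hi, hx]
  have hin := h.inn w0 hi
  rcases h' with ⟨n, Φ, w1, hb, _, rfl, rfl⟩ | ⟨n, Φ, w1, hb, hr, rfl, rfl⟩
  · have gr := GR_RH hb.hn Φ hb.hk
    obtain ⟨j, hj, h5, e⟩ := mem_gadJ.1 hw
    have e1 : (TT (H1.wX R B S q w0 i)).1 =
        H1.W (RH n Φ) .nil (Tsq.sq (RH n Φ)).2 (Tsq.sq (RH n Φ)).1 j := by
      rw [← e, xw_val hb.hn hb.hk w1 hj]
    obtain ⟨rfl, rfl, rfl, _, h1, h2⟩ := L1.core h.part h.two_card h.top hi hin.1 hct hb.hn Φ gr hj h5 e1
    obtain ⟨a, b, hab⟩ : ∃ a b, H1.FM R a b := by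
      obtain ⟨a0, c, h1, h2, h3, h4, h5, h6, h7⟩ := Tsq.sq_spec R h.ne
      exact ⟨a0, c ++ false :: wd (Tsq.sq R).2, h1, h3, h4⟩
    rw [h1, h2] at e1
    refine L1.no_19 hab ?_ hx e1
    have h4 := h.top
    rw [H1.ht_eq]
    omega
  · have hkr : n + 5 + 2 * ∑ x, J.rf Φ x = k := by rw [J.rf_sum]; exact hb.hk
    have gr := GR_RH hb.hn (J.rf Φ) (k := k) hkr
    obtain ⟨j, hj, h5, e⟩ := mem_gadJM.1 hw
    have e1 : Tsq.mir (TT (H1.wX R B S q w0 i)).1 =
        H1.W (RH n (J.rf Φ)) .nil (Tsq.sq (RH n (J.rf Φ))).2 (Tsq.sq (RH n (J.rf Φ))).1 j := by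
      rw [← e, xm_val hb.hn hb.hk w1 hj, Tsq.mir_mir]
    have hct' : cont (Tsq.mir (TT (H1.wX R B S q w0 i)).1) = cont (H1.W R (H1.ch (q + 1)) B S i) := by
      rw [HM.cont_mir, hct]
    obtain ⟨_, _, _, h3, _, _⟩ := L1.core h.part h.two_card h.top hi hin.2 hct' hb.hn (J.rf Φ) gr hj h5 e1
    have h4 := hr.1
    rw [J.rf_sum] at h3
    omega

/-- **row I-Rq-L1** -/
theorem TyRq.inner_L1 {q : ℕ} (h : TyRq q F g) (h' : TyL1 F' g') : ∀ p ∈ g.arcs, ∀ w ∈ innA p, w ∉ g'.B := by
  intro p hp w hw
  obtain ⟨R, B, S, w0, i, h1, hi, rfl, _⟩ := h.inn0 p hp w hw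
  exact h1.inn_L1 w0 hi h'

/-- **row I-Sq-L1** -/
theorem TySq.inner_L1 {q : ℕ} (h : TySq q F g) (h' : TyL1 F' g') : ∀ p ∈ g.arcs, ∀ w ∈ innA p, w ∉ g'.B := by
  intro p hp w hw
  obtain ⟨R, B, S, w0, i, h1, hi, rfl, _⟩ := h.inn0 p hp w hw
  refine h1.inn_L1 w0 ?_ h'
  simp only [List.mem_cons, List.not_mem_nil, or_false] at hi ⊢
  omega

end Pool.OddHC
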