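import Pool.Agent.Work.MP_8f87b2_h3.A0T2
import Pool.Agent.Work.MP_8f87b2_mid.InAE

/-!
# MP_8f87b2_co: the inner words of the one soliton gadgets

`fm t Z`: the first maximal leaf of `t` replaced by `Z`. `mir_TT_pw`: the mirror image of `T (pw R i)`, `i = 1, 3, 6, 8`, is
`fm (mir (T R)) (Zt i)`. `inner_RF`: for `R = RF n F` it is `RR p E t` with `GD E`.
-/

set_option autoImplicit false

namespace Pool.OddHC

open BinaryTree Multiset Equiv Pool.Agent.Work.MP_8f87b2_co HM

variable {k j : ℕ} {F F' : Set (Cyc k)} {g g' : DG k}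

namespace J

open H1 (FM)

/-- the first maximal leaf replaced by `Z` -/
def fm : BinaryTree Unit → BinaryTree Unit → BinaryTree Unit
  | .nil, Z => Z
  | .node _ A X, Z =>
    if Tsq.ht X ≤ Tsq.ht A + 1 then (match A with
      | .nil => app Z X
      | .node _ _ _ => fm A Z △ X) else A △ fm X Z

theorem fm_hi {A X : BinaryTree Unit} (Z : BinaryTree Unit) (h : Tsq.ht X ≤ Tsq.ht A + 1) (hA : A ≠ .nil) :
    fm (A △ X) Z = fm A Z △ X := by
  cases A with
  | nil => exact absurd rfl hA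
  | node _ B C =>
    rw [fm, if_pos h]

theorem fm_nil {X : BinaryTree Unit} (Z : BinaryTree Unit) (h : Tsq.ht X ≤ 1) :
    fm (.nil △ X) Z = app Z X := by
  have e : fm (.nil △ X) Z = if Tsq.ht X ≤ Tsq.ht (.nil : BinaryTree Unit) + 1 then app Z X
      else .nil △ fm X Z := rfl
  rw [e, if_pos (by rw [Tsq.ht]; omega)]

theorem fm_lo {A X : BinaryTree Unit} (Z : BinaryTree Unit) (h : Tsq.ht A + 1 < Tsq.ht X) :
    fm (A △ X) Z = A △ fm X Z := by
  cases A with
  | nil =>
    have e : fm (.nil △ X) Z = if Tsq.ht X ≤ Tsq.ht (.nil : BinaryTree Unit) + 1 then app Z X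
        else .nil △ fm X Z := rfl
    rw [e, if_neg (by omega)]
  | node _ B C =>
    rw [fm, if_neg (by omega)]

/-- the word of `fm t Z` -/
theorem wd_fm (Z : BinaryTree Unit) : ∀ t : BinaryTree Unit, t ≠ .nil → ∃ a b : List Bool,
    FM t a (false :: b) ∧ wd (fm t Z) = a ++ (wd Z ++ b) := by
  intro t
  induction t with
  | nil => intro h; exact absurd rfl h
  | node _ A X ihA ihX =>
    intro _
    by_cases h : Tsq.ht X ≤ Tsq.ht A + 1
    · by_cases hA : A = .nil
      · subst hA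
        have h1 : Tsq.ht X ≤ 1 := by rw [Tsq.ht] at h; omega
        have hh : Tsq.ht (.nil △ X) = 1 := by rw [Tsq.ht_node, Tsq.ht]; omega
        refine ⟨[], wd X, ⟨by rw [wd_node]; rfl, ?_, ?_⟩, ?_⟩
        · intro m
          change _ ≤ _ + Tsq.ht (.nil △ X)
          rw [hh]; simp
        · change _ = _ + Tsq.ht (.nil △ X)
          rw [hh]; simp
        · change wd (fm (.nil △ X) Z) = _
          rw [fm_nil Z h1, wd_app]
          rfl
      · obtain ⟨a, b, h1, h2⟩ := ihA hA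
        refine ⟨true :: a, b ++ false :: wd X, h1.node h, ?_⟩
        change wd (fm (A △ X) Z) = _
        rw [fm_hi Z h hA, wd_node, h2]
        simp
    · have hX : X ≠ .nil := by
        rintro rfl
        rw [Tsq.ht] at h
        omega
      obtain ⟨a, b, h1, h2⟩ := ihX hX
      have h3 : Tsq.ht (A △ .nil) < Tsq.ht X := by
        rw [Tsq.ht_node, Tsq.ht]; omega
      refine ⟨wd (A △ .nil) ++ a, b, h1.app_left h3, ?_⟩
      change wd (fm (A △ X) Z) = _
      rw [fm_lo Z (by omega), wd_node, h2, wd_node]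
      simp [wd]

theorem FM_ex {t : BinaryTree Unit} (h : t ≠ .nil) : ∃ a b, FM t a b := by
  obtain ⟨a, b, h1, _⟩ := wd_fm .nil t h
  exact ⟨a, _, h1⟩

/-- the new forest at the top -/
def Zt : ℕ → BinaryTree Unit
  | 1 => .nil △ (.nil △ (.nil △ .nil))
  | 3 => (.nil △ .nil) △ (.nil △ .nil)
  | 6 => (.nil △ (.nil △ .nil)) △ .nil
  | _ => .nil △ ((.nil △ .nil) △ .nil)

/-- the letters of `Zt` without the last -/
def zl : ℕ → List Bool
  | 1 => [true, false, true, false, true]
  | 3 => [true, true, false, false, true]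
  | 6 => [true, true, false, true, false]
  | _ => [true, false, true, true, false]

theorem wd_Zt (i : ℕ) : wd (Zt i) = zl i ++ [false] := by
  unfold Zt zl
  split <;> rfl

/-- the first maximum of the pure words -/
theorem FM_pw {R : BinaryTree Unit} (hR : 2 ≤ Tsq.ht R) {a b : List Bool} (h : FM R a b) {i : ℕ}
    (hi : i ∈ [1, 3, 6, 8]) : ∃ a' b', FM (pw R i) a' b' ∧
    a'.reverse ++ true :: b'.reverse = a.reverse ++ (zl i ++ b.reverse) := by
  simp only [List.mem_cons, List.not_mem_nil, or_false] at hi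
  rcases hi with rfl | rfl | rfl | rfl
  · refine ⟨_, _, h.app_right (Z := .nil △ (.nil △ .nil)) (by
      have : Tsq.ht ((.nil : BinaryTree Unit) △ (.nil △ .nil)) = 1 := by
        rw [Tsq.ht_node, Tsq.ht_node, Tsq.ht]; rfl
      omega), ?_⟩
    simp [zl, wd]
  · have h1 := h.app_right (Z := .nil △ .nil) (by
      have : Tsq.ht ((.nil : BinaryTree Unit) △ .nil) = 1 := by rw [Tsq.ht_node, Tsq.ht]; rfl
      omega)
    refine ⟨_, _, h1.node (Z := .nil) (Nat.zero_le _), ?_⟩
    simp [zl, wd]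
  · refine ⟨_, _, h.node (Z := .nil △ .nil) (by
      have : Tsq.ht ((.nil : BinaryTree Unit) △ .nil) = 1 := by rw [Tsq.ht_node, Tsq.ht]; rfl
      omega), ?_⟩
    simp [zl, wd]
  · have h1 := h.node (Z := .nil) (Nat.zero_le _)
    refine ⟨_, _, h1.app_left (P := .nil △ .nil) (by
      have e1 : Tsq.ht ((.nil : BinaryTree Unit) △ .nil) = 1 := by rw [Tsq.ht_node, Tsq.ht]; rfl
      have e2 : Tsq.ht (R △ .nil) = Tsq.ht R + 1 := by rw [Tsq.ht_node, Tsq.ht]; omega
      omega), ?_⟩
    simp [zl, wd]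

/-- mirror image of `T` -/
theorem wd_mir_TT {x : X k} {a b : List Bool} (h : FM x.1 a b) :
    wd (Tsq.mir (TT x).1) = a.reverse ++ true :: b.reverse := by
  rw [Tsq.wd_mir, h.wdT]
  simp [Function.comp_def]

theorem ht_TT' (x : X k) : Tsq.ht (TT x).1 = Tsq.ht x.1 := by
  rw [H1.ht_eq, H1.ht_eq, OddHC.ht_eq, H1.cont_TT, ← OddHC.ht_eq]

theorem ht_mir' (t : BinaryTree Unit) : Tsq.ht (Tsq.mir t) = Tsq.ht t := by
  rw [H1.ht_eq, H1.ht_eq, OddHC.ht_eq, HM.cont_mir, ← OddHC.ht_eq]

/-- the first maximum of the mirror image of `T x` -/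
theorem FM_mir_TT {x : X k} {a b : List Bool} (h : FM x.1 a b) :
    FM (Tsq.mir (TT x).1) a.reverse b.reverse := by
  have hh : Tsq.ht (Tsq.mir (TT x).1) = Tsq.ht x.1 := by rw [ht_mir', ht_TT']
  have ht := h.top
  refine ⟨wd_mir_TT h, ?_, ?_⟩
  · intro m
    rw [hh]
    have e1 : (a.reverse.take m).count true + (a.take (a.length - m)).count true = a.count true := by
      rw [List.take_reverse, List.count_reverse, add_comm, ← List.count_append, List.take_append_drop]
    have e2 : (a.reverse.take m).count false + (a.take (a.length - m)).count false = a.count false := by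
      rw [List.take_reverse, List.count_reverse, add_comm, ← List.count_append, List.take_append_drop]
    have e3 : (a.take (a.length - m)).count false ≤ (a.take (a.length - m)).count true := by
      have h1 := wd_take x.1 (a.length - m)
      rw [h.eq, List.take_append_of_le_length (by omega)] at h1
      exact h1
    omega
  · rw [hh, List.count_reverse, List.count_reverse]
    exact ht

/-- **the inner words** -/
theorem mir_TT_pw {x : X k} {r : X j} {i : ℕ} (hi : i ∈ [1, 3, 6, 8]) (hr : 2 ≤ Tsq.ht r.1)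
    (hx : x.1 = pw r.1 i) : Tsq.mir (TT x).1 = fm (Tsq.mir (TT r).1) (Zt i) := by
  have hr0 : r.1 ≠ .nil := by
    intro e
    rw [e, Tsq.ht] at hr
    omega
  obtain ⟨a, b, h⟩ := FM_ex hr0
  obtain ⟨a', b', h1, h2⟩ := FM_pw hr h hi
  rw [← hx] at h1
  have h3 := FM_mir_TT h
  have h4 : Tsq.mir (TT r).1 ≠ .nil := by
    intro e
    have := h3.eq
    rw [e] at this
    simp [wd] at this
  obtain ⟨a2, b2, h5, h6⟩ := wd_fm (Zt i) _ h4
  obtain ⟨e1, e2⟩ := h3.uniq h5
  have h7 : wd (Tsq.mir (TT x).1) = wd (fm (Tsq.mir (TT r).1) (Zt i)) := by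
    rw [wd_mir_TT h1, h2, h6, e1, e2, wd_Zt]
    simp
  exact (wd_inj _ _ [] [] (by rw [h7])).1

/-! ### The shape -/

theorem Tht_b2 (t : ℕ) : Tsq.ht (b2 t) ≤ 2 := by
  rw [H1.ht_eq]
  induction t with
  | zero => exact Nat.zero_le _
  | succ t ih =>
    change OddHC.ht (l1 △ b2 t) ≤ 2
    rw [ht_node]
    have : OddHC.ht l1 = 1 := rfl
    omega

theorem fm_ne {Z : BinaryTree Unit} (hZ : Z ≠ .nil) : ∀ t, fm t Z ≠ .nil := by
  intro t
  induction t with
  | nil => exact hZ
  | node _ A X ihA ihX =>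
    by_cases h : Tsq.ht X ≤ Tsq.ht A + 1
    · by_cases hA : A = .nil
      · subst hA
        change fm (.nil △ X) Z ≠ .nil
        rw [fm_nil Z (by rw [Tsq.ht] at h; omega)]
        cases Z with
        | nil => exact absurd rfl hZ
        | node _ B C => simp [app]
      · change fm (A △ X) Z ≠ .nil
        rw [fm_hi Z h hA]
        simp
    · change fm (A △ X) Z ≠ .nil
      rw [fm_lo Z (by omega)]
      simp

/-- heights -/
theorem ht_fm {Z : BinaryTree Unit} (hZ : 1 ≤ Tsq.ht Z) : ∀ t, t ≠ .nil →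
    Tsq.ht (fm t Z) + 1 = Tsq.ht t + Tsq.ht Z := by
  intro t
  induction t with
  | nil => intro h; exact absurd rfl h
  | node _ A X ihA ihX =>
    intro _
    by_cases h : Tsq.ht X ≤ Tsq.ht A + 1
    · by_cases hA : A = .nil
      · subst hA
        have h1 : Tsq.ht X ≤ 1 := by rw [Tsq.ht] at h; omega
        change Tsq.ht (fm (.nil △ X) Z) + 1 = Tsq.ht (.nil △ X) + _
        rw [fm_nil Z h1, Tsq.ht_app, Tsq.ht_node, Tsq.ht]
        omega
      · have := ihA hA
        change Tsq.ht (fm (A △ X) Z) + 1 = Tsq.ht (A △ X) + _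
        rw [fm_hi Z h hA, Tsq.ht_node, Tsq.ht_node]
        omega
    · have hX : X ≠ .nil := by
        rintro rfl
        rw [Tsq.ht] at h
        omega
      have := ihX hX
      change Tsq.ht (fm (A △ X) Z) + 1 = Tsq.ht (A △ X) + _
      rw [fm_lo Z (by omega), Tsq.ht_node, Tsq.ht_node]
      omega

theorem nn_fm {Z : BinaryTree Unit} (hZ : Z ≠ .nil) : ∀ t, nn t → 2 ≤ Tsq.ht t → nn (fm t Z) := by
  intro t
  induction t with
  | nil => intro _ h; rw [Tsq.ht] at h; omega
  | node _ A X ihA ihX =>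
    intro hn h2
    have hA : A ≠ .nil := by
      rintro rfl
      have := hn .nil (by rw [cs_node']; exact List.mem_cons_self)
      simp [isN] at this
    have hX : nn X := fun Y hY => hn Y (by rw [cs_node']; exact List.mem_cons_of_mem _ hY)
    change Tsq.ht (A △ X) ≥ 2 at h2
    rw [Tsq.ht_node] at h2
    by_cases h : Tsq.ht X ≤ Tsq.ht A + 1
    · change nn (fm (A △ X) Z)
      rw [fm_hi Z h hA]
      intro Y hY
      rw [cs_node, List.mem_cons] at hY
      rcases hY with rfl | hY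
      · have h3 := fm_ne hZ A
        cases h4 : isN (fm A Z)
        · rfl
        · exact absurd (isN_iff.1 h4) h3
      · exact hX Y hY
    · change nn (fm (A △ X) Z)
      rw [fm_lo Z (by omega)]
      have h5 : 1 ≤ Tsq.ht A := by
        rw [H1.ht_eq]
        exact ht_pos hA
      intro Y hY
      rw [cs_node, List.mem_cons] at hY
      rcases hY with rfl | hY
      · exact hn Y (by rw [cs_node']; exact List.mem_cons_self)
      · exact ihX hX (by omega) Y hY

theorem fm_RR {p t : ℕ} {D : BinaryTree Unit} (Z : BinaryTree Unit) (h : GD D) :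
    fm (RR p D t) Z = RR p (fm D Z) t := by
  have h2 : 2 ≤ Tsq.ht D := by rw [H1.ht_eq]; exact h.ht
  have hD : D ≠ .nil := by
    rintro rfl
    rw [Tsq.ht] at h2
    omega
  induction p with
  | zero =>
    change fm (D △ b2 t) Z = fm D Z △ b2 t
    exact fm_hi Z (by have := Tht_b2 t; omega) hD
  | succ p ih =>
    change fm (l1 △ RR p D t) Z = l1 △ RR p (fm D Z) t
    have h3 : Tsq.ht l1 = 1 := by rw [H1.ht_eq]; rfl
    have h4 : Tsq.ht (RR p D t) = Tsq.ht D + 1 := by
      rw [H1.ht_eq, H1.ht_eq]; exact ht_RR h p t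
    rw [fm_lo Z (by omega), ih]

theorem GD.fm {D Z : BinaryTree Unit} (h : GD D) (hZ : 1 ≤ Tsq.ht Z) : GD (J.fm D Z) where
  ht := by
    have h2 : 2 ≤ Tsq.ht D := by rw [H1.ht_eq]; exact h.ht
    have hD : D ≠ .nil := by
      rintro rfl
      rw [Tsq.ht] at h2
      omega
    have := ht_fm hZ D hD
    rw [← H1.ht_eq]
    omega
  nn := by
    have h2 : 2 ≤ Tsq.ht D := by rw [H1.ht_eq]; exact h.ht
    refine nn_fm ?_ D h.nn h2
    rintro rfl
    rw [Tsq.ht] at hZ
    omega

theorem ht_Zt (i : ℕ) : 1 ≤ Tsq.ht (Zt i) := by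
  unfold Zt
  split <;> simp [Tsq.ht]

/-- **the inner words of the one soliton gadgets**: the mirror image is `fm (RF n G) (Zt i)` -/
theorem mir_TT_RF {n : ℕ} (hn : 1 ≤ n) (Φ : ZMod (2 * n + 1) → ℕ) {x : X k} {i : ℕ}
    (hi : i ∈ [1, 3, 6, 8]) (hx : x.1 = pw (Ring1.RF n Φ) i) :
    ∃ G : ZMod (2 * n + 1) → ℕ, ∑ z, G z = ∑ z, Φ z ∧ Tsq.mir (TT x).1 = fm (Ring1.RF n G) (Zt i) := by
  obtain ⟨D, hD, e⟩ := RF_shape hn Φ
  have h3 : 2 ≤ Tsq.ht (Ring1.RF n Φ) := by
    rw [e, H1.ht_eq, ht_RR hD]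
    have := hD.ht
    omega
  have h4 : (Ring1.wa (k := n + 2 + 2 * ∑ x, Φ x) hn Φ rfl).1 = Ring1.RF n Φ := Ring1.wa_val hn Φ rfl
  refine ⟨rf (fun z => Φ (z + n)), ?_, ?_⟩
  · rw [rf_sum, Ring1.shift_sum]
  · rw [mir_TT_pw (r := Ring1.wa (k := n + 2 + 2 * ∑ x, Φ x) hn Φ rfl) hi (by rw [h4]; exact h3)
      (by rw [h4]; exact hx), Ring1.TT_wa, Ring1.wa_val, mir_RF]

/-- the shape of the mirrored inner words -/
theorem shape_fm {n : ℕ} (hn : 1 ≤ n) (G : ZMod (2 * n + 1) → ℕ) (i : ℕ) :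
    ∃ E : BinaryTree Unit, GD E ∧ fm (Ring1.RF n G) (Zt i) = RR (G 0) E (G (-1)) := by
  obtain ⟨D, hD, e⟩ := RF_shape hn G
  exact ⟨fm D (Zt i), hD.fm (ht_Zt i), by rw [e, fm_RR _ hD]⟩

end J

end Pool.OddHC
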