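import Pool.Agent.Work.MP_8f87b2_h3.InJ
import Pool.Agent.Work.MP_8f87b2_h22.JC
import Pool.Agent.Work.MP_8f87b2_h60.TyB0
import Pool.Agent.Work.MP_8f87b2_h60.Runs
import Pool.Agent.Work.MP_8f87b2_h40.TyJM

/-!
# MP_8f87b2_co: the inner words of the one soliton gadgets against L, K, K', Cr, Cl, A0, B0, A (two solitons)

`InnJ k n w`: `w` is the mirror image of `T (pw (RF n Φ) i)`, `i = 1, 3, 6, 8`. `InJ k w`: `w` or its mirror image is of
this form.
-/

set_option autoImplicit false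

namespace Pool.OddHC

open Finset Equiv BinaryTree Pool.Agent.Work.MP_8f87b2_co

variable {k n : ℕ} {F F' : Set (Cyc k)} {g g' : DG k}

namespace J

/-- mirror image of an inner word of a one soliton gadget -/
def InnJ (k n : ℕ) (w : BinaryTree Unit) : Prop :=
  ∃ (Φ : ZMod (2 * n + 1) → ℕ) (i : ℕ) (x : X k), 1 ≤ n ∧ i ∈ [1, 3, 6, 8] ∧
    x.1 = pw (Ring1.RF n Φ) i ∧ w = Tsq.mir (TT x).1

/-- up to the mirror image -/
def InJ (k : ℕ) (w : BinaryTree Unit) : Prop := ∃ n, InnJ k n w ∨ InnJ k n (Tsq.mir w)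

/-- number of parts at least 3 -/
def h3c (t : BinaryTree Unit) : ℕ := (OddHC.cont t).countP (3 ≤ ·)

theorem h3c_app (P Q : BinaryTree Unit) : h3c (app P Q) = h3c P + h3c Q := by
  unfold h3c
  rw [OddHC.cont_app, Multiset.countP_add]

theorem countP_raise (M : Multiset ℕ) : M.countP (3 ≤ ·) ≤ (raise M).countP (3 ≤ ·) := by
  rcases eq_or_ne M 0 with rfl | h
  · simp
  · unfold raise
    have h1 := Multiset.cons_erase (sup_mem h)
    conv_lhs => rw [← h1]
    rw [Multiset.countP_cons, Multiset.countP_cons]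
    split
    · rw [if_pos (by omega)]
    · omega

theorem h3c_node_le {A B : BinaryTree Unit} {a b : ℕ} (hA : a ≤ h3c A) (hB : b ≤ h3c B) :
    a + b ≤ h3c (A △ B) := by
  have e : h3c (A △ B) = (raise (OddHC.cont A)).countP (3 ≤ ·) + h3c B := by
    unfold h3c
    rw [OddHC.cont_node, Multiset.countP_add]
  rw [e]
  exact add_le_add (hA.trans (countP_raise _)) hB

theorem h3c_app_le {P Q : BinaryTree Unit} {a b : ℕ} (hP : a ≤ h3c P) (hQ : b ≤ h3c Q) :
    a + b ≤ h3c (app P Q) := by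
  rw [h3c_app]
  exact add_le_add hP hQ

theorem h3c_mir (t : BinaryTree Unit) : h3c (Tsq.mir t) = h3c t := by
  unfold h3c
  rw [HM.cont_mir]

theorem h3c_W {R Q B S : BinaryTree Unit} (h : h3c B + h3c S = h3c R) :
    ∀ i < 20, h3c R ≤ h3c (H1.W R Q B S i) := by
  intro i hi
  interval_cases i
  · exact le_trans (by omega) (h3c_app_le le_rfl (Nat.zero_le _))
  · exact le_trans (by omega) (h3c_app_le le_rfl (Nat.zero_le _))
  · exact le_trans (by omega) (h3c_node_le (Nat.zero_le _) (h3c_app_le le_rfl (Nat.zero_le _)))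
  · exact le_trans (by omega) (h3c_node_le (h3c_app_le le_rfl (Nat.zero_le _)) (Nat.zero_le _))
  · exact le_trans (by omega) (h3c_node_le (Nat.zero_le _) le_rfl)
  · exact le_trans (by omega) (h3c_node_le (Nat.zero_le _) (h3c_node_le (Nat.zero_le _) le_rfl))
  · exact le_trans (by omega) (h3c_node_le le_rfl (Nat.zero_le _))
  · exact le_trans (by omega) (h3c_app_le (Nat.zero_le _)
      (h3c_node_le (h3c_node_le (Nat.zero_le _) le_rfl) (Nat.zero_le _)))
  · exact le_trans (by omega) (h3c_app_le (Nat.zero_le _)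
      (h3c_node_le (Nat.zero_le _) (h3c_node_le le_rfl (Nat.zero_le _))))
  · exact le_trans (by omega) (h3c_node_le (h3c_node_le le_rfl (Nat.zero_le _)) (Nat.zero_le _))
  · exact le_trans (by omega) (h3c_app_le le_rfl (h3c_node_le (Nat.zero_le _) le_rfl))
  · exact le_trans (by omega) (h3c_app_le le_rfl (h3c_node_le (Nat.zero_le _)
      (h3c_app_le (Nat.zero_le _) (h3c_node_le (Nat.zero_le _) le_rfl))))
  · exact le_trans (by omega) (h3c_node_le le_rfl (h3c_app_le le_rfl (Nat.zero_le _)))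
  · exact le_trans (by omega) (h3c_app_le le_rfl (h3c_node_le (h3c_app_le le_rfl (Nat.zero_le _))
      (Nat.zero_le _)))
  · exact le_trans (by omega) (h3c_node_le (h3c_app_le (Nat.zero_le _)
      (h3c_node_le (Nat.zero_le _) le_rfl)) le_rfl)
  · exact le_trans (by omega) (h3c_node_le (Nat.zero_le _) (h3c_node_le le_rfl le_rfl))
  · exact le_trans (by omega) (h3c_app_le le_rfl (h3c_node_le le_rfl (Nat.zero_le _)))
  · exact le_trans (by omega) (h3c_app_le (Nat.zero_le _) (h3c_node_le (h3c_node_le le_rfl le_rfl)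
      (Nat.zero_le _)))
  · exact le_trans (by omega) (h3c_app_le (Nat.zero_le _) (h3c_node_le (Nat.zero_le _)
      (h3c_app_le le_rfl (h3c_node_le le_rfl (Nat.zero_le _)))))
  · exact le_trans (by omega) (h3c_node_le (h3c_app_le le_rfl (h3c_node_le le_rfl (Nat.zero_le _)))
      (Nat.zero_le _))

theorem h3c_sq {R B S : BinaryTree Unit} (h : Tsq.sq R = (S, B)) (h0 : R ≠ .nil) :
    h3c B + h3c S = h3c R := by
  have h1 := HM.sq_cont h0
  rw [h] at h1
  unfold h3c
  rw [← h1, Multiset.countP_add]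

/-! ### Features of the inner words -/

theorem le_top {n a : ℕ} (s : Multiset ℕ) (hs : ∀ x ∈ s, x ≤ 2) :
    ∀ x ∈ (Multiset.replicate a 2 + s : Multiset ℕ), x ≤ n + 2 := by
  intro x hx
  rcases Multiset.mem_add.1 hx with h | h
  · rw [Multiset.eq_of_mem_replicate h]; omega
  · have := hs x h
    omega

theorem raise_nl : raise (OddHC.cont (.nil : BinaryTree Unit)) = {1} := raise_zero

theorem cont_l : OddHC.cont ((.nil : BinaryTree Unit) △ .nil) = {1} := by
  rw [OddHC.cont_node, raise_nl, OddHC.cont_nil, add_zero]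

/-- content of the inner words -/
theorem InnJ.content {w : BinaryTree Unit} (h : InnJ k n w) : ∃ a,
    OddHC.cont w = {n + 2} + (Multiset.replicate a 2 + ({1} + {1})) ∨
      OddHC.cont w = {n + 3} + (Multiset.replicate a 2 + {1}) := by
  obtain ⟨Φ, i, x, hn, hi, hx, rfl⟩ := h
  have hc := Ring1.cont_RF hn Φ
  have hN := OddHC.cont_nil
  refine ⟨∑ z, Φ z, ?_⟩
  rw [HM.cont_mir, H1.cont_TT, hx]
  generalize Ring1.RF n Φ = R at hc
  generalize ∑ z, Φ z = a at hc
  simp only [List.mem_cons, List.not_mem_nil, or_false] at hi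
  rcases hi with rfl | rfl | rfl | rfl
  · left
    change OddHC.cont (app R (.nil △ (.nil △ .nil))) = _
    rw [OddHC.cont_app, OddHC.cont_node, cont_l, raise_nl, hc, add_assoc]
  · right
    change OddHC.cont (app R (.nil △ .nil) △ .nil) = _
    rw [OddHC.cont_node, OddHC.cont_app, cont_l, hc, hN, add_zero, add_assoc]
    exact raise_gen (le_top _ (by simp))
  · right
    change OddHC.cont (R △ (.nil △ .nil)) = _
    rw [OddHC.cont_node, cont_l, hc, raise_gen (by
      have := le_top (n := n) (a := a) 0 (by simp)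
      rwa [add_zero] at this), add_assoc]
  · right
    change OddHC.cont (app (.nil △ .nil) (R △ .nil)) = _
    rw [OddHC.cont_app, cont_l, OddHC.cont_node, hc, hN, add_zero, raise_gen (by
      have := le_top (n := n) (a := a) 0 (by simp)
      rwa [add_zero] at this), add_comm ({1} : Multiset ℕ), add_assoc]

theorem InnJ.c3 {w : BinaryTree Unit} (h : InnJ k n w) : J.h3c w = 1 := by
  obtain ⟨Φ, i, x, hn, -⟩ := id h
  have h2 : ∀ a, (Multiset.replicate a 2).countP (3 ≤ ·) = 0 := by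
    intro a
    rw [Multiset.countP_eq_zero]
    intro x hx
    rw [Multiset.eq_of_mem_replicate hx]
    omega
  obtain ⟨a, e | e⟩ := h.content
  · unfold J.h3c
    rw [e, Multiset.countP_add, Multiset.countP_add, h2]
    simp [← Multiset.cons_zero, Multiset.countP_cons, hn]
  · unfold J.h3c
    rw [e, Multiset.countP_add, Multiset.countP_add, h2]
    simp [← Multiset.cons_zero, Multiset.countP_cons]

theorem InnJ.one {w : BinaryTree Unit} (h : InnJ k n w) : 1 ∈ OddHC.cont w := by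
  obtain ⟨a, e | e⟩ := h.content <;> rw [e] <;> simp

theorem InnJ.shape {w : BinaryTree Unit} (h : InnJ k n w) : ∃ p E t, GD E ∧ w = RR p E t := by
  obtain ⟨Φ, i, x, hn, hi, hx, rfl⟩ := h
  obtain ⟨G, -, e⟩ := mir_TT_RF hn Φ hi hx
  obtain ⟨E, hE, e2⟩ := shape_fm hn G i
  exact ⟨_, E, _, hE, e.trans e2⟩

theorem InJ.shape {w : BinaryTree Unit} (h : InJ k w) : ∃ p E t, GD E ∧ w = RR p E t := by
  obtain ⟨n, h | h⟩ := h
  · exact h.shape
  · obtain ⟨p, E, t, hE, e⟩ := h.shape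
    refine ⟨t, Tsq.mir E, p, hE.mirx, ?_⟩
    rw [← mirx_RR, ← e, Tsq.mir_mir]

theorem InJ.c3 {w : BinaryTree Unit} (h : InJ k w) : J.h3c w = 1 := by
  obtain ⟨n, h | h⟩ := h
  · exact h.c3
  · rw [← h3c_mir]
    exact h.c3

theorem InJ.one {w : BinaryTree Unit} (h : InJ k w) : 1 ∈ OddHC.cont w := by
  obtain ⟨n, h | h⟩ := h
  · exact h.one
  · have := h.one
    rwa [HM.cont_mir] at this

theorem isN_l1 : isN l1 = false := rfl

theorem nn_RR {p t : ℕ} {E : BinaryTree Unit} (h : GD E) : nn (RR p E t) := by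
  intro Y hY
  rw [cs_RR] at hY
  have hE : isN E = false := by
    cases h1 : isN E
    · rfl
    · have := h.ht
      rw [isN_iff.1 h1] at this
      exact absurd this (by simp [OddHC.ht])
  simp only [List.mem_append, List.mem_replicate, List.mem_cons] at hY
  rcases hY with ⟨_, rfl⟩ | rfl | ⟨_, rfl⟩ <;> first | rfl | exact hE

theorem InJ.nn {w : BinaryTree Unit} (h : InJ k w) : J.nn w := by
  obtain ⟨p, E, t, hE, e⟩ := h.shape
  rw [e]
  exact nn_RR hE

/-- a word with a component `()` is not inner -/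
theorem InJ.no_N {w : BinaryTree Unit} (h : InJ k w) (h' : BinaryTree.nil ∈ cs w) : False :=
  absurd (h.nn _ h') (by simp [isN])

/-- exactly one component is not `(())` -/
theorem InJ.two {w : BinaryTree Unit} (h : InJ k w) {u v : List (BinaryTree Unit)} (e : cs w = u ++ v)
    (hu : ∃ X ∈ u, X ≠ l1) (hv : ∃ X ∈ v, X ≠ l1) : False := by
  obtain ⟨p, E, t, hE, e1⟩ := h.shape
  have hf : ∀ l : List (BinaryTree Unit), (∃ X ∈ l, X ≠ l1) → 1 ≤ l.countP (fun X => decide (X ≠ l1)) := by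
    intro l ⟨X, h1, h2⟩
    exact List.countP_pos_iff.2 ⟨X, h1, by simpa using h2⟩
  have h1 := hf u hu
  have h2 := hf v hv
  have h3 : (cs w).countP (fun X => decide (X ≠ l1)) ≤ 1 := by
    rw [e1, cs_RR]
    have h4 : ∀ m, (List.replicate m l1).countP (fun X => decide (X ≠ l1)) = 0 := by
      intro m
      rw [List.countP_eq_zero]
      intro X hX
      rw [List.eq_of_mem_replicate hX]
      simp
    rw [List.countP_append, List.countP_cons, h4, h4]
    split <;> omega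
  rw [e, List.countP_append] at h3
  omega

/-! ### Against the plain triples -/

theorem nil_mem_app {P Q : BinaryTree Unit} : BinaryTree.nil ∈ cs (app P (.nil △ Q)) := by
  rw [cs_app, cs_node]
  exact List.mem_append_right _ List.mem_cons_self

theorem nil_mem_node {A P Q : BinaryTree Unit} : BinaryTree.nil ∈ cs (app P (A △ (.nil △ Q))) := by
  rw [cs_app, cs_node, cs_node]
  exact List.mem_append_right _ (List.mem_cons_of_mem _ List.mem_cons_self)

theorem nil_mem_cons {Q : BinaryTree Unit} : BinaryTree.nil ∈ cs (.nil △ Q) := by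
  rw [cs_node]
  exact List.mem_cons_self

/-- **L** -/
theorem InJ.not_L {w : X k} (h : InJ k w.1) (h' : TyL F' g') : w ∉ g'.B := by
  obtain ⟨R', e, hR, he, h1, h2, h3⟩ := h'
  intro hw
  rcases h3.words w hw with e1 | ⟨_, e1 | e1⟩ <;> rw [e1] at h
  · exact h.no_N nil_mem_cons
  · exact h.no_N (nil_mem_node (A := lp 1))
  · exact h.no_N nil_mem_cons

theorem h3c_two {S : BinaryTree Unit} : J.h3c (app S ((BinaryTree.nil △ BinaryTree.nil) △ .nil)) = J.h3c S := by
  have h1 : J.h3c ((BinaryTree.nil △ BinaryTree.nil) △ .nil) = 0 := by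
    unfold J.h3c
    rw [OddHC.cont_node, cont_l]
    decide
  rw [h3c_app, h1, add_zero]

theorem h3c_two' {S : BinaryTree Unit} : J.h3c ((BinaryTree.nil △ BinaryTree.nil) △ S) = J.h3c S := by
  have h1 : J.h3c ((BinaryTree.nil △ BinaryTree.nil) △ .nil) = 0 := by
    unfold J.h3c
    rw [OddHC.cont_node, cont_l]
    decide
  have h2 : (BinaryTree.nil △ BinaryTree.nil) △ S = app ((BinaryTree.nil △ BinaryTree.nil) △ .nil) S := rfl
  rw [h2, h3c_app, h1, zero_add]

/-- **K** -/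
theorem InJ.not_K {w : X k} {S : BinaryTree Unit} (h : InJ k w.1) (h' : TyK S F' g') (hS : 2 ≤ J.h3c S) :
    w ∉ g'.B := by
  intro hw
  rcases IsTri.words h' w hw with e1 | ⟨_, e1 | e1⟩ <;> rw [e1] at h
  · exact h.no_N (nil_mem_node (P := .nil) (A := S))
  · have h1 := h.c3
    have h2 : J.h3c (w1 S (.nil △ .nil) .nil) = J.h3c S := h3c_two
    omega
  · exact h.no_N nil_mem_cons

/-- **K'** -/
theorem InJ.not_K' {w : X k} {S : BinaryTree Unit} (h : InJ k w.1) (h' : TyK' S F' g') (hS : 2 ≤ J.h3c S) :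
    w ∉ g'.B := by
  intro hw
  rcases IsTri.words h' w hw with e1 | ⟨_, e1 | e1⟩ <;> rw [e1] at h
  · exact h.no_N nil_mem_cons
  · exact h.no_N nil_mem_app
  · have h1 := h.c3
    have h2 : J.h3c (w1 .nil (.nil △ .nil) S) = J.h3c S := h3c_two'
    omega

theorem ch_ne_l1 {c : ℕ} (hc : 2 ≤ c) : H1.ch c ≠ l1 := by
  obtain ⟨c, rfl⟩ : ∃ d, c = d + 2 := ⟨c - 2, by omega⟩
  intro h
  have := congrArg BinaryTree.numNodes h
  rw [Ring1.ch_num] at this
  simp [l1, BinaryTree.numNodes] at this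

/-- a tree of height at least 3 has a component which is not `(())` -/
theorem ex_ne_l1 {R : BinaryTree Unit} (h : 3 ≤ OddHC.ht R) : ∃ X ∈ cs R, X ≠ l1 := by
  by_contra hc
  push Not at hc
  have h1 : ∀ t : BinaryTree Unit, (∀ X ∈ cs t, X = l1) → OddHC.ht t ≤ 2 := by
    intro t
    induction t with
    | nil => intro _; exact Nat.zero_le _
    | node _ A B _ ih =>
      intro h2
      have h3 := h2 A (by rw [cs_node']; exact List.mem_cons_self)
      have h4 := ih (fun X hX => h2 X (by rw [cs_node']; exact List.mem_cons_of_mem _ hX))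
      subst h3
      change OddHC.ht (l1 △ B) ≤ 2
      rw [OddHC.ht_node]
      have h5 : OddHC.ht l1 = 1 := rfl
      omega
  have := h1 R hc
  omega

theorem ne_l1_of_ht {R : BinaryTree Unit} (h : 2 ≤ OddHC.ht R) : R ≠ l1 := by
  rintro rfl
  have h5 : OddHC.ht l1 = 1 := rfl
  omega

/-- the host of a content link -/
theorem InJ.host {w : BinaryTree Unit} (h : InJ k w) {c : ℕ} {R : BinaryTree Unit} (hc : 2 ≤ c)
    (hR : 3 ≤ OddHC.ht R) (h2 : c = 2 → 1 ∉ OddHC.cont R ∨ ¬ J.nn R)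
    (e : w = R △ H1.ch c ∨ w = app (H1.ch c) (R △ .nil)) : False := by
  obtain ⟨d, rfl⟩ : ∃ d, c = d + 1 := ⟨c - 1, by omega⟩
  have hx : R ≠ l1 := ne_l1_of_ht (by omega)
  have e1 : (∃ X ∈ [R], X ≠ l1) := ⟨R, List.mem_cons_self, hx⟩
  have e4 : cs (H1.ch (d + 1)) = [H1.ch d] := rfl
  rcases Nat.lt_or_ge d 2 with hd | hd
  · obtain rfl : d = 1 := by omega
    have h1 := h.one
    have hcr : OddHC.cont w = raise (OddHC.cont R) + {2} := by
      have h3 : OddHC.cont (H1.ch 2) = {2} := cont_ch (by norm_num)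
      rcases e with e | e
      · rw [e, OddHC.cont_node, h3]
      · rw [e, OddHC.cont_app, OddHC.cont_node, h3, OddHC.cont_nil, add_zero, add_comm]
    rcases h2 rfl with h3 | h3
    · apply h3
      rw [hcr, Multiset.mem_add, Multiset.mem_singleton] at h1
      rcases h1 with h1 | h1
      · unfold raise at h1
        rw [Multiset.mem_cons] at h1
        rcases h1 with h1 | h1
        · rw [OddHC.ht_eq] at hR
          omega
        · exact Multiset.mem_of_mem_erase h1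
      · omega
    · obtain ⟨p, E, t, hE, e5⟩ := h.shape
      apply h3
      have h6 : R ∈ cs w := by
        rcases e with e | e
        · rw [e, cs_node]; exact List.mem_cons_self
        · rw [e, cs_app, cs_node]; exact List.mem_append_right _ List.mem_cons_self
      rw [e5, cs_RR] at h6
      simp only [List.mem_append, List.mem_replicate, List.mem_cons] at h6
      rcases h6 with ⟨_, h6⟩ | h6 | ⟨_, h6⟩
      · exact absurd h6 hx
      · rw [h6]; exact hE.nn
      · exact absurd h6 hx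
  · have e2 : (∃ X ∈ [H1.ch d], X ≠ l1) := ⟨_, List.mem_cons_self, ch_ne_l1 hd⟩
    rcases e with e | e
    · refine h.two (u := [R]) (v := [H1.ch d]) ?_ e1 e2
      rw [e, cs_node, e4]
      rfl
    · refine h.two (u := [H1.ch d]) (v := [R]) ?_ e2 e1
      rw [e, cs_app, cs_node, e4]
      rfl

/-- **Cr** -/
theorem InJ.not_C {w : X k} {c : ℕ} {R : BinaryTree Unit} (h : InJ k w.1) (h' : TyC c R F' g') (hc : 2 ≤ c)
    (hR : 3 ≤ OddHC.ht R) (h2 : c = 2 → 1 ∉ OddHC.cont R ∨ ¬ J.nn R) : w ∉ g'.B := by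
  intro hw
  rcases IsTri.words h' w hw with e1 | ⟨_, e1 | e1⟩ <;> rw [e1] at h
  · exact h.host hc hR h2 (Or.inl rfl)
  · refine h.two (u := cs R) (v := [H1.ch c]) ?_ (ex_ne_l1 hR) ⟨_, List.mem_cons_self, ch_ne_l1 hc⟩
    change cs (app R (H1.ch c △ .nil)) = _
    rw [cs_app, cs_node]
    rfl
  · exact h.no_N nil_mem_app

/-- **Cl** -/
theorem InJ.not_Cl {w : X k} {c : ℕ} {R : BinaryTree Unit} (h : InJ k w.1) (h' : TyC' c R F' g') (hc : 2 ≤ c)
    (hR : 3 ≤ OddHC.ht R) (h2 : c = 2 → 1 ∉ OddHC.cont R ∨ ¬ J.nn R) : w ∉ g'.B := by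
  intro hw
  rcases IsTri.words h' w hw with e1 | ⟨_, e1 | e1⟩ <;> rw [e1] at h
  · exact h.host hc hR h2 (Or.inr rfl)
  · exact h.no_N nil_mem_app
  · refine h.two (u := [H1.ch c]) (v := cs R) ?_ ⟨_, List.mem_cons_self, ch_ne_l1 hc⟩ (ex_ne_l1 hR)
    rfl

/-! ### Against the windows over two solitons -/

theorem InJ.no_W {w R Q B S : BinaryTree Unit} (h : InJ k w) (h1 : J.h3c B + J.h3c S = J.h3c R) (h2 : 2 ≤ J.h3c R)
    {i : ℕ} (hi : i < 20) (e : w = H1.W R Q B S i ∨ w = Tsq.mir (H1.W R Q B S i)) : False := by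
  have h3 := h.c3
  have h4 := h3c_W (Q := Q) h1 i hi
  rcases e with e | e
  · rw [e] at h3; omega
  · rw [e, h3c_mir] at h3; omega

theorem two_h3c {R : BinaryTree Unit} {q : ℕ} (h1 : q + 3 ∈ OddHC.cont R) (h2 : q + 3 < OddHC.ht R) :
    2 ≤ J.h3c R := by
  have h3 : OddHC.ht R ∈ OddHC.cont R := by
    rw [OddHC.ht_eq]
    apply sup_mem
    intro e
    rw [e] at h1
    simp at h1
  unfold J.h3c
  obtain ⟨M, hM⟩ := Multiset.exists_cons_of_mem h1
  rw [hM] at h3 ⊢
  rw [Multiset.mem_cons] at h3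
  rcases h3 with h3 | h3
  · omega
  · obtain ⟨N, hN⟩ := Multiset.exists_cons_of_mem h3
    rw [hN, Multiset.countP_cons, Multiset.countP_cons, if_pos (by omega), if_pos (by omega)]
    omega

end J

open J

theorem HM.NodeM.c3 {q : ℕ} {R B S : BinaryTree Unit} (h : HM.NodeM k q R B S) :
    2 ≤ J.h3c R ∧ J.h3c B + J.h3c S = J.h3c R :=
  ⟨by
    have h1 : J.h3c R = Multiset.card (cont R) := by
      unfold J.h3c
      rw [Multiset.countP_eq_card]
      exact fun x hx => le_trans (by omega) (h.part x hx)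
    rw [h1]
    exact h.cardR, h3c_sq h.sq h.ne⟩

/-- **A0** -/
theorem J.InJ.not_A0 {w : X k} (h : InJ k w.1) (h' : TyA0 F' g') : w ∉ g'.B := by
  obtain ⟨q, R, B, S, w0, h1, h2, h3, rfl⟩ := h'
  intro hw
  obtain ⟨i, hi, rfl⟩ := mem_gad20M.1 hw
  refine h.no_W (B := B) (S := S) (Q := H1.ch (q + 1)) h1.c3.2 h1.c3.1 hi (Or.inr ?_)
  change Tsq.mir (H1.wX R B S q w0 i).1 = _
  rw [H1.wX_eq h1.dat h1.size w0 hi]

/-- **B0** -/
theorem J.InJ.not_B0 {w : X k} (h : InJ k w.1) (h' : TyB0 F' g') : w ∉ g'.B := by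
  obtain ⟨q, R, B, S, w0, h1, h2, _, _, h3, rfl⟩ := h'
  intro hw
  obtain ⟨i, hi, _, rfl⟩ := mem_gadSM.1 hw
  refine h.no_W (B := B) (S := S) (Q := H1.ch (q + 1)) h1.c3.2 h1.c3.1 hi (Or.inr ?_)
  change Tsq.mir (H1.wX R B S q w0 i).1 = _
  rw [H1.wX_eq h1.dat h1.size w0 hi]

/-! ### The gadgets -/

theorem J.Sh.oneS {p t u : ℕ} {D D' : BinaryTree Unit} (h : Sh k p D t D' u) {s a : ℕ} (hs : 3 ≤ s)
    (hc : OddHC.cont (RR p D t) = {s} + Multiset.replicate a 2) : ∃ (n : ℕ) (Φ : ZMod (2 * n + 1) → ℕ),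
    1 ≤ n ∧ RR p D t = Ring1.RF n Φ := by
  obtain ⟨n, rfl⟩ : ∃ n, s = n + 2 := ⟨s - 2, by omega⟩
  obtain ⟨Φ, _, e⟩ := Ring1.exists_RF (n := n) (by omega) hc
  exact ⟨n, Φ, by omega, e⟩

/-- the inner words of a right gadget -/
theorem J.Sh.innX {p t u : ℕ} {D D' : BinaryTree Unit} (h : Sh k p D t D' u) {s a : ℕ} (hs : 3 ≤ s)
    (hc : OddHC.cont (RR p D t) = {s} + Multiset.replicate a 2) (w0 : X k) {i : ℕ} (hi : i ∈ [1, 3, 6, 8]) :
    InJ k (TT (jX p D t D' u w0 i)).1 := by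
  obtain ⟨n, Φ, hn, e⟩ := h.oneS hs hc
  have hi' : i < 10 := by
    simp only [List.mem_cons, List.not_mem_nil, or_false] at hi
    omega
  refine ⟨n, Or.inr ⟨Φ, i, jX p D t D' u w0 i, hn, hi, ?_, rfl⟩⟩
  rw [← e]
  exact h.word_lo w0 hi'

/-- the inner words of a mirrored gadget -/
theorem J.Sh.innM {p t u : ℕ} {D D' : BinaryTree Unit} (h : Sh k p D t D' u) {s a : ℕ} (hs : 3 ≤ s)
    (hc : OddHC.cont (RR p D t) = {s} + Multiset.replicate a 2) (w0 : X k) {i j : ℕ}
    (hij : (i, j) ∈ [(0, 10), (1, 11), (3, 12), (6, 15), (8, 14), (9, 17)]) (hi : i ∈ [1, 3, 6, 8]) :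
    InJ k (TT (jM p D t D' u w0 j)).1 := by
  obtain ⟨n, Φ, hn, e⟩ := h.oneS hs hc
  have hi' : i < 10 := by
    simp only [List.mem_cons, List.not_mem_nil, or_false] at hi
    omega
  have e1 : TT (jM p D t D' u w0 j) = Tsq.mirX (TT (jX p D t D' u w0 i)) := by
    change TT (Tsq.mirX (jX p D t D' u w0 j)) = _
    rw [← h.link w0 hij]
    exact Tsq.TT_mir _
  refine ⟨n, Or.inl ⟨Φ, i, jX p D t D' u w0 i, hn, hi, ?_, ?_⟩⟩
  · rw [← e]
    exact h.word_lo w0 hi'
  · rw [e1]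
    rfl

/-- the classes of one soliton and no beads -/
def J.OneF (F : Set (Cyc k)) : Prop := ∀ c ∈ F, ∃ s a, 3 ≤ s ∧ contc c = {s} + Multiset.replicate a 2

theorem J.sub_two {M : Multiset ℕ} {s a : ℕ} (hs : 3 ≤ s) (h : M + {2} = {s} + Multiset.replicate a 2) :
    ∃ a, M = {s} + Multiset.replicate a 2 := by
  have h1 := congrArg (Multiset.count 2) h
  simp only [Multiset.count_add, Multiset.count_singleton_self, Multiset.count_replicate_self] at h1
  rw [Multiset.count_singleton, if_neg (by omega)] at h1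
  obtain ⟨b, rfl⟩ : ∃ b, a = b + 1 := ⟨a - 1, by omega⟩
  refine ⟨b, ?_⟩
  rw [Multiset.replicate_succ, ← Multiset.singleton_add, add_comm ({2} : Multiset ℕ), ← add_assoc] at h
  exact add_right_cancel h

/-- **the inner words of a gadget of type JM** -/
theorem TyJM.innJ (h : TyJM F g) (hs : OneF F) : ∀ p ∈ g.arcs, ∀ w ∈ innA p, InJ k w.1 := by
  obtain ⟨p, D, t, D', u, w0, h1, hp, rfl, rfl⟩ := h
  obtain ⟨s, a, hs1, hc⟩ := hs _ (Or.inl rfl)
  have hc' : OddHC.cont (RR p D t) + {2} = {s} + Multiset.replicate a 2 := by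
    rw [← h1.cont0M w0]
    exact hc
  obtain ⟨a, ha⟩ := sub_two hs1 hc'
  intro q hq w hw
  have hp' : q = (jM p D t D' u w0 11, jM p D t D' u w0 1) ∨
      q = (jM p D t D' u w0 12, jM p D t D' u w0 3) ∨
      q = (jM p D t D' u w0 15, jM p D t D' u w0 6) ∨
      q = (jM p D t D' u w0 14, jM p D t D' u w0 8) := hq
  rcases hp' with rfl | rfl | rfl | rfl
  · obtain rfl : w = TT (jM p D t D' u w0 11) := hw
    exact h1.innM hs1 ha w0 (i := 1) (by simp) (by simp)
  · obtain rfl : w = TT (jM p D t D' u w0 12) := hw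
    exact h1.innM hs1 ha w0 (i := 3) (by simp) (by simp)
  · obtain rfl : w = TT (jM p D t D' u w0 15) := hw
    exact h1.innM hs1 ha w0 (i := 6) (by simp) (by simp)
  · obtain rfl : w = TT (jM p D t D' u w0 14) := hw
    exact h1.innM hs1 ha w0 (i := 8) (by simp) (by simp)

/-- **I-JM-L** -/
theorem TyJM.inner_L (h : TyJM F g) (hs : OneF F) (h' : TyL F' g') : ∀ p ∈ g.arcs, ∀ w ∈ innA p, w ∉ g'.B :=
  fun p hp w hw => (h.innJ hs p hp w hw).not_L h'

/-- **I-JM-K** -/
theorem TyJM.inner_K {S : BinaryTree Unit} (h : TyJM F g) (hs : OneF F) (h' : TyK S F' g') (hS : 2 ≤ J.h3c S) :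
    ∀ p ∈ g.arcs, ∀ w ∈ innA p, w ∉ g'.B :=
  fun p hp w hw => (h.innJ hs p hp w hw).not_K h' hS

theorem TyJM.inner_K' {S : BinaryTree Unit} (h : TyJM F g) (hs : OneF F) (h' : TyK' S F' g') (hS : 2 ≤ J.h3c S) :
    ∀ p ∈ g.arcs, ∀ w ∈ innA p, w ∉ g'.B :=
  fun p hp w hw => (h.innJ hs p hp w hw).not_K' h' hS

/-- **I-JM-Cr** -/
theorem TyJM.inner_Cr {c : ℕ} {R : BinaryTree Unit} (h : TyJM F g) (hs : OneF F) (h' : TyC c R F' g')
    (hc : 2 ≤ c) (hR : 3 ≤ OddHC.ht R) (h2 : c = 2 → 1 ∉ OddHC.cont R ∨ ¬ J.nn R) :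
    ∀ p ∈ g.arcs, ∀ w ∈ innA p, w ∉ g'.B :=
  fun p hp w hw => (h.innJ hs p hp w hw).not_C h' hc hR h2

/-- **I-JM-Cl** -/
theorem TyJM.inner_Cl {c : ℕ} {R : BinaryTree Unit} (h : TyJM F g) (hs : OneF F) (h' : TyC' c R F' g')
    (hc : 2 ≤ c) (hR : 3 ≤ OddHC.ht R) (h2 : c = 2 → 1 ∉ OddHC.cont R ∨ ¬ J.nn R) :
    ∀ p ∈ g.arcs, ∀ w ∈ innA p, w ∉ g'.B :=
  fun p hp w hw => (h.innJ hs p hp w hw).not_Cl h' hc hR h2

/-- **I-JM-A0** -/
theorem TyJM.inner_A0 (h : TyJM F g) (hs : OneF F) (h' : TyA0 F' g') :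
    ∀ p ∈ g.arcs, ∀ w ∈ innA p, w ∉ g'.B :=
  fun p hp w hw => (h.innJ hs p hp w hw).not_A0 h'

theorem TyJM.inner_B0 (h : TyJM F g) (hs : OneF F) (h' : TyB0 F' g') :
    ∀ p ∈ g.arcs, ∀ w ∈ innA p, w ∉ g'.B :=
  fun p hp w hw => (h.innJ hs p hp w hw).not_B0 h'

end Pool.OddHC
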