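import Pool.Agent.Work.MP_8f87b2_h3.InJ2
import Pool.Agent.Work.MP_8f87b2_h68.JMi
import Pool.Agent.Work.MP_8f87b2_h58.InA0
import Pool.Agent.Work.MP_8f87b2_h62.W3f
import Pool.Agent.Work.MP_8f87b2_h71.H1Low

/-!
# MP_8f87b2_co: the inner words of the one soliton gadgets against T and A

`InnJ.letters`: the letters around the first maximum. `PK`: trees with long runs around the first maximum; they are not
inner. `InJ.not_T`, `InJ.not_A`.
-/

set_option autoImplicit false

namespace Pool.OddHC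

open Finset Equiv BinaryTree Pool.Agent.Work.MP_8f87b2_co

variable {k n : ℕ} {F F' : Set (Cyc k)} {g g' : DG k}

namespace J

open H1 (FM)

theorem FM_base {X : BinaryTree Unit} (h : Tsq.ht X ≤ 1) : FM (.nil △ X) [] (false :: wd X) := by
  have hh : Tsq.ht (.nil △ X) = 1 := by rw [Tsq.ht_node, Tsq.ht]; omega
  refine ⟨by rw [wd_node]; rfl, ?_, ?_⟩
  · intro m
    rw [hh]; simp
  · rw [hh]; simp

/-- the first maximum of `fm t Z` -/
theorem FM_fm {Z : BinaryTree Unit} {za zb : List Bool} (hZ : FM Z za zb) : ∀ t : BinaryTree Unit, t ≠ .nil →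
    ∃ a b, FM t a (false :: b) ∧ FM (fm t Z) (a ++ za) (zb ++ b) := by
  have hZ1 : 1 ≤ Tsq.ht Z := hZ.pos
  intro t
  induction t with
  | nil => intro h; exact absurd rfl h
  | node _ A X ihA ihX =>
    intro _
    by_cases h : Tsq.ht X ≤ Tsq.ht A + 1
    · by_cases hA : A = .nil
      · subst hA
        have h1 : Tsq.ht X ≤ 1 := by rw [Tsq.ht] at h; omega
        refine ⟨[], wd X, FM_base h1, ?_⟩
        change FM (fm (.nil △ X) Z) _ _
        rw [fm_nil Z h1]
        exact hZ.app_right (by omega)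
      · obtain ⟨a, b, h1, h2⟩ := ihA hA
        refine ⟨true :: a, b ++ false :: wd X, h1.node h, ?_⟩
        change FM (fm (A △ X) Z) _ _
        rw [fm_hi Z h hA]
        have h3 := h2.node (Z := X) (by have := ht_fm hZ1 A hA; omega)
        rw [List.append_assoc] at h3
        exact h3
    · have hX : X ≠ .nil := by
        rintro rfl
        rw [Tsq.ht] at h
        omega
      obtain ⟨a, b, h1, h2⟩ := ihX hX
      have h3 : Tsq.ht (A △ .nil) < Tsq.ht X := by
        rw [Tsq.ht_node, Tsq.ht]; omega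
      refine ⟨wd (A △ .nil) ++ a, b, h1.app_left h3, ?_⟩
      change FM (fm (A △ X) Z) _ _
      rw [fm_lo Z (by omega), List.append_assoc]
      exact h2.app_left (P := A △ .nil) (by have := ht_fm hZ1 X hX; omega)

theorem ht_RF3 (hn : 1 ≤ n) (G : ZMod (2 * n + 1) → ℕ) : 3 ≤ Tsq.ht (Ring1.RF n G) := by
  obtain ⟨D, hD, e⟩ := RF_shape hn G
  rw [e, H1.ht_eq, ht_RR hD]
  have := hD.ht
  omega

theorem letters_RF (hn : 1 ≤ n) (G : ZMod (2 * n + 1) → ℕ) {a b : List Bool}
    (h : FM (Ring1.RF n G) a (false :: b)) : (∃ u, a = u ++ [true, true]) ∧ ∃ v, b = false :: v := by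
  have h3 := ht_RF3 hn G
  obtain ⟨a', b', h1⟩ := H1.hg_FMT (g := 2) (by norm_num) (SRun.Gd_RF hn G).hg (by omega)
  obtain ⟨e1, e2⟩ := h.uniq h1.fm
  constructor
  · rw [e1]
    rcases h1.up with h2 | ⟨v, h2⟩ | ⟨v, h2⟩
    · exact ⟨[], h2⟩
    · exact ⟨v ++ [true], by rw [h2]; simp [List.replicate]⟩
    · exact ⟨v ++ [false, false], by rw [h2]; simp [List.replicate]⟩
  · rcases h1.dn with ⟨v, h2⟩ | ⟨v, h2⟩
    · rw [h2] at e2
      simp only [List.replicate, List.cons_append, List.cons.injEq, true_and] at e2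
      exact ⟨_, e2⟩
    · rw [h2] at e2
      simp only [List.replicate, List.cons_append, List.cons.injEq, true_and] at e2
      exact ⟨_, e2⟩

theorem FM_Zt1 : FM (Zt 1) [] [false, true, false, true, false] :=
  FM_base (X := .nil △ (.nil △ .nil)) (by simp [Tsq.ht])

theorem FM_Zt3 : FM (Zt 3) [true] [false, false, true, false] :=
  (FM_base (X := .nil) (by simp [Tsq.ht])).node (Z := .nil △ .nil) (by simp [Tsq.ht])

theorem FM_Zt6 : FM (Zt 6) [true] [false, true, false, false] :=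
  (FM_base (X := .nil △ .nil) (by simp [Tsq.ht])).node (Z := .nil) (by simp [Tsq.ht])

theorem FM_Zt8 : FM (Zt 8) [true, false, true] [false, false] :=
  ((FM_base (X := .nil) (by simp [Tsq.ht])).node (Z := .nil) (by simp [Tsq.ht])).app_left
    (P := .nil △ .nil) (by simp [Tsq.ht])

/-- **the letters around the first maximum of the mirror image of an inner word** -/
theorem InnJ.letters {w : BinaryTree Unit} (h : InnJ k n w) {a b : List Bool} (hf : FM w a b) :
    (∃ v, b = false :: true :: v) ∨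
      (∃ u v, a = u ++ [true, true, true] ∧ b = false :: false :: true :: false :: false :: v) ∨
      ∃ u v, a = u ++ [true, true, true, false, true] ∧ b = false :: false :: false :: v := by
  obtain ⟨Φ, i, x, hn, hi, hx, rfl⟩ := h
  obtain ⟨G, -, e⟩ := mir_TT_RF hn Φ hi hx
  rw [e] at hf
  have h0 : Ring1.RF n G ≠ .nil := by
    intro h1
    have := ht_RF3 hn G
    rw [h1, Tsq.ht] at this
    omega
  simp only [List.mem_cons, List.not_mem_nil, or_false] at hi
  rcases hi with rfl | rfl | rfl | rfl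
  · obtain ⟨a', b', h1, h2⟩ := FM_fm FM_Zt1 _ h0
    obtain ⟨e1, e2⟩ := hf.uniq h2
    exact Or.inl ⟨_, e2⟩
  · obtain ⟨a', b', h1, h2⟩ := FM_fm FM_Zt3 _ h0
    obtain ⟨⟨u, hu⟩, v, hv⟩ := letters_RF hn G h1
    obtain ⟨e1, e2⟩ := hf.uniq h2
    refine Or.inr (Or.inl ⟨u, v, ?_, ?_⟩)
    · rw [e1, hu]; simp
    · rw [e2, hv]; simp
  · obtain ⟨a', b', h1, h2⟩ := FM_fm FM_Zt6 _ h0
    obtain ⟨e1, e2⟩ := hf.uniq h2
    exact Or.inl ⟨_, e2⟩
  · obtain ⟨a', b', h1, h2⟩ := FM_fm FM_Zt8 _ h0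
    obtain ⟨⟨u, hu⟩, v, hv⟩ := letters_RF hn G h1
    obtain ⟨e1, e2⟩ := hf.uniq h2
    refine Or.inr (Or.inr ⟨u, v, ?_, ?_⟩)
    · rw [e1, hu]; simp
    · rw [e2, hv]; simp

/-! ### Long runs at the first maximum -/

/-- long runs around the first maximum -/
def PK (t : BinaryTree Unit) : Prop := ∃ a b, FM t a b ∧ (∃ u, a = u ++ [true, true]) ∧
  ∃ v, b = false :: false :: false :: v

theorem PK.node {A Z : BinaryTree Unit} (h : PK A) (hZ : Tsq.ht Z ≤ Tsq.ht A + 1) : PK (A △ Z) := by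
  obtain ⟨a, b, h1, ⟨u, rfl⟩, v, rfl⟩ := h
  exact ⟨_, _, h1.node hZ, ⟨true :: u, rfl⟩, _, rfl⟩

theorem PK.app_left {P t : BinaryTree Unit} (h : PK t) (hP : Tsq.ht P < Tsq.ht t) : PK (app P t) := by
  obtain ⟨a, b, h1, ⟨u, rfl⟩, v, rfl⟩ := h
  exact ⟨_, _, h1.app_left hP, ⟨wd P ++ u, by rw [List.append_assoc]⟩, _, rfl⟩

theorem PK.app_right {t Z : BinaryTree Unit} (h : PK t) (hZ : Tsq.ht Z ≤ Tsq.ht t) : PK (app t Z) := by
  obtain ⟨a, b, h1, ⟨u, rfl⟩, v, rfl⟩ := h
  exact ⟨_, _, h1.app_right hZ, ⟨u, rfl⟩, _, rfl⟩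

theorem PK_hg {t : BinaryTree Unit} (h : H1.hg 3 t) (h0 : t ≠ .nil) : PK t := by
  obtain ⟨_, a, b, h1, ⟨u, hu⟩, v, hv, _⟩ := H1.hg_FM (by norm_num) h h0
  exact ⟨a, b, h1, ⟨u, hu⟩, v, hv⟩

theorem InnJ.not_PK {w : BinaryTree Unit} (h : InnJ k n w) (h' : PK w) : False := by
  obtain ⟨a, b, h1, ⟨u, hu⟩, v, hv⟩ := h'
  rcases h.letters h1 with ⟨v', e⟩ | ⟨u', v', _, e⟩ | ⟨u', v', e, _⟩
  · rw [hv] at e; simp at e
  · rw [hv] at e; simp at e
  · rw [hu] at e
    have e1 := congrArg (fun l => l.reverse) e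
    simp at e1

/-! ### Light tops -/

theorem bl_sq {T : BinaryTree Unit} (h : H1.bl T = true) (h2 : Tsq.ht T = 2) : ∃ (m : ℕ) (T1 : BinaryTree Unit),
    T = app (lv m .nil) ((.nil △ .nil) △ T1) ∧ H1.bl T1 = true := by
  induction T with
  | nil => rw [Tsq.ht] at h2; omega
  | node _ A X _ ih =>
    rw [H1.bl, Bool.and_eq_true] at h
    rcases H1.light_cases h.1 with rfl | rfl
    · have h3 : Tsq.ht X = 2 := by
        change Tsq.ht (.nil △ X) = 2 at h2
        rw [Tsq.ht_node, Tsq.ht] at h2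
        omega
      obtain ⟨m, T1, e, h4⟩ := ih h.2 h3
      exact ⟨m + 1, T1, by rw [e]; rfl, h4⟩
    · exact ⟨0, X, rfl, h.2⟩

theorem ht_lvn (m : ℕ) : Tsq.ht (lv m .nil) ≤ 1 := by
  induction m with
  | zero => simp [lv, Tsq.ht]
  | succ m ih =>
    change Tsq.ht (.nil △ lv m .nil) ≤ 1
    rw [Tsq.ht_node, Tsq.ht]
    omega

theorem wd_lvn (m : ℕ) : ∃ l, wd (lv m .nil) = l ∧ (m = 0 → l = []) ∧
    (1 ≤ m → ∃ u, l = u ++ [true, false]) ∧ (2 ≤ m → ∃ u, l = u ++ [false, true, false]) := by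
  have h1 : ∀ m, wd (lv (m + 1) .nil) = wd (lv m .nil) ++ [true, false] := by
    intro m
    induction m with
    | zero => rfl
    | succ m ih =>
      change wd (.nil △ lv (m + 1) .nil) = wd (.nil △ lv m .nil) ++ _
      rw [wd_node, wd_node, ih]
      simp
  refine ⟨_, rfl, ?_, ?_, ?_⟩
  · rintro rfl; rfl
  · intro hm
    obtain ⟨m, rfl⟩ : ∃ c, m = c + 1 := ⟨m - 1, by omega⟩
    exact ⟨_, h1 m⟩
  · intro hm
    obtain ⟨m, rfl⟩ : ∃ c, m = c + 2 := ⟨m - 2, by omega⟩
    exact ⟨wd (lv m .nil) ++ [true], by rw [h1, h1]; simp⟩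

/-- a light top in a bracket has two components, `()` and `(())` -/
theorem InnJ.light_top {w T : BinaryTree Unit} (h : InnJ k n w) (hb : H1.bl T = true) (h2 : Tsq.ht T = 2)
    (hf : ∀ a b, FM T a b → ∃ p r, FM w (p ++ true :: a) (b ++ false :: r)) : T.numNodes = 3 := by
  obtain ⟨m, T1, rfl, h1⟩ := bl_sq hb h2
  have hT1 := H1.bl_ht h1
  have k1 : FM ((.nil △ .nil) △ T1) [true] (false :: false :: wd T1) :=
    (FM_base (X := .nil) (by simp [Tsq.ht])).node (Z := T1) (by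
      have : Tsq.ht ((.nil : BinaryTree Unit) △ .nil) = 1 := by simp [Tsq.ht]
      omega)
  have k2 := k1.app_left (P := lv m .nil) (by
    have := ht_lvn m
    have h3 : Tsq.ht ((.nil : BinaryTree Unit) △ .nil) = 1 := by simp [Tsq.ht]
    rw [Tsq.ht_node, h3]
    omega)
  obtain ⟨p, r, k3⟩ := hf _ _ k2
  obtain ⟨l, hl, hm0, hm1, hm2⟩ := wd_lvn m
  rw [hl] at k3
  have hn : (app (lv m .nil) ((.nil △ .nil) △ T1)).numNodes = m + 2 + T1.numNodes := by
    have e1 : ∀ m, (app (lv m .nil) ((.nil △ .nil) △ T1)).numNodes = m + 2 + T1.numNodes := by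
      intro m
      induction m with
      | zero =>
        change ((.nil △ .nil) △ T1).numNodes = _
        simp [BinaryTree.numNodes]
        omega
      | succ m ih =>
        change (BinaryTree.nil △ app (lv m .nil) ((.nil △ .nil) △ T1)).numNodes = _
        simp only [BinaryTree.numNodes]
        rw [ih]
        omega
    exact e1 m
  rw [hn]
  rcases h.letters k3 with ⟨v', e⟩ | ⟨u', v', e, e'⟩ | ⟨u', v', e, e'⟩
  · simp at e
  · -- `m = 0`
    have hm : m = 0 := by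
      by_contra h0
      obtain ⟨u, hu⟩ := hm1 (by omega)
      rw [hu] at e
      have e1 := congrArg (fun l => l.reverse) e
      simp at e1
    subst hm
    rcases H1.bl_cases h1 with rfl | ⟨T2, h3, rfl⟩ | ⟨T2, h3, rfl⟩
    · simp [wd] at e'
    · rcases H1.bl_cases h3 with rfl | ⟨T3, h4, rfl⟩ | ⟨T3, h4, rfl⟩
      · rfl
      · simp [wd] at e'
      · simp [wd] at e'
    · simp [wd] at e'
  · have hT : T1 = .nil := by
      rcases H1.bl_cases h1 with rfl | ⟨T2, h3, rfl⟩ | ⟨T2, h3, rfl⟩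
      · rfl
      · simp [wd] at e'
      · simp [wd] at e'
    subst hT
    have hm : m = 1 := by
      rcases Nat.lt_trichotomy m 1 with h0 | h0 | h0
      · have e0 := hm0 (by omega)
        rw [e0] at e
        have e1 := congrArg (fun l => l.reverse) e
        simp at e1
      · exact h0
      · obtain ⟨u, hu⟩ := hm2 (by omega)
        rw [hu] at e
        have e1 := congrArg (fun l => l.reverse) e
        simp at e1
    subst hm
    rfl

/-- the first maximum of `w` is the one of the bracketed forest `T` -/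
def LTp (T w : BinaryTree Unit) : Prop := ∀ a b, FM T a b → ∃ p r, FM w (p ++ true :: a) (b ++ false :: r)

theorem LTp.base {T Z : BinaryTree Unit} (hZ : Tsq.ht Z ≤ Tsq.ht T + 1) : LTp T (T △ Z) :=
  fun _ _ h => ⟨[], wd Z, h.node hZ⟩

theorem LTp.node {T A Z : BinaryTree Unit} (h : LTp T A) (hZ : Tsq.ht Z ≤ Tsq.ht A + 1) : LTp T (A △ Z) := by
  intro a b h1
  obtain ⟨p, r, h2⟩ := h a b h1
  refine ⟨true :: p, r ++ false :: wd Z, ?_⟩
  have h3 := h2.node hZ
  rw [List.append_assoc] at h3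
  exact h3

theorem LTp.app_left {T P t : BinaryTree Unit} (h : LTp T t) (hP : Tsq.ht P < Tsq.ht t) :
    LTp T (app P t) := by
  intro a b h1
  obtain ⟨p, r, h2⟩ := h a b h1
  refine ⟨wd P ++ p, r, ?_⟩
  have h3 := h2.app_left hP
  rw [← List.append_assoc] at h3
  exact h3

theorem isNil_mir (A : BinaryTree Unit) : H1.isNil (Tsq.mir A) = H1.isNil A := by
  cases A with
  | nil => rfl
  | node _ A B =>
    rw [Tsq.mir_node]
    cases hB : Tsq.mir B with
    | nil => rfl
    | node _ C D => rfl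

theorem bl_app {P Q : BinaryTree Unit} : H1.bl (app P Q) = (H1.bl P && H1.bl Q) := by
  induction P with
  | nil => rfl
  | node _ A X _ ih =>
    change (H1.light A && H1.bl (app X Q)) = ((H1.light A && H1.bl X) && H1.bl Q)
    rw [ih, Bool.and_assoc]

theorem bl_mir {H : BinaryTree Unit} (h : H1.bl H = true) : H1.bl (Tsq.mir H) = true := by
  induction H with
  | nil => rfl
  | node _ A X _ ih =>
    rw [H1.bl, Bool.and_eq_true] at h
    rw [Tsq.mir_node, bl_app, ih h.2, Bool.true_and]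
    rcases H1.light_cases h.1 with rfl | rfl <;> rfl

/-- a component which is not `(())` has no component `()` -/
theorem InJ.comp {w X : BinaryTree Unit} (h : InJ k w) (hX : X ∈ cs w) (h1 : X ≠ l1)
    (h2 : BinaryTree.nil ∈ cs X) : False := by
  obtain ⟨p, E, t, hE, e⟩ := h.shape
  rw [e, cs_RR] at hX
  simp only [List.mem_append, List.mem_replicate, List.mem_cons] at hX
  rcases hX with ⟨_, hX⟩ | hX | ⟨_, hX⟩
  · exact h1 hX
  · rw [hX] at h2
    exact absurd (hE.nn _ h2) (by simp [isN])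
  · exact h1 hX

theorem h3c_node_pos {A X : BinaryTree Unit} (h : 2 ≤ OddHC.ht A) : 1 + h3c X ≤ h3c (A △ X) := by
  have e : h3c (A △ X) = (raise (OddHC.cont A)).countP (3 ≤ ·) + h3c X := by
    unfold h3c
    rw [OddHC.cont_node, Multiset.countP_add]
  rw [e]
  have : 1 ≤ (raise (OddHC.cont A)).countP (3 ≤ ·) := by
    unfold raise
    rw [OddHC.ht_eq] at h
    rw [Multiset.countP_cons, if_pos (by omega)]
    omega
  omega

theorem mem_L3 {m a : ℕ} (hm : 1 ≤ m) : BinaryTree.nil ∈ cs (H1.L3 m a) := by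
  obtain ⟨m, rfl⟩ : ∃ c, m = c + 1 := ⟨m - 1, by omega⟩
  change BinaryTree.nil ∈ cs (.nil △ H1.L3 m a)
  rw [cs_node]
  exact List.mem_cons_self

theorem ne_l1_num {X : BinaryTree Unit} (h : 2 ≤ X.numNodes) : X ≠ l1 := by
  rintro rfl
  simp [l1, BinaryTree.numNodes] at h

theorem L3_num (m a : ℕ) : (H1.L3 m a).numNodes = m + 2 * a := by
  have h2 : ∀ a : ℕ, (lv2 a (.nil : BinaryTree Unit)).numNodes = 2 * a := by
    intro a
    rw [H1.lv2_num]
    rfl
  have h1 : ∀ (m : ℕ) (t : BinaryTree Unit), (lv m t).numNodes = m + t.numNodes := by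
    intro m t
    induction m with
    | zero => simp [lv]
    | succ m ih =>
      change (BinaryTree.nil △ lv m t).numNodes = _
      simp only [BinaryTree.numNodes]
      rw [ih]
      omega
  unfold H1.L3
  rw [h1, h2]

theorem t3G_num (m a : ℕ) : (H1.t3G m a).numNodes = 2 + m + 2 * a := by
  have h1 := L3_num m a
  change ((BinaryTree.nil △ .nil) △ H1.L3 m a).numNodes = _
  simp only [BinaryTree.numNodes]
  rw [h1]
  omega

theorem t3G_bl (m a : ℕ) : H1.bl (H1.t3G m a) = true := by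
  change (H1.light (.nil △ .nil) && H1.bl (H1.L3 m a)) = true
  rw [show H1.bl (H1.L3 m a) = true from H1.bl_H a m]
  rfl

theorem t3G_ht (m a : ℕ) : Tsq.ht (H1.t3G m a) = 2 := by
  have h1 := H1.bl_ht (t3G_bl m a)
  have h2 : 2 ≤ Tsq.ht (H1.t3G m a) := by
    change 2 ≤ Tsq.ht ((BinaryTree.nil △ .nil) △ H1.L3 m a)
    rw [Tsq.ht_node, Tsq.ht_node, Tsq.ht]
    omega
  omega

theorem h3c_th (b : ℕ) : b ≤ h3c (H1.th b .nil) := by
  induction b with
  | zero => exact Nat.zero_le _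
  | succ b ih =>
    have h1 : 1 + h3c (H1.th b .nil) ≤ h3c (H1.th (b + 1) .nil) :=
      h3c_node_pos (A := (.nil △ .nil) △ .nil) (by decide)
    omega

theorem h3c_R3 (b m a : ℕ) : 1 + b ≤ h3c (H1.R3 b m a) := by
  have h1 : 1 + h3c (H1.th b .nil) ≤ h3c (H1.R3 b m a) :=
    h3c_node_pos (A := H1.t3G m a) (by rw [← H1.ht_eq, t3G_ht])
  have := h3c_th b
  omega

/-- the light word of T -/
theorem InJ.no_T6 {w : BinaryTree Unit} (h : InJ k w) {m a : ℕ} (ha : 1 ≤ a) (hm : 1 ≤ m)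
    (e : w = (H1.t3G m a △ .nil) △ ((.nil △ .nil) △ .nil)) : False := by
  have hT := t3G_ht m a
  have hl : Tsq.ht (((.nil : BinaryTree Unit) △ .nil) △ .nil) = 2 := by simp [Tsq.ht]
  have hnum := t3G_num m a
  have hn : Tsq.ht (.nil : BinaryTree Unit) = 0 := rfl
  obtain ⟨n, h | h⟩ := h
  · have h1 : LTp (H1.t3G m a) w := by
      rw [e]
      exact (LTp.base (by rw [hn]; omega)).node (by rw [hl, Tsq.ht_node, hT]; omega)
    have := h.light_top (t3G_bl m a) hT h1
    omega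
  · have e1 : Tsq.mir w = app (((.nil : BinaryTree Unit) △ .nil) △ .nil) ((Tsq.mir (H1.t3G m a) △ .nil) △ .nil) := by
      rw [e]; rfl
    have h1 : LTp (Tsq.mir (H1.t3G m a)) (Tsq.mir w) := by
      rw [e1]
      refine ((LTp.base (by rw [hn]; omega)).node (by rw [hn]; omega)).app_left ?_
      rw [hl, Tsq.ht_node, Tsq.ht_node, ht_mir', hT, hn]
      omega
    have := h.light_top (bl_mir (t3G_bl m a)) (by rw [ht_mir', hT]) h1
    rw [Tsq.mir_num] at this
    omega

/-- **T** -/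
theorem InJ.no_T {w : BinaryTree Unit} (h : InJ k w) {b m a i : ℕ} (ha : 1 ≤ a) (hm : 1 ≤ m) (hi : i < 20)
    (e : w = H1.w3 b m a i) : False := by
  rcases Nat.eq_zero_or_pos b with rfl | hb
  · have hL := mem_L3 (a := a) hm
    have hG : H1.t3G m a ≠ l1 := ne_l1_num (by rw [t3G_num]; omega)
    have hN : BinaryTree.nil ∈ cs (((.nil △ .nil) △ .nil) △ H1.L3 m a) := by
      rw [cs_node]
      exact List.mem_cons_of_mem _ hL
    rw [H1.w3_fw _ _ _ i hi] at e
    interval_cases i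
    · refine h.two (u := [H1.t3G m a]) (v := [(.nil △ .nil) △ .nil]) (by rw [e]; rfl)
        ⟨_, List.mem_cons_self, hG⟩ ⟨_, List.mem_cons_self, ne_l1_num (by decide)⟩
    · refine h.no_N (e ▸ ?_)
      simp [H1.fw3, H1.th, OddHC.app]
    · refine h.no_N (e ▸ ?_)
      simp [H1.fw3, H1.th, OddHC.app]
    · refine h.comp (X := H1.t3G m a △ (.nil △ (.nil △ .nil))) (e ▸ ?_) (ne_l1_num ?_) ?_
      · exact List.mem_cons_self
      · simp only [BinaryTree.numNodes]; omega
      · simp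
    · refine h.two (u := [.nil △ (.nil △ .nil)]) (v := [H1.t3G m a]) (by rw [e]; rfl)
        ⟨_, List.mem_cons_self, ne_l1_num (by decide)⟩ ⟨_, List.mem_cons_self, hG⟩
    · refine h.no_N (e ▸ ?_)
      simp [H1.fw3]
    · exact h.no_T6 ha hm e
    · refine h.no_N (e ▸ ?_)
      simp [H1.fw3]
    · refine h.no_N (e ▸ ?_)
      simp [H1.fw3]
    · refine h.no_N (e ▸ ?_)
      simp [H1.fw3]
    · refine h.no_N (e ▸ ?_)
      simp [H1.fw3, H1.th, OddHC.app, hL]
    · refine h.no_N (e ▸ ?_)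
      simp [H1.fw3, H1.th, OddHC.app]
    · refine h.no_N (e ▸ ?_)
      simp [H1.fw3, H1.th, OddHC.app]
    · refine h.no_N (e ▸ ?_)
      simp [H1.fw3, H1.th, OddHC.app, hL]
    · refine h.comp (X := .nil △ (.nil △ (((.nil △ .nil) △ .nil) △ H1.L3 m a))) (e ▸ ?_) (ne_l1_num ?_) ?_
      · exact List.mem_cons_self
      · simp only [BinaryTree.numNodes]; omega
      · simp
    · refine h.comp (X := ((.nil △ .nil) △ .nil) △ H1.L3 m a) (e ▸ ?_) (ne_l1_num ?_) hN
      · exact List.mem_cons_of_mem _ List.mem_cons_self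
      · simp only [BinaryTree.numNodes]; omega
    · refine h.no_N (e ▸ ?_)
      simp [H1.fw3, H1.th, OddHC.app, hL]
    · refine h.no_N (e ▸ ?_)
      simp [H1.fw3]
    · refine h.no_N (e ▸ ?_)
      simp [H1.fw3]
    · refine h.no_N (e ▸ ?_)
      simp [H1.fw3]
  · refine h.no_W (R := H1.R3 b m a) (Q := H1.ch 1) (B := H1.th b .nil) (S := H1.S3 m a) ?_ ?_ hi (Or.inl e)
    · exact h3c_sq (H1.dat3 b m a).sq (by unfold H1.R3; simp)
    · have := h3c_R3 b m a
      omega

theorem InJ.not_T {w : X k} (h : InJ k w.1) (h' : TyT F' g') : w ∉ g'.B := by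
  intro hw
  obtain ⟨b, m, a, i, h1, hi, e⟩ := h'.word hw
  exact h.no_T h1.pos h1.mpos hi e

end J

open J

/-- **I-JM-T** -/
theorem TyJM.inner_T (h : TyJM F g) (hs : OneF F) (h' : TyT F' g') : ∀ p ∈ g.arcs, ∀ w ∈ innA p, w ∉ g'.B :=
  fun p hp w hw => (h.innJ hs p hp w hw).not_T h'

end Pool.OddHC
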