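import Pool.Agent.Work.MP_8f87b2_h3.InJ4
import Pool.Agent.Work.MP_8f87b2_h58.Late

/-!
# MP_8f87b2_co: the inner words of the one soliton gadgets against E: late pairs

`InnJ.far`: if an inner word of a one soliton gadget of height at least 4 is a word of an E triple, then the two T-cycles
of this triple are far (`FarC` of helper58): no word has all beads in two neighbouring gaps. So these E groups are late.
`InnJ.E_cont`: the contents of these T-cycles.
-/

set_option autoImplicit false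

namespace Pool.OddHC

open Finset Equiv BinaryTree Pool.Agent.Work.MP_8f87b2_co

variable {k n j : ℕ} {F F' : Set (Cyc k)} {g g' : DG k}

namespace J

/-- every component of `X` is `(())` or has no component `()`; no component of `X` is `()` -/
def NN2 (X : BinaryTree Unit) : Prop := nn X ∧ ∀ Y ∈ cs X, Y = l1 ∨ nn Y

theorem NN2.a {X : BinaryTree Unit} (h : NN2 X) {P Q : BinaryTree Unit} (e : X = app P (.nil △ Q)) : False := by
  have := h.1 .nil (by rw [e]; exact nil_mem_app)
  simp [isN] at this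

theorem NN2.b {X : BinaryTree Unit} (h : NN2 X) {Y : BinaryTree Unit} (hY : Y ∈ cs X) (h1 : Y ≠ l1)
    (h2 : BinaryTree.nil ∈ cs Y) : False := by
  rcases h.2 Y hY with h3 | h3
  · exact h1 h3
  · exact absurd (h3 _ h2) (by simp [isN])

/-- the beads of `X` are away from the ends -/
theorem NN2.gaps {r : X j} (hj : 1 ≤ j) {f : ZMod (2 * j + 1) → ℕ} (h : NN2 (ins r.1 (lf f))) :
    f 0 = 0 ∧ f 1 = 0 ∧ f (-1) = 0 ∧ f (-2) = 0 := by
  obtain ⟨X0, e⟩ : ∃ X0, X0 = ins r.1 (lf f) := ⟨_, rfl⟩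
  rw [← e] at h
  have hr : r.1 ≠ .nil := by
    intro e1
    have h1 := X_num r
    rw [e1] at h1
    change 0 = j at h1
    omega
  -- the first gap
  have h0 : f 0 = 0 := by
    by_contra hc
    obtain ⟨l, h1, _⟩ := lf_cons f
    obtain ⟨m, hm⟩ : ∃ m, f 0 = m + 1 := ⟨f 0 - 1, by omega⟩
    rw [h1, hm, ins_succ] at e
    exact h.a (P := .nil) e
  -- the last gap
  have hm1 : f (-1) = 0 := by
    by_contra hc
    obtain ⟨l, h1, h2, _⟩ := lf_snoc f
    obtain ⟨m, hm⟩ : ∃ m, f (-1) = m + 1 := ⟨f (-1) - 1, by omega⟩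
    rw [h2, hm, H1.ins_snoc _ _ _ (by rw [X_num]; omega)] at e
    exact h.a e
  -- the list
  have hlen := lf_length f
  obtain ⟨x0, x1, l, hl⟩ : ∃ x0 x1 l, lf f = x0 :: x1 :: l := by
    cases h1 : lf f with
    | nil => rw [h1] at hlen; simp at hlen
    | cons a l1 =>
      cases l1 with
      | nil => rw [h1] at hlen; simp at hlen; omega
      | cons b l2 => exact ⟨a, b, l2, rfl⟩
  have g0' := lf_getElem f 0 (by rw [hlen]; omega)
  have g1' := lf_getElem f 1 (by rw [hlen]; omega)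
  simp only [hl, List.getElem_cons_zero, List.getElem_cons_succ, Nat.cast_zero, Nat.cast_one] at g0' g1'
  have h1 : f 1 = 0 := by
    by_contra hc
    obtain ⟨m, hm⟩ : ∃ m, f 1 = m + 1 := ⟨f 1 - 1, by omega⟩
    rw [hl, g0', g1', h0, hm] at e
    obtain ⟨Y, Z, h2, h3⟩ := H1.ins_second hr m l
    rw [h2] at e
    refine h.b (Y := .nil △ Y) (by rw [e, cs_node]; exact List.mem_cons_self) ?_ nil_mem_cons
    intro e2
    exact h3 (node_inj' e2).2
  refine ⟨h0, h1, hm1, ?_⟩
  by_contra hc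
  obtain ⟨l2, hl1, hl2, _⟩ := lf_snoc f
  obtain ⟨l3, y, rfl⟩ : ∃ l3 y, l2 = l3 ++ [y] := by
    refine ⟨l2.dropLast, l2.getLast (by intro h4; rw [h4] at hl1; simp at hl1; omega), ?_⟩
    exact (List.dropLast_append_getLast _).symm
  have hl4 : l3.length + 1 = 2 * j := by
    rw [List.length_append, List.length_singleton] at hl1
    omega
  have hy : y = f (-2) := by
    have h5 := lf_getElem f l3.length (by rw [hlen]; omega)
    simp only [hl2] at h5
    rw [List.getElem_append_left (by simp), List.getElem_append_right (le_refl _)] at h5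
    simp only [Nat.sub_self, List.getElem_cons_zero] at h5
    rw [h5]
    congr 1
    have h6 : ((l3.length + 2 : ℕ) : ZMod (2 * j + 1)) = 0 := by
      rw [show l3.length + 2 = 2 * j + 1 by omega]
      exact ZMod.natCast_self _
    push_cast at h6
    linear_combination h6
  obtain ⟨m, hm⟩ : ∃ m, y = m + 1 := ⟨y - 1, by omega⟩
  rw [hl2, hm1, hm, List.append_assoc] at e
  obtain ⟨P, A, h6, h7⟩ := H1.ins_last2 r.1 l3 m hr (by rw [X_num]; exact hl4)
  have h8 : ([m + 1] ++ [0] : List ℕ) = [m + 1, 0] := rfl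
  rw [h8, h6] at e
  refine h.b (Y := app A (.nil △ .nil)) ?_ ?_ nil_mem_app
  · rw [e, cs_app, cs_node]
    exact List.mem_append_right _ List.mem_cons_self
  · intro e2
    have h9 := congrArg cs e2
    cases A with
    | nil => exact h7 rfl
    | node _ A1 A2 =>
      have h10 := congrArg List.length h9
      rw [cs_app] at h10
      simp [cs_node', l1] at h10

theorem raise_inv' {M N : Multiset ℕ} {s : ℕ} (hs : 1 ≤ s) (hN : ∀ x ∈ N, x ≤ s + 1)
    (h : raise M = {s + 1} + N) : M = {s} + N := by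
  have h1 := congrArg Multiset.sup h
  have h2 : ({s + 1} + N : Multiset ℕ).sup = s + 1 := by
    rw [Multiset.sup_add, Multiset.sup_singleton]
    exact sup_eq_left.2 (Multiset.sup_le.2 hN)
  rw [sup_raise, h2] at h1
  have h3 : M.sup = s := by omega
  have hM : M ≠ 0 := by
    rintro rfl
    simp at h3
    omega
  have h4 := Multiset.cons_erase (sup_mem hM)
  unfold raise at h
  rw [h3, Multiset.singleton_add] at h
  have h5 := (Multiset.cons_inj_right _).1 h
  rw [← h4, h3, h5, Multiset.singleton_add]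

theorem raise_inv {M : Multiset ℕ} {s a : ℕ} (hs : 2 ≤ s) (h : raise M = {s + 1} + Multiset.replicate a 2) :
    M = {s} + Multiset.replicate a 2 := by
  refine raise_inv' (by omega) ?_ h
  intro x hx
  rw [Multiset.eq_of_mem_replicate hx]
  omega

/-- one component -/
theorem RR_single {p t : ℕ} {E X : BinaryTree Unit} (h : X △ .nil = RR p E t) : p = 0 ∧ t = 0 ∧ X = E := by
  have h1 := congrArg cs h
  rw [cs_RR, cs_node, cs_nil] at h1
  have h2 := congrArg List.length h1
  simp at h2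
  obtain ⟨rfl, rfl⟩ : p = 0 ∧ t = 0 := by omega
  simp at h1
  exact ⟨rfl, rfl, h1⟩

/-- the inside of a prime inner word -/
theorem InnJ.nn2 {X : BinaryTree Unit} (h : InnJ k n (X △ .nil)) (hn2 : 2 ≤ n) : NN2 X := by
  obtain ⟨Φ, i, x, hn, hi, hx, e⟩ := h
  obtain ⟨G, -, e1⟩ := mir_TT_RF hn Φ hi hx
  rw [e1] at e
  obtain ⟨D, hD, e2⟩ := RF_shape hn G
  rw [e2, fm_RR _ hD] at e
  obtain ⟨h1, h2, h3⟩ := RR_single e
  have hc := Ring1.cont_RF hn G
  rw [e2, h1, h2] at hc
  have hc2 : raise (OddHC.cont D) = {n + 1 + 1} + Multiset.replicate (∑ z, G z) 2 := by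
    rw [← hc]
    change _ = OddHC.cont (D △ b2 0)
    rw [OddHC.cont_node]
    change _ = raise (OddHC.cont D) + OddHC.cont .nil
    rw [OddHC.cont_nil, add_zero]
  have hc3 := raise_inv (by omega) hc2
  obtain ⟨m, rfl⟩ : ∃ m, n = m + 1 := ⟨n - 1, by omega⟩
  obtain ⟨G', _, e3⟩ := Ring1.exists_RF (n := m) (by omega) hc3
  obtain ⟨E, hE, e4⟩ := shape_fm (n := m) (by omega) G' i
  rw [h3, e3, e4]
  refine ⟨nn_RR hE, ?_⟩
  intro Y hY
  rw [cs_RR] at hY
  simp only [List.mem_append, List.mem_replicate, List.mem_cons] at hY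
  rcases hY with ⟨_, hY⟩ | hY | ⟨_, hY⟩
  · exact Or.inl hY
  · rw [hY]; exact Or.inr hE.nn
  · exact Or.inl hY

theorem nn_mir {t : BinaryTree Unit} (h : nn (Tsq.mir t)) : nn t := by
  intro Y hY
  have h1 : Tsq.mir Y ∈ cs (Tsq.mir t) := by
    rw [cs_mirx, List.mem_reverse]
    exact List.mem_map_of_mem hY
  have := h _ h1
  rwa [isN_mirx] at this

theorem NN2.mir {X : BinaryTree Unit} (h : NN2 (Tsq.mir X)) : NN2 X := by
  refine ⟨nn_mir h.1, ?_⟩
  intro Y hY
  have h1 : Tsq.mir Y ∈ cs (Tsq.mir X) := by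
    rw [cs_mirx, List.mem_reverse]
    exact List.mem_map_of_mem hY
  rcases h.2 _ h1 with h2 | h2
  · left
    rw [← Tsq.mir_mir Y, h2]
    rfl
  · exact Or.inr (nn_mir h2)

/-- **the T-cycles of a hit E pair are far**, both orientations -/
theorem InnJ.far {w : X k} (h : InnJ k n w.1 ∨ InnJ k n (Tsq.mir w.1)) (hn2 : 2 ≤ n) (h' : TyE F' g')
    (hw : w ∈ g'.B) : ∀ c ∈ F', H1.FarC c := by
  have hI : InJ k w.1 := ⟨n, h⟩
  obtain ⟨j, r, f, hj, hr, ht⟩ := h'
  rcases ht.words _ hw with e | ⟨_, e | e⟩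
  · have e1 : w.1 = ins r.1 (lf f) △ .nil := e
    have hX : NN2 (ins r.1 (lf f)) := by
      rcases h with h | h
      · rw [e1] at h
        exact h.nn2 hn2
      · rw [e1, mir_one] at h
        exact (h.nn2 hn2).mir
    obtain ⟨a0, a1, a2, a3⟩ := hX.gaps hj
    have hlen : (lf f).length = 2 * r.1.numNodes + 1 := by rw [lf_length, X_num]
    have hs : 1 ≤ ∑ z, f z := by
      have h2 : (OddHC.cont (ins r.1 (lf f))).count 1 = ∑ z, f z := by
        rw [count_one_ins _ _ hlen, lf_sum]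
      rw [← h2]
      have h1 := hI.one
      rw [e1, OddHC.cont_node, OddHC.cont_nil, add_zero] at h1
      have h3 : OddHC.cont (ins r.1 (lf f)) ≠ 0 := by
        intro e2
        rw [OddHC.cont_eq_zero] at e2
        have h5 := (ins_num r.1 (lf f) hlen).1
        rw [e2, X_num] at h5
        change 0 = _ at h5
        omega
      exact le_trans (Multiset.count_pos.2 h1)
        (H1.count_raise_one h3 (fun h4 => absurd (cont_pos _ _ h4) (by norm_num)))
    obtain ⟨b1, b2⟩ := H1.far_ins hj r f a0 a1 a2 a3 hs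
    obtain ⟨a', b', c', ha, hb', hc', k1, k2, k3, rfl, rfl⟩ := ht
    rintro c (rfl | rfl)
    · apply H1.farC_of
      rw [hb']
      exact b2
    · apply H1.farC_of
      rw [hc']
      exact b1
  · rw [e] at hI
    exact absurd (hI.no_N nil_mem_app) (fun h => h)
  · rw [e] at hI
    exact absurd (hI.no_N nil_mem_cons) (fun h => h)

/-- **the contents of the T-cycles of a hit E pair** -/
theorem InnJ.E_cont {w : X k} (h : InnJ k n w.1 ∨ InnJ k n (Tsq.mir w.1)) (h' : TyE F' g') (hw : w ∈ g'.B) :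
    ∃ a, (∀ c ∈ F', contc c = {n + 1} + (Multiset.replicate a 2 + ({1} + {1}) + {1})) ∨
      ∀ c ∈ F', contc c = {n + 2} + (Multiset.replicate a 2 + {1} + {1}) := by
  have hI : InJ k w.1 := ⟨n, h⟩
  have hn : 1 ≤ n := by
    rcases h with ⟨_, _, _, h, _⟩ | ⟨_, _, _, h, _⟩ <;> exact h
  obtain ⟨X0, e, hc⟩ := H1.TyE_count h' hw (fun Y h1 => hI.no_N (by rw [h1]; exact nil_mem_cons))
    (fun Y h1 => hI.no_N (by rw [h1]; exact nil_mem_app))
  have hr : OddHC.cont w.1 = raise (OddHC.cont X0) := by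
    rw [e, OddHC.cont_node, OddHC.cont_nil, add_zero]
  have hcont : ∃ a, OddHC.cont w.1 = {n + 2} + (Multiset.replicate a 2 + ({1} + {1})) ∨
      OddHC.cont w.1 = {n + 3} + (Multiset.replicate a 2 + {1}) := by
    rcases h with h | h
    · exact h.content
    · have := h.content
      rwa [HM.cont_mir] at this
  obtain ⟨a, h1 | h1⟩ := hcont
  · have h2 := raise_inv' (s := n + 1) (N := Multiset.replicate a 2 + ({1} + {1})) (by omega) (by
      intro x hx
      have := le_top (n := 0) (a := a) ({1} + {1}) (by simp) x hx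
      omega) (hr.symm.trans h1)
    refine ⟨a, Or.inl fun c hc' => ?_⟩
    rw [hc c hc', h2, add_assoc]
  · have h2 := raise_inv' (s := n + 2) (N := Multiset.replicate a 2 + {1}) (by omega) (by
      intro x hx
      have := le_top (n := 0) (a := a) {1} (by simp) x hx
      omega) (hr.symm.trans h1)
    refine ⟨a, Or.inr fun c hc' => ?_⟩
    rw [hc c hc', h2, add_assoc]

/-- the inner words of a mirrored gadget, with `n` -/
theorem Sh.innM_n {p t u a : ℕ} {D D' : BinaryTree Unit} (h : Sh k p D t D' u) (hn : 1 ≤ n)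
    (hc : OddHC.cont (RR p D t) = {n + 2} + Multiset.replicate a 2) (w0 : X k) {i j : ℕ}
    (hij : (i, j) ∈ [(0, 10), (1, 11), (3, 12), (6, 15), (8, 14), (9, 17)]) (hi : i ∈ [1, 3, 6, 8]) :
    InnJ k n (TT (jM p D t D' u w0 j)).1 := by
  obtain ⟨Φ, _, e⟩ := Ring1.exists_RF hn hc
  have hi' : i < 10 := by
    simp only [List.mem_cons, List.not_mem_nil, or_false] at hi
    omega
  have e1 : TT (jM p D t D' u w0 j) = Tsq.mirX (TT (jX p D t D' u w0 i)) := by
    change TT (Tsq.mirX (jX p D t D' u w0 j)) = _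
    rw [← h.link w0 hij]
    exact Tsq.TT_mir _
  refine ⟨Φ, i, jX p D t D' u w0 i, hn, hi, ?_, ?_⟩
  · rw [← e]
    exact h.word_lo w0 hi'
  · rw [e1]
    rfl

/-- the inner words of a right gadget, with `n` -/
theorem Sh.innX_n {p t u a : ℕ} {D D' : BinaryTree Unit} (h : Sh k p D t D' u) (hn : 1 ≤ n)
    (hc : OddHC.cont (RR p D t) = {n + 2} + Multiset.replicate a 2) (w0 : X k) {i : ℕ}
    (hi : i ∈ [1, 3, 6, 8]) : InnJ k n (Tsq.mir (TT (jX p D t D' u w0 i)).1) := by
  obtain ⟨Φ, _, e⟩ := Ring1.exists_RF hn hc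
  have hi' : i < 10 := by
    simp only [List.mem_cons, List.not_mem_nil, or_false] at hi
    omega
  refine ⟨Φ, i, jX p D t D' u w0 i, hn, hi, ?_, rfl⟩
  rw [← e]
  exact h.word_lo w0 hi'

end J

open J

/-- the data of a gadget of type JM -/
theorem TyJM.innJ_n (h : TyJM F g) (hs : OneF F) : ∃ n a, 1 ≤ n ∧
    (∀ c ∈ F, contc c = {n + 2} + Multiset.replicate (a + 1) 2) ∧
    ∀ p ∈ g.arcs, ∀ w ∈ innA p, InnJ k n w.1 := by
  obtain ⟨p, D, t, D', u, w0, h1, hp, rfl, rfl⟩ := h
  obtain ⟨s, a, hs1, hc⟩ := hs _ (Or.inl rfl)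
  have hc' : OddHC.cont (RR p D t) + {2} = {s} + Multiset.replicate a 2 := by
    rw [← h1.cont0M w0]
    exact hc
  obtain ⟨a, ha⟩ := sub_two hs1 hc'
  obtain ⟨n, rfl⟩ : ∃ n, s = n + 2 := ⟨s - 2, by omega⟩
  refine ⟨n, a, by omega, ?_, ?_⟩
  · intro c hc1
    have e1 : contc c = OddHC.cont (RR p D t) + {2} := by
      rcases hc1 with rfl | rfl
      · exact h1.cont0M w0
      · exact h1.cont4M w0
    rw [e1, ha, Multiset.replicate_add, add_assoc]
    rfl
  · intro q hq w hw
    have hp' : q = (jM p D t D' u w0 11, jM p D t D' u w0 1) ∨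
        q = (jM p D t D' u w0 12, jM p D t D' u w0 3) ∨
        q = (jM p D t D' u w0 15, jM p D t D' u w0 6) ∨
        q = (jM p D t D' u w0 14, jM p D t D' u w0 8) := hq
    have hn1 : 1 ≤ n := by omega
    rcases hp' with rfl | rfl | rfl | rfl
    · obtain rfl : w = TT (jM p D t D' u w0 11) := hw
      exact h1.innM_n hn1 ha w0 (i := 1) (by simp) (by simp)
    · obtain rfl : w = TT (jM p D t D' u w0 12) := hw
      exact h1.innM_n hn1 ha w0 (i := 3) (by simp) (by simp)
    · obtain rfl : w = TT (jM p D t D' u w0 15) := hw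
      exact h1.innM_n hn1 ha w0 (i := 6) (by simp) (by simp)
    · obtain rfl : w = TT (jM p D t D' u w0 14) := hw
      exact h1.innM_n hn1 ha w0 (i := 8) (by simp) (by simp)

/-- **I-JM-E**: a hit E pair is lower, or it is of the class `(s, 2^a, 1, 1)` if the group is of the class
`(s, 2^(a+1))`, and for `s ≥ 4` its T-cycles are far -/
theorem TyJM.E_hit (h : TyJM F g) (hs : OneF F) (h' : TyE F' g') {p : X k × X k} (hp : p ∈ g.arcs) {w : X k}
    (hw : w ∈ innA p) (hw' : w ∈ g'.B) : ∀ c ∈ F', ∀ d ∈ F,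
    (htc c + 1 = htc d ∨ contc c + {2} = contc d + ({1} + {1})) ∧ (4 ≤ htc d → H1.FarC c) := by
  obtain ⟨n, a, hn, hF, hI⟩ := h.innJ_n hs
  have h1 := hI p hp w hw
  have hle : ∀ (b : ℕ) (s : Multiset ℕ), (∀ x ∈ s, x ≤ 2) → (Multiset.replicate b 2 + s).sup ≤ 2 := by
    intro b s hs1
    apply Multiset.sup_le.2
    intro x hx
    exact le_top (n := 0) s hs1 x hx
  have hd : ∀ d ∈ F, htc d = n + 2 := by
    intro d hd
    unfold htc
    rw [hF d hd, Multiset.sup_add, Multiset.sup_singleton]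
    apply sup_eq_left.2
    have := hle (a + 1) 0 (by simp)
    rw [add_zero] at this
    omega
  have hsum : ∀ c : Cyc k, (contc c).sum = k := fun c => contc_sum c
  intro c hc d hd1
  constructor
  · obtain ⟨b, h2 | h2⟩ := InnJ.E_cont (Or.inl h1) h' hw'
    · left
      rw [hd d hd1]
      unfold htc
      rw [h2 c hc, Multiset.sup_add, Multiset.sup_singleton]
      have h3 := hle b ({1} + {1} + {1}) (by simp)
      rw [← add_assoc] at h3
      rw [sup_eq_left.2 (by omega)]
    · right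
      have h3 := hsum c
      have h4 := hsum d
      rw [h2 c hc] at h3
      rw [hF d hd1] at h4
      simp only [Multiset.sum_add, Multiset.sum_singleton, Multiset.sum_replicate, smul_eq_mul] at h3 h4
      have h5 : b = a := by omega
      rw [h2 c hc, hF d hd1, h5, Multiset.replicate_add]
      have h6 : (Multiset.replicate 1 2 : Multiset ℕ) = {2} := rfl
      rw [h6]
      simp only [add_assoc, add_comm, add_left_comm]
  · intro h4
    rw [hd d hd1] at h4
    exact InnJ.far (Or.inl h1) (by omega) h' hw' c hc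

/-- **I-JM-E**: early E groups -/
theorem TyJM.inner_E (h : TyJM F g) (hs : OneF F) (h' : TyE F' g') (hle : ∀ d ∈ F, ∀ c ∈ F', htc d ≤ htc c)
    (h4 : ∀ d ∈ F, 4 ≤ htc d) (hF : F.Nonempty)
    (he : (∃ c ∈ F', ¬ H1.FarC c) ∨ ∃ c ∈ F', ∀ d ∈ F, contc c + {2} ≠ contc d + ({1} + {1})) :
    ∀ p ∈ g.arcs, ∀ w ∈ innA p, w ∉ g'.B := by
  intro p hp w hw hw'
  obtain ⟨d, hd⟩ := hF
  rcases he with ⟨c, hc, h1⟩ | ⟨c, hc, h1⟩
  · exact h1 ((h.E_hit hs h' hp hw hw' c hc d hd).2 (h4 d hd))
  · rcases (h.E_hit hs h' hp hw hw' c hc d hd).1 with h2 | h2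
    · have := hle d hd c hc
      omega
    · exact h1 d hd h2

end Pool.OddHC
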