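import Pool.Agent.Work.MP_8f87b2_h3.InJ5

/-!
# MP_8f87b2_co: the inner words of the mirrored one soliton gadgets of height 3 against E

`InnJ.no_E1`: no inner word of a mirrored gadget of height 3 is a word of an E triple of height at least 3 (`k ≥ 6`).
`TyJM.inner_E'`: all heights.
-/

set_option autoImplicit false

namespace Pool.OddHC

open Finset Equiv BinaryTree Pool.Agent.Work.MP_8f87b2_co

variable {k n j : ℕ} {F F' : Set (Cyc k)} {g g' : DG k}

namespace J

/-- all parts equal to 2 -/
theorem eq_b2 : ∀ {t : BinaryTree Unit} {m : ℕ}, OddHC.cont t = Multiset.replicate m 2 → t = b2 m := by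
  intro t
  induction t with
  | nil =>
    intro m h
    cases m with
    | zero => rfl
    | succ m =>
      rw [OddHC.cont_nil, Multiset.replicate_succ] at h
      exact absurd h.symm (Multiset.cons_ne_zero)
  | node _ A B _ ih =>
    intro m h
    change OddHC.cont (A △ B) = _ at h
    rw [OddHC.cont_node] at h
    have h2 : ∀ x ∈ raise (OddHC.cont A), x = 2 := by
      intro x hx
      exact Multiset.eq_of_mem_replicate (h ▸ Multiset.mem_add.2 (Or.inl hx))
    have h3 : (OddHC.cont A).sup + 1 = 2 := h2 _ (by unfold raise; exact Multiset.mem_cons_self _ _)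
    have h4 : (OddHC.cont A).sup = 1 := by omega
    have hA0 : OddHC.cont A ≠ 0 := by
      intro e
      rw [e] at h4
      simp at h4
    have h5 : (OddHC.cont A).erase 1 = 0 := by
      rw [Multiset.eq_zero_iff_forall_notMem]
      intro x hx
      have h6 := h2 x (by unfold raise; rw [h4]; exact Multiset.mem_cons_of_mem hx)
      have h7 := Multiset.le_sup (Multiset.mem_of_mem_erase hx)
      omega
    have h6 : OddHC.cont A = {1} := by
      have h7 := Multiset.cons_erase (sup_mem hA0)
      rw [h4, h5] at h7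
      exact h7.symm
    have hA : A = .nil △ .nil := by
      cases A with
      | nil => rw [OddHC.cont_nil] at h6; exact absurd h6.symm (Multiset.singleton_ne_zero _)
      | node _ A1 A2 =>
        have h7 : OddHC.cont (A1 △ A2) = {1} := h6
        rw [OddHC.cont_node] at h7
        have hc := congrArg Multiset.card h7
        rw [Multiset.card_add, Multiset.card_singleton] at hc
        have h8 : 1 ≤ Multiset.card (raise (OddHC.cont A1)) := by
          rw [Nat.one_le_iff_ne_zero, Ne, Multiset.card_eq_zero]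
          exact raise_ne_zero _
        have hA2 : A2 = .nil := by
          rw [← OddHC.cont_eq_zero, ← Multiset.card_eq_zero]
          omega
        subst hA2
        rw [OddHC.cont_nil, add_zero] at h7
        have h9 := congrArg Multiset.sup h7
        rw [sup_raise, Multiset.sup_singleton] at h9
        have hA1 : A1 = .nil := by
          rw [← OddHC.cont_eq_zero]
          by_contra h10
          have h11 := sup_mem h10
          have h12 := cont_pos _ _ h11
          omega
        rw [hA1]
    have hm : ∃ m', m = m' + 1 := by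
      cases m with
      | zero =>
        rw [Multiset.replicate_zero] at h
        exact absurd (add_eq_zero.1 h).1 (raise_ne_zero _)
      | succ m => exact ⟨m, rfl⟩
    obtain ⟨m', rfl⟩ := hm
    have hr : raise (OddHC.cont A) = {2} := by
      rw [h6]
      rfl
    rw [hr, Multiset.replicate_succ, ← Multiset.singleton_add] at h
    rw [ih (add_left_cancel h), hA]
    rfl

/-- the inside of a prime inner word of height 4, `n = 1` -/
theorem InnJ.one_form {X : BinaryTree Unit} (h : InnJ k 1 (X △ .nil)) :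
    ∃ i ∈ [1, 3, 6, 8], ∃ b, X = Zt i △ b2 b := by
  obtain ⟨Φ, i, x, hn, hi, hx, e⟩ := h
  obtain ⟨G, -, e1⟩ := mir_TT_RF hn Φ hi hx
  rw [e1] at e
  obtain ⟨D, hD, e2⟩ := RF_shape hn G
  rw [e2, fm_RR _ hD] at e
  obtain ⟨h1, h2, h3⟩ := RR_single e
  have hc := Ring1.cont_RF hn G
  rw [e2, h1, h2] at hc
  have hc2 : raise (OddHC.cont D) = {2 + 1} + Multiset.replicate (∑ z, G z) 2 := by
    rw [← hc]
    change _ = OddHC.cont (D △ b2 0)
    rw [OddHC.cont_node]
    change _ = raise (OddHC.cont D) + OddHC.cont .nil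
    rw [OddHC.cont_nil, add_zero]
  have hc3 := raise_inv le_rfl hc2
  have hc4 : OddHC.cont D = Multiset.replicate (∑ z, G z + 1) 2 := by
    rw [hc3, Multiset.replicate_succ, Multiset.singleton_add]
  refine ⟨i, hi, ∑ z, G z, ?_⟩
  rw [h3, eq_b2 hc4]
  change fm (l1 △ b2 (∑ z, G z)) (Zt i) = _
  rw [fm_hi _ (by have := Tht_b2 (∑ z, G z); have h5 : Tsq.ht l1 = 1 := by rw [H1.ht_eq]; rfl
                  omega) (by simp [l1])]
  congr 1
  change fm (.nil △ .nil) (Zt i) = Zt i
  rw [fm_nil _ (by rw [Tsq.ht]; omega), H1.app_nil]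

theorem b2_num (b : ℕ) : (b2 b).numNodes = 2 * b := by
  induction b with
  | zero => rfl
  | succ b ih =>
    change (l1 △ b2 b).numNodes = _
    simp only [BinaryTree.numNodes, l1]
    omega

theorem cs_lvn (m : ℕ) : ∀ Y ∈ cs (lv m .nil), Y = BinaryTree.nil := by
  induction m with
  | zero => intro Y hY; simp [lv] at hY
  | succ m ih =>
    intro Y hY
    change Y ∈ cs (.nil △ lv m .nil) at hY
    rw [cs_node, List.mem_cons] at hY
    rcases hY with h | h
    · exact h
    · exact ih Y h

/-- **height 3** -/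
theorem InnJ.no_E1 {w : X k} (h : InnJ k 1 w.1) (hk : 6 ≤ k) (h' : TyE F' g') (hw : w ∈ g'.B) :
    ∀ c ∈ F', htc c = 2 := by
  have hI : InJ k w.1 := ⟨1, Or.inl h⟩
  obtain ⟨X0, e0, hc0⟩ := H1.TyE_count h' hw (fun Y h1 => hI.no_N (by rw [h1]; exact nil_mem_cons))
    (fun Y h1 => hI.no_N (by rw [h1]; exact nil_mem_app))
  obtain ⟨j, r, f, hj, hr, ht⟩ := h'
  have e1 : w.1 = ins r.1 (lf f) △ .nil := by
    rcases ht.words _ hw with e | ⟨_, e | e⟩
    · exact e
    · exact absurd (hI.no_N (by rw [e]; exact nil_mem_app)) (fun h => h)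
    · exact absurd (hI.no_N (by rw [e]; exact nil_mem_cons)) (fun h => h)
  have eX : X0 = ins r.1 (lf f) := (node_inj' (e0.symm.trans e1)).1
  rw [e0] at h
  obtain ⟨i, hi, b, hb⟩ := h.one_form
  have hnum : (Zt i).numNodes = 3 := by
    simp only [List.mem_cons, List.not_mem_nil, or_false] at hi
    rcases hi with rfl | rfl | rfl | rfl <;> rfl
  have hb1 : 1 ≤ b := by
    have h1 := X_num w
    rw [e0, hb] at h1
    have h2 := b2_num b
    simp only [BinaryTree.numNodes] at h1
    omega
  by_cases hi1 : i = 1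
  · subst hi1
    intro c hc
    unfold htc
    rw [hc0 c hc, Multiset.sup_add, Multiset.sup_singleton, ← OddHC.ht_eq, hb, OddHC.ht_node, ← H1.ht_eq,
      ← H1.ht_eq]
    have h1 := Tht_b2 b
    have h2 : Tsq.ht (Zt 1) = 1 := by simp [Zt, Tsq.ht]
    rw [h2]
    omega
  · exfalso
    have hlen : (lf f).length = 2 * r.1.numNodes + 1 := by rw [lf_length, X_num]
    -- `r` starts with `()`
    have hcnt : 1 ≤ (OddHC.cont r.1).count 1 := by
      have h1 : (OddHC.cont X0).count 2 = (OddHC.cont r.1).count 1 := by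
        rw [eX, cont_ins _ _ hlen, Multiset.count_add]
        have h2 : (Multiset.replicate (lf f).sum 1).count 2 = 0 := by
          rw [Multiset.count_replicate]; simp
        rw [h2, add_zero]
        exact Multiset.count_map_eq_count' (· + 1) _ (add_left_injective 1) 1
      have h3 : 1 ≤ (OddHC.cont X0).count 2 := by
        rw [hb, OddHC.cont_node, Multiset.count_add, cont_b2, Multiset.count_replicate_self]
        omega
      omega
    obtain ⟨r', hr'⟩ := hr.1 hcnt
    obtain ⟨m, a, c, h1, h2, h3, h4, h5⟩ := split_e (A := .nil) (B := r') (e := lf f) (by rw [hlen, hr'])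
    have e2 : X0 = lv m (ins .nil (bump .nil a) △ ins r' c) := by
      have e5 : ins (.nil △ r') (lf f) = lv ((lf f).headD 0) (ins .nil (bump .nil
          ((lf f).tail.take (2 * (.nil : BinaryTree Unit).numNodes + 1))) △
          ins r' ((lf f).drop (2 * (.nil : BinaryTree Unit).numNodes + 2))) := rfl
      have e6 : (lf f).headD 0 = m := by rw [h1]; rfl
      rw [eX, hr', e5, h4, h5, e6]
    have hZ : cs (Zt i) ≠ [] ∧ ∃ Y ∈ cs (Zt i), Y ≠ BinaryTree.nil := by
      simp only [List.mem_cons, List.not_mem_nil, or_false] at hi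
      rcases hi with rfl | rfl | rfl | rfl
      · exact absurd rfl hi1
      · exact ⟨by simp [Zt], ⟨.nil △ .nil, by simp [Zt], by simp⟩⟩
      · exact ⟨by simp [Zt], ⟨.nil △ (.nil △ .nil), by simp [Zt], by simp⟩⟩
      · exact ⟨by simp [Zt], ⟨.nil △ .nil, by simp [Zt], by simp⟩⟩
    obtain ⟨_, Y, hY, hY0⟩ := hZ
    have e3 : Zt i △ b2 b = lv m (ins .nil (bump .nil a) △ ins r' c) := by rw [← hb]; exact e2
    cases m with
    | succ m =>
      have h6 : Zt i = .nil := (node_inj' e3).1
      rw [h6] at hnum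
      exact absurd hnum (by simp)
    | zero =>
      have h6 : Zt i = ins .nil (bump .nil a) := (node_inj' e3).1
      obtain ⟨y, hy⟩ : ∃ y, ins .nil (bump .nil a) = lv y .nil := ⟨_, rfl⟩
      rw [h6, hy] at hY
      exact hY0 (cs_lvn y Y hY)

end J

open J

/-- **I-JM-E**: early E groups, all heights -/
theorem TyJM.inner_E' (h : TyJM F g) (hs : OneF F) (h' : TyE F' g') (hle : ∀ d ∈ F, ∀ c ∈ F', htc d ≤ htc c)
    (hk : 6 ≤ k) (hF : F.Nonempty) (hF' : F'.Nonempty)
    (he : (∀ d ∈ F, 4 ≤ htc d) → (∃ c ∈ F', ¬ H1.FarC c) ∨ ∃ c ∈ F', ∀ d ∈ F, contc c + {2} ≠ contc d + ({1} + {1})) :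
    ∀ p ∈ g.arcs, ∀ w ∈ innA p, w ∉ g'.B := by
  obtain ⟨n, a, hn, hc, hI⟩ := h.innJ_n hs
  have hd : ∀ d ∈ F, htc d = n + 2 := by
    intro d hd
    unfold htc
    rw [hc d hd, Multiset.sup_add, Multiset.sup_singleton]
    apply sup_eq_left.2
    have := le_top (n := n) (a := a + 1) 0 (by simp)
    rw [add_zero] at this
    exact Multiset.sup_le.2 this
  rcases Nat.lt_or_ge n 2 with h1 | h1
  · obtain rfl : n = 1 := by omega
    intro p hp w hw hw'
    obtain ⟨d, hd1⟩ := hF
    obtain ⟨c, hc1⟩ := hF'
    have h2 := (hI p hp w hw).no_E1 hk h' hw' c hc1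
    have h3 := hd d hd1
    have h4 := hle d hd1 c hc1
    omega
  · have h4 : ∀ d ∈ F, 4 ≤ htc d := fun d hd1 => by rw [hd d hd1]; omega
    exact h.inner_E hs h' hle h4 hF (he h4)

end Pool.OddHC
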